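import Pool.Agent.Helper41.KR.Defs

open MeasureTheory Filter Topology ENNReal Complex
open scoped Laplacian FourierTransform InnerProductSpace

namespace Pool.Agent.Helper41.KR

noncomputable section

theorem first_deriv (a b : ℝ) (hab : a ≤ b) (φ φ1 φ2 : ℝ → ℝ) (A A1 : ℝ → ℂ) (lam M V : ℝ)
    (hlam : 0 < lam)
    (h1 : ∀ s ∈ Set.Icc a b, HasDerivAt φ (φ1 s) s) (h2 : ∀ s ∈ Set.Icc a b, HasDerivAt φ1 (φ2 s) s)
    (hc2 : ContinuousOn φ2 (Set.Icc a b)) (hpos : ∀ s ∈ Set.Icc a b, 0 ≤ φ2 s)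
    (hl : (∀ s ∈ Set.Icc a b, lam ≤ φ1 s) ∨ (∀ s ∈ Set.Icc a b, φ1 s ≤ -lam))
    (hA : ∀ s ∈ Set.Icc a b, HasDerivAt A (A1 s) s) (hcA : ContinuousOn A1 (Set.Icc a b))
    (hM : ∀ s ∈ Set.Icc a b, ‖A s‖ ≤ M) (hV : ∫ s in a..b, ‖A1 s‖ ≤ V) :
    ‖∫ s in a..b, A s * Complex.exp (I * (φ s : ℂ))‖ ≤ (3 * M + V) / lam := by
  have huI : Set.uIcc a b = Set.Icc a b := Set.uIcc_of_le hab
  have hM0 : 0 ≤ M := (norm_nonneg _).trans (hM a ⟨le_refl a, hab⟩)
  have habs : ∀ s ∈ Set.Icc a b, lam ≤ |φ1 s| := by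
    intro s hs
    rcases hl with h | h
    · exact (h s hs).trans (le_abs_self _)
    · have := h s hs
      exact (by linarith : lam ≤ -φ1 s).trans (neg_le_abs _)
  have hne : ∀ s ∈ Set.Icc a b, φ1 s ≠ 0 := by
    intro s hs h0
    have := habs s hs
    rw [h0, abs_zero] at this
    linarith
  have hcφ : ContinuousOn φ (Set.Icc a b) := fun s hs => (h1 s hs).continuousAt.continuousWithinAt
  have hcφ1 : ContinuousOn φ1 (Set.Icc a b) := fun s hs => (h2 s hs).continuousAt.continuousWithinAt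
  have hcAA : ContinuousOn A (Set.Icc a b) := fun s hs => (hA s hs).continuousAt.continuousWithinAt
  have hcφ' : ContinuousOn (fun s => ((φ s : ℝ) : ℂ)) (Set.Icc a b) :=
    Complex.continuous_ofReal.comp_continuousOn hcφ
  have hcφ1' : ContinuousOn (fun s => ((φ1 s : ℝ) : ℂ)) (Set.Icc a b) :=
    Complex.continuous_ofReal.comp_continuousOn hcφ1
  have hcφ2' : ContinuousOn (fun s => ((φ2 s : ℝ) : ℂ)) (Set.Icc a b) :=
    Complex.continuous_ofReal.comp_continuousOn hc2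
  have hcE : ContinuousOn (fun s => Complex.exp (I * (φ s : ℂ))) (Set.Icc a b) :=
    Complex.continuous_exp.comp_continuousOn (continuousOn_const.mul hcφ')
  have hnC : ∀ s ∈ Set.Icc a b, ((φ1 s : ℝ) : ℂ) ≠ 0 := fun s hs =>
    Complex.ofReal_ne_zero.2 (hne s hs)
  have hnE : ∀ s, ‖Complex.exp (I * (φ s : ℂ))‖ = 1 := by
    intro s
    rw [mul_comm]
    exact Complex.norm_exp_ofReal_mul_I _
  -- the derivative of the amplitude
  set h' : ℝ → ℂ := fun s => (A1 s * ((φ1 s : ℝ) : ℂ) - A s * ((φ2 s : ℝ) : ℂ)) /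
    ((φ1 s : ℝ) : ℂ) ^ 2 * (I)⁻¹ with hh'
  have hder : ∀ s ∈ Set.uIcc a b, HasDerivAt
      (fun s => (A s / ((φ1 s : ℝ) : ℂ) * (I)⁻¹) * Complex.exp (I * (φ s : ℂ)))
      (h' s * Complex.exp (I * (φ s : ℂ)) + A s * Complex.exp (I * (φ s : ℂ))) s := by
    intro s hs
    rw [huI] at hs
    have e1 : HasDerivAt (fun s => ((φ1 s : ℝ) : ℂ)) ((φ2 s : ℝ) : ℂ) s := (h2 s hs).ofReal_comp
    have e2 : HasDerivAt (fun s => ((φ s : ℝ) : ℂ)) ((φ1 s : ℝ) : ℂ) s := (h1 s hs).ofReal_comp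
    have e3 := ((hA s hs).div e1 (hnC s hs)).mul_const (I)⁻¹
    have e4 : HasDerivAt (fun s => Complex.exp (I * (φ s : ℂ)))
        (Complex.exp (I * (φ s : ℂ)) * (I * ((φ1 s : ℝ) : ℂ))) s := (e2.const_mul I).cexp
    have e5 := e3.mul e4
    refine e5.congr_deriv ?_
    have hI : I ≠ 0 := Complex.I_ne_zero
    have hn := hnC s hs
    simp only [hh', Pi.div_apply]
    congr 1
    field_simp
  have hch' : ContinuousOn h' (Set.Icc a b) := by
    refine ContinuousOn.mul (ContinuousOn.div ((hcA.mul hcφ1').sub (hcAA.mul hcφ2'))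
      (hcφ1'.pow 2) ?_) continuousOn_const
    intro s hs
    exact pow_ne_zero 2 (hnC s hs)
  have hI1 : IntervalIntegrable (fun s => h' s * Complex.exp (I * (φ s : ℂ))) volume a b :=
    ContinuousOn.intervalIntegrable (by rw [huI]; exact hch'.mul hcE)
  have hI2 : IntervalIntegrable (fun s => A s * Complex.exp (I * (φ s : ℂ))) volume a b :=
    ContinuousOn.intervalIntegrable (by rw [huI]; exact hcAA.mul hcE)
  have hFTC := intervalIntegral.integral_eq_sub_of_hasDerivAt hder (hI1.add hI2)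
  rw [intervalIntegral.integral_add hI1 hI2] at hFTC
  -- the bound for the boundary terms
  have hbd : ∀ s ∈ Set.Icc a b,
      ‖(A s / ((φ1 s : ℝ) : ℂ) * (I)⁻¹) * Complex.exp (I * (φ s : ℂ))‖ ≤ M / lam := by
    intro s hs
    rw [norm_mul, hnE, mul_one, norm_mul, norm_inv, Complex.norm_I, inv_one, mul_one, norm_div,
      Complex.norm_real, Real.norm_eq_abs]
    exact div_le_div₀ hM0 (hM s hs) hlam (habs s hs)
  -- the integral of φ2/φ1²
  have hφder : ∀ s ∈ Set.uIcc a b, HasDerivAt (fun s => -(φ1 s)⁻¹) (φ2 s / φ1 s ^ 2) s := by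
    intro s hs
    rw [huI] at hs
    have e1 := ((h2 s hs).inv (hne s hs)).neg
    refine e1.congr_deriv ?_
    ring
  have hcq : ContinuousOn (fun s => φ2 s / φ1 s ^ 2) (Set.Icc a b) :=
    hc2.div (hcφ1.pow 2) (fun s hs => pow_ne_zero 2 (hne s hs))
  have hIq : IntervalIntegrable (fun s => φ2 s / φ1 s ^ 2) volume a b :=
    ContinuousOn.intervalIntegrable (by rw [huI]; exact hcq)
  have hqint := intervalIntegral.integral_eq_sub_of_hasDerivAt hφder hIq
  have hq : ∫ s in a..b, φ2 s / φ1 s ^ 2 ≤ 1 / lam := by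
    rw [hqint]
    rcases hl with h | h
    · have ha := h a ⟨le_refl a, hab⟩
      have hb := h b ⟨hab, le_refl b⟩
      have t1 : (φ1 a)⁻¹ ≤ 1 / lam := by
        rw [one_div]; exact inv_anti₀ hlam ha
      have t2 : 0 ≤ (φ1 b)⁻¹ := inv_nonneg.2 (hlam.le.trans hb)
      linarith
    · have ha := h a ⟨le_refl a, hab⟩
      have hb := h b ⟨hab, le_refl b⟩
      have t1 : (-(φ1 b))⁻¹ ≤ 1 / lam := by
        rw [one_div]; exact inv_anti₀ hlam (by linarith)
      have t2 : 0 ≤ (-(φ1 a))⁻¹ := inv_nonneg.2 (by linarith)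
      rw [inv_neg] at t1 t2
      linarith
  -- the bound for the amplitude derivative
  have hpt : ∀ s ∈ Set.Icc a b, ‖h' s * Complex.exp (I * (φ s : ℂ))‖ ≤
      ‖A1 s‖ / lam + M * (φ2 s / φ1 s ^ 2) := by
    intro s hs
    have hn := hne s hs
    have hp : 0 < |φ1 s| := abs_pos.2 hn
    rw [norm_mul, hnE, mul_one]
    have e1 : h' s = A1 s / ((φ1 s : ℝ) : ℂ) * (I)⁻¹ -
        A s * (((φ2 s / φ1 s ^ 2 : ℝ)) : ℂ) * (I)⁻¹ := by
      simp only [hh']
      have := hnC s hs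
      push_cast
      field_simp
    rw [e1]
    refine (norm_sub_le _ _).trans ?_
    rw [norm_mul, norm_mul, norm_inv, Complex.norm_I, inv_one, mul_one, mul_one, norm_div,
      norm_mul, Complex.norm_real, Complex.norm_real, Real.norm_eq_abs, Real.norm_eq_abs,
      abs_of_nonneg (div_nonneg (hpos s hs) (sq_nonneg (φ1 s)))]
    refine add_le_add ?_ ?_
    · exact div_le_div_of_nonneg_left (norm_nonneg _) hlam (habs s hs)
    · exact mul_le_mul_of_nonneg_right (hM s hs) (div_nonneg (hpos s hs) (sq_nonneg _))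
  have hcA1n : ContinuousOn (fun s => ‖A1 s‖) (Set.Icc a b) := hcA.norm
  have hI3 : IntervalIntegrable (fun s => ‖A1 s‖ / lam) volume a b :=
    ContinuousOn.intervalIntegrable (by rw [huI]; exact hcA1n.div_const lam)
  have hI4 : IntervalIntegrable (fun s => M * (φ2 s / φ1 s ^ 2)) volume a b :=
    hIq.const_mul M
  have hmain : ‖∫ s in a..b, h' s * Complex.exp (I * (φ s : ℂ))‖ ≤ V / lam + M * (1 / lam) := by
    refine (intervalIntegral.norm_integral_le_integral_norm hab).trans ?_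
    have e1 : ∫ s in a..b, ‖h' s * Complex.exp (I * (φ s : ℂ))‖ ≤
        ∫ s in a..b, (‖A1 s‖ / lam + M * (φ2 s / φ1 s ^ 2)) :=
      intervalIntegral.integral_mono_on hab hI1.norm (hI3.add hI4) hpt
    refine e1.trans ?_
    rw [intervalIntegral.integral_add hI3 hI4, intervalIntegral.integral_div,
      intervalIntegral.integral_const_mul]
    exact add_le_add (div_le_div_of_nonneg_right hV hlam.le) (mul_le_mul_of_nonneg_left hq hM0)
  have hfin : ∫ s in a..b, A s * Complex.exp (I * (φ s : ℂ)) =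
      (A b / ((φ1 b : ℝ) : ℂ) * (I)⁻¹) * Complex.exp (I * (φ b : ℂ)) -
      (A a / ((φ1 a : ℝ) : ℂ) * (I)⁻¹) * Complex.exp (I * (φ a : ℂ)) -
      ∫ s in a..b, h' s * Complex.exp (I * (φ s : ℂ)) := by
    rw [← hFTC]; ring
  rw [hfin]
  refine (norm_sub_le _ _).trans ?_
  have e2 := norm_sub_le ((A b / ((φ1 b : ℝ) : ℂ) * (I)⁻¹) * Complex.exp (I * (φ b : ℂ)))
    ((A a / ((φ1 a : ℝ) : ℂ) * (I)⁻¹) * Complex.exp (I * (φ a : ℂ)))
  have e3 := hbd a ⟨le_refl a, hab⟩
  have e4 := hbd b ⟨hab, le_refl b⟩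
  have e5 : (3 * M + V) / lam = M / lam + M / lam + (V / lam + M * (1 / lam)) := by
    field_simp
    ring
  rw [e5]
  linarith

end

end Pool.Agent.Helper41.KR
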