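import Pool.Agent.Helper41.KR.Defs
import Pool.Agent.Helper41.KR.K01

open MeasureTheory Filter Topology ENNReal Complex
open scoped Laplacian FourierTransform InnerProductSpace

namespace Pool.Agent.Helper41.KR

noncomputable section

/-- amplitude -/
def oA (β τ y : ℝ) (s : ℝ) : ℂ :=
  (s : ℂ) ^ ((β : ℂ) + (τ : ℂ) * I) * Complex.exp (-(y : ℂ) * (s : ℂ))

/-- derivative of the amplitude -/
def oA1 (β τ y : ℝ) (s : ℝ) : ℂ :=
  (((β : ℂ) + (τ : ℂ) * I) * (s : ℂ) ^ ((β : ℂ) + (τ : ℂ) * I - 1)) * Complex.exp (-(y : ℂ) * (s : ℂ)) +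
    (s : ℂ) ^ ((β : ℂ) + (τ : ℂ) * I) * (Complex.exp (-(y : ℂ) * (s : ℂ)) * (-(y : ℂ)))

/-- phase -/
def oφ (x r s : ℝ) : ℝ := x * s + r ^ 2 / (4 * s)
/-- derivative of the phase -/
def oφ1 (x r s : ℝ) : ℝ := x - r ^ 2 / (4 * s ^ 2)
/-- second derivative of the phase -/
def oφ2 (r s : ℝ) : ℝ := r ^ 2 / (2 * s ^ 3)

theorem oφ_d (x r s : ℝ) (hs : 0 < s) : HasDerivAt (oφ x r) (oφ1 x r s) s := by
  have h1 : HasDerivAt (fun s : ℝ => x * s + r ^ 2 / 4 * s⁻¹) (x * 1 + r ^ 2 / 4 * (-(s ^ 2)⁻¹)) s :=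
    ((hasDerivAt_id s).const_mul x).add ((hasDerivAt_inv hs.ne').const_mul _)
  have e1 : (fun s : ℝ => x * s + r ^ 2 / 4 * s⁻¹) = oφ x r := by
    funext s; simp only [oφ]; rw [div_mul_eq_div_div, div_eq_mul_inv (r ^ 2 / 4)]
  have e2 : x * 1 + r ^ 2 / 4 * (-(s ^ 2)⁻¹) = oφ1 x r s := by
    simp only [oφ1]; field_simp; ring
  rw [← e1, ← e2]; exact h1

theorem oφ1_d (x r s : ℝ) (hs : 0 < s) : HasDerivAt (oφ1 x r) (oφ2 r s) s := by
  have h0 : HasDerivAt (fun s : ℝ => s ^ 2) (2 * s) s := by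
    simpa using hasDerivAt_pow 2 s
  have h1 : HasDerivAt (fun s : ℝ => x - r ^ 2 / 4 * (s ^ 2)⁻¹)
      (- (r ^ 2 / 4 * (-(2 * s) / (s ^ 2) ^ 2))) s :=
    (h0.inv (by positivity)).const_mul (r ^ 2 / 4) |>.const_sub x
  have e1 : (fun s : ℝ => x - r ^ 2 / 4 * (s ^ 2)⁻¹) = oφ1 x r := by
    funext s; simp only [oφ1]; rw [div_mul_eq_div_div, div_eq_mul_inv (r ^ 2 / 4)]
  have e2 : - (r ^ 2 / 4 * (-(2 * s) / (s ^ 2) ^ 2)) = oφ2 r s := by
    simp only [oφ2]; field_simp; ring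
  rw [← e1, ← e2]; exact h1

theorem oA_d (β τ y s : ℝ) (hs : 0 < s) : HasDerivAt (oA β τ y) (oA1 β τ y s) s := by
  have h1 : HasDerivAt (fun z : ℂ => z ^ ((β : ℂ) + (τ : ℂ) * I))
      (((β : ℂ) + (τ : ℂ) * I) * (s : ℂ) ^ ((β : ℂ) + (τ : ℂ) * I - 1) * 1) (s : ℂ) :=
    (hasDerivAt_id (s : ℂ)).cpow_const (by simp [hs])
  have h2 : HasDerivAt (fun z : ℂ => Complex.exp (-(y : ℂ) * z))
      (Complex.exp (-(y : ℂ) * (s : ℂ)) * (-(y : ℂ) * 1)) (s : ℂ) :=
    ((hasDerivAt_id (s : ℂ)).const_mul (-(y : ℂ))).cexp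
  have h3 := (h1.mul h2).comp_ofReal
  have e : ((β : ℂ) + (τ : ℂ) * I) * (s : ℂ) ^ ((β : ℂ) + (τ : ℂ) * I - 1) * 1 *
      Complex.exp (-(y : ℂ) * (s : ℂ)) + (s : ℂ) ^ ((β : ℂ) + (τ : ℂ) * I) *
      (Complex.exp (-(y : ℂ) * (s : ℂ)) * (-(y : ℂ) * 1)) = oA1 β τ y s := by
    unfold oA1; simp only [mul_one]
  rw [e] at h3
  exact h3

theorem oA_n (β τ y s : ℝ) (hs : 0 < s) : ‖oA β τ y s‖ = s ^ β * Real.exp (-(y * s)) := by
  unfold oA
  rw [norm_mul, Complex.norm_cpow_eq_rpow_re_of_pos hs, Complex.norm_exp]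
  simp

theorem oA1_n (β τ y s : ℝ) (hs : 0 < s) (hy : 0 < y) :
    ‖oA1 β τ y s‖ ≤ (|β| + |τ|) * s ^ (β - 1) + s ^ β * (Real.exp (-(y * s)) * y) := by
  unfold oA1
  refine (norm_add_le _ _).trans ?_
  rw [norm_mul, norm_mul, norm_mul, norm_mul, Complex.norm_cpow_eq_rpow_re_of_pos hs,
    Complex.norm_cpow_eq_rpow_re_of_pos hs, Complex.norm_exp]
  have e1 : ((β : ℂ) + (τ : ℂ) * I - 1).re = β - 1 := by simp
  have e2 : ((β : ℂ) + (τ : ℂ) * I).re = β := by simp
  have e3 : (-(y : ℂ) * (s : ℂ)).re = -(y * s) := by simp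
  have e4 : ‖(-(y : ℂ))‖ = y := by rw [norm_neg, Complex.norm_real, Real.norm_eq_abs, abs_of_pos hy]
  rw [e1, e2, e3, e4]
  have h1 : ‖(β : ℂ) + (τ : ℂ) * I‖ ≤ |β| + |τ| := by
    refine (norm_add_le _ _).trans ?_
    simp
  have h2 : Real.exp (-(y * s)) ≤ 1 := by
    rw [Real.exp_le_one_iff]; nlinarith [mul_pos hy hs]
  have h3 : 0 < s ^ (β - 1) := Real.rpow_pos_of_pos hs _
  have h4 : ‖(β : ℂ) + (τ : ℂ) * I‖ * s ^ (β - 1) * Real.exp (-(y * s)) ≤
      (|β| + |τ|) * s ^ (β - 1) * 1 := by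
    gcongr
  linarith

theorem oA1_V (β τ y a b : ℝ) (hβ : β ≤ -(1 / 2)) (hy : 0 < y) (ha : 0 < a) (hab : a ≤ b)
    (hcA : ContinuousOn (oA1 β τ y) (Set.Icc a b)) :
    ∫ s in a..b, ‖oA1 β τ y s‖ ≤ 2 * a ^ β * (1 + |τ|) := by
  have hβ0 : β < 0 := by linarith
  have hΦ : ∀ s ∈ Set.uIcc a b, HasDerivAt
      (fun s : ℝ => (|β| + |τ|) / β * s ^ β - a ^ β * Real.exp (-(y * s)))
      ((|β| + |τ|) * s ^ (β - 1) + a ^ β * (Real.exp (-(y * s)) * y)) s := by
    intro s hs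
    rw [Set.uIcc_of_le hab] at hs
    have hs0 : 0 < s := lt_of_lt_of_le ha hs.1
    have h1 := (Real.hasDerivAt_rpow_const (x := s) (p := β) (Or.inl hs0.ne')).const_mul
      ((|β| + |τ|) / β)
    have h2 : HasDerivAt (fun s : ℝ => Real.exp (-(y * s))) (Real.exp (-(y * s)) * (-(y * 1))) s :=
      (((hasDerivAt_id s).const_mul y).neg).exp
    have h3 := h1.sub (h2.const_mul (a ^ β))
    have hβne : β ≠ 0 := hβ0.ne
    have e : (|β| + |τ|) / β * (β * s ^ (β - 1)) - a ^ β * (Real.exp (-(y * s)) * (-(y * 1))) =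
        (|β| + |τ|) * s ^ (β - 1) + a ^ β * (Real.exp (-(y * s)) * y) := by
      have : (|β| + |τ|) / β * (β * s ^ (β - 1)) = (|β| + |τ|) * s ^ (β - 1) := by
        rw [← mul_assoc, div_mul_cancel₀ _ hβne]
      rw [this]; ring
    rw [e] at h3
    exact h3
  have hcont : ContinuousOn (fun s : ℝ => (|β| + |τ|) * s ^ (β - 1) + a ^ β * (Real.exp (-(y * s)) * y))
      (Set.uIcc a b) := by
    apply ContinuousOn.add
    · apply ContinuousOn.mul continuousOn_const
      apply ContinuousOn.rpow_const continuousOn_id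
      intro s hs
      rw [Set.uIcc_of_le hab] at hs
      exact Or.inl (lt_of_lt_of_le ha hs.1).ne'
    · fun_prop
  have hint := intervalIntegral.integral_eq_sub_of_hasDerivAt hΦ hcont.intervalIntegrable
  have hcA' : ContinuousOn (fun s => ‖oA1 β τ y s‖) (Set.uIcc a b) := by
    rw [Set.uIcc_of_le hab]; exact hcA.norm
  have hmono : ∫ s in a..b, ‖oA1 β τ y s‖ ≤
      ∫ s in a..b, ((|β| + |τ|) * s ^ (β - 1) + a ^ β * (Real.exp (-(y * s)) * y)) := by
    apply intervalIntegral.integral_mono_on hab hcA'.intervalIntegrable hcont.intervalIntegrable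
    intro s hs
    have hs0 : 0 < s := lt_of_lt_of_le ha hs.1
    refine (oA1_n β τ y s hs0 hy).trans ?_
    have h1 : s ^ β ≤ a ^ β := Real.rpow_le_rpow_of_nonpos ha hs.1 hβ0.le
    have h2 : 0 < Real.exp (-(y * s)) * y := mul_pos (Real.exp_pos _) hy
    nlinarith
  rw [hint] at hmono
  refine hmono.trans ?_
  have hb0 : 0 < b := lt_of_lt_of_le ha hab
  have hτ := abs_nonneg τ
  have hβabs : |β| = -β := abs_of_neg hβ0
  have p1 : 0 < a ^ β := Real.rpow_pos_of_pos ha _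
  have p2 : 0 < b ^ β := Real.rpow_pos_of_pos hb0 _
  have p3 : Real.exp (-(y * a)) ≤ 1 := by
    rw [Real.exp_le_one_iff]; nlinarith [mul_pos hy ha]
  have p4 : 0 < Real.exp (-(y * b)) := Real.exp_pos _
  have q1 : (|β| + |τ|) / β ≤ 0 := div_nonpos_of_nonneg_of_nonpos (by positivity) hβ0.le
  have q2 : -((|β| + |τ|) / β) ≤ 1 + 2 * |τ| := by
    rw [← div_neg, div_le_iff₀ (by linarith : (0:ℝ) < -β), hβabs]
    nlinarith
  have r1 : (|β| + |τ|) / β * b ^ β ≤ 0 := mul_nonpos_of_nonpos_of_nonneg q1 p2.le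
  have r2 : 0 < a ^ β * Real.exp (-(y * b)) := mul_pos p1 p4
  have r3 : a ^ β * Real.exp (-(y * a)) ≤ a ^ β * 1 := mul_le_mul_of_nonneg_left p3 p1.le
  have r4 : -((|β| + |τ|) / β) * a ^ β ≤ (1 + 2 * |τ|) * a ^ β := mul_le_mul_of_nonneg_right q2 p1.le
  linarith

theorem oA1_c (β τ y a b : ℝ) (ha : 0 < a) : ContinuousOn (oA1 β τ y) (Set.Icc a b) := by
  unfold oA1
  have h0 : ∀ c : ℂ, ContinuousOn (fun s : ℝ => (s : ℂ) ^ c) (Set.Icc a b) := by
    intro c s hs
    have hs0 : 0 < s := lt_of_lt_of_le ha hs.1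
    apply ContinuousAt.continuousWithinAt
    exact ContinuousAt.cpow Complex.continuous_ofReal.continuousAt continuousAt_const
      (by simp [hs0])
  have h1 : ContinuousOn (fun s : ℝ => Complex.exp (-(y : ℂ) * (s : ℂ))) (Set.Icc a b) := by
    fun_prop
  exact ((continuousOn_const.mul (h0 _)).mul h1).add ((h0 _).mul (h1.mul continuousOn_const))

theorem osc_piece (β τ y x r a b lam : ℝ) (hβ : β ≤ -(1 / 2)) (hy : 0 < y) (ha : 0 < a)
    (hab : a ≤ b) (hlam : 0 < lam)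
    (hl : (∀ s ∈ Set.Icc a b, lam ≤ oφ1 x r s) ∨ (∀ s ∈ Set.Icc a b, oφ1 x r s ≤ -lam)) :
    ‖∫ s in a..b, oA β τ y s * Complex.exp (I * (oφ x r s : ℂ))‖ ≤
      5 * a ^ β * (1 + |τ|) / lam := by
  have hc := oA1_c β τ y a b ha
  have h := first_deriv a b hab (oφ x r) (oφ1 x r) (oφ2 r) (oA β τ y) (oA1 β τ y) lam (a ^ β)
    (2 * a ^ β * (1 + |τ|)) hlam
    (fun s hs => oφ_d x r s (lt_of_lt_of_le ha hs.1))
    (fun s hs => oφ1_d x r s (lt_of_lt_of_le ha hs.1))
    (by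
      intro s hs
      have hs0 : 0 < s := lt_of_lt_of_le ha hs.1
      apply ContinuousAt.continuousWithinAt
      unfold oφ2
      apply ContinuousAt.div (by fun_prop) (by fun_prop) (by positivity))
    (fun s hs => by
      have hs0 : 0 < s := lt_of_lt_of_le ha hs.1
      unfold oφ2; positivity)
    hl
    (fun s hs => oA_d β τ y s (lt_of_lt_of_le ha hs.1))
    hc
    (fun s hs => by
      have hs0 : 0 < s := lt_of_lt_of_le ha hs.1
      rw [oA_n β τ y s hs0]
      have h1 : s ^ β ≤ a ^ β := Real.rpow_le_rpow_of_nonpos ha hs.1 (by linarith)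
      have h2 : Real.exp (-(y * s)) ≤ 1 := by
        rw [Real.exp_le_one_iff]; nlinarith [mul_pos hy hs0]
      have h3 : 0 < a ^ β := Real.rpow_pos_of_pos ha _
      calc s ^ β * Real.exp (-(y * s)) ≤ a ^ β * 1 :=
            mul_le_mul h1 h2 (Real.exp_pos _).le h3.le
        _ = a ^ β := mul_one _)
    (oA1_V β τ y a b hβ hy ha hab hc)
  refine h.trans ?_
  apply div_le_div_of_nonneg_right _ hlam.le
  have h3 : 0 < a ^ β := Real.rpow_pos_of_pos ha _
  have := abs_nonneg τ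
  nlinarith

theorem osc_triv (β τ y x r a b : ℝ) (hβ : β ≤ -(1 / 2)) (hy : 0 < y) (ha : 0 < a)
    (hab : a ≤ b) :
    ‖∫ s in a..b, oA β τ y s * Complex.exp (I * (oφ x r s : ℂ))‖ ≤ a ^ β * (b - a) := by
  have h := intervalIntegral.norm_integral_le_of_norm_le_const (a := a) (b := b)
    (f := fun s => oA β τ y s * Complex.exp (I * (oφ x r s : ℂ))) (C := a ^ β) (by
      intro s hs
      rw [Set.uIoc_of_le hab] at hs
      have hs0 : 0 < s := lt_trans ha hs.1
      rw [norm_mul, oA_n β τ y s hs0, mul_comm I, Complex.norm_exp_ofReal_mul_I, mul_one]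
      have h1 : s ^ β ≤ a ^ β := Real.rpow_le_rpow_of_nonpos ha hs.1.le (by linarith)
      have h2 : Real.exp (-(y * s)) ≤ 1 := by
        rw [Real.exp_le_one_iff]; nlinarith [mul_pos hy hs0]
      have h3 : 0 < a ^ β := Real.rpow_pos_of_pos ha _
      calc s ^ β * Real.exp (-(y * s)) ≤ a ^ β * 1 :=
            mul_le_mul h1 h2 (Real.exp_pos _).le h3.le
        _ = a ^ β := mul_one _)
  rwa [abs_of_nonneg (sub_nonneg.mpr hab)] at h

theorem osc_cont (β τ y x r a b : ℝ) (ha : 0 < a) :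
    ContinuousOn (fun s => oA β τ y s * Complex.exp (I * (oφ x r s : ℂ))) (Set.Icc a b) := by
  intro s hs
  have hs0 : 0 < s := lt_of_lt_of_le ha hs.1
  apply ContinuousAt.continuousWithinAt
  have h1 : ContinuousAt (oA β τ y) s := (oA_d β τ y s hs0).continuousAt
  have h2 : ContinuousAt (oφ x r) s := (oφ_d x r s hs0).continuousAt
  exact h1.mul (ContinuousAt.cexp (continuousAt_const.mul
    (Complex.continuous_ofReal.continuousAt.comp h2)))

theorem osc_ii (β τ y x r a b : ℝ) (ha : 0 < a) (hab : a ≤ b) :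
    IntervalIntegrable (fun s => oA β τ y s * Complex.exp (I * (oφ x r s : ℂ))) volume a b := by
  apply ContinuousOn.intervalIntegrable
  rw [Set.uIcc_of_le hab]
  exact osc_cont β τ y x r a b ha

theorem osc_add (β τ y x r a b c X Y : ℝ) (ha : 0 < a) (hab : a ≤ b) (hbc : b ≤ c)
    (h1 : ‖∫ s in a..b, oA β τ y s * Complex.exp (I * (oφ x r s : ℂ))‖ ≤ X)
    (h2 : ‖∫ s in b..c, oA β τ y s * Complex.exp (I * (oφ x r s : ℂ))‖ ≤ Y) :
    ‖∫ s in a..c, oA β τ y s * Complex.exp (I * (oφ x r s : ℂ))‖ ≤ X + Y := by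
  rw [← intervalIntegral.integral_add_adjacent_intervals (osc_ii β τ y x r a b ha hab)
    (osc_ii β τ y x r b c (lt_of_lt_of_le ha hab) hbc)]
  exact (norm_add_le _ _).trans (add_le_add h1 h2)

theorem oφ1_ge (x r s s0 lam : ℝ) (hs : 0 < s) (hr : r ^ 2 = 4 * x * s0 ^ 2)
    (h : lam * s ^ 2 ≤ x * (s ^ 2 - s0 ^ 2)) : lam ≤ oφ1 x r s := by
  have hs2 : 0 < s ^ 2 := by positivity
  have e : oφ1 x r s = x * (s ^ 2 - s0 ^ 2) / s ^ 2 := by
    unfold oφ1; rw [hr]; field_simp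
  rw [e, le_div_iff₀ hs2]
  exact h

theorem oφ1_le (x r s s0 lam : ℝ) (hs : 0 < s) (hr : r ^ 2 = 4 * x * s0 ^ 2)
    (h : x * (s ^ 2 - s0 ^ 2) ≤ -lam * s ^ 2) : oφ1 x r s ≤ -lam := by
  have hs2 : 0 < s ^ 2 := by positivity
  have e : oφ1 x r s = x * (s ^ 2 - s0 ^ 2) / s ^ 2 := by
    unfold oφ1; rw [hr]; field_simp
  rw [e, div_le_iff₀ hs2]
  exact h

theorem w_bound (β w : ℝ) (hβ : β ≤ -(1 / 2)) (hw : 2 ≤ w) : w * (w ^ 2 / 2) ^ β ≤ 2 := by
  have hw0 : 0 < w := by linarith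
  have h1 : (w ^ 2 / 2) ^ β ≤ (w ^ 2 / 2) ^ (-(1 / 2) : ℝ) :=
    Real.rpow_le_rpow_of_exponent_le (by nlinarith) hβ
  have h2 : (w ^ 2 / 2) ^ (-(1 / 2) : ℝ) ≤ ((w / 2) ^ 2) ^ (-(1 / 2) : ℝ) :=
    Real.rpow_le_rpow_of_nonpos (by positivity) (by nlinarith) (by norm_num)
  have h3 : ((w / 2) ^ 2) ^ (-(1 / 2) : ℝ) = (w / 2)⁻¹ := by
    rw [← Real.rpow_natCast (w / 2) 2, ← Real.rpow_mul (by positivity)]
    norm_num
    rw [Real.rpow_neg_one]
    field_simp
  rw [h3] at h2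
  calc w * (w ^ 2 / 2) ^ β ≤ w * (w / 2)⁻¹ := mul_le_mul_of_nonneg_left (h1.trans h2) hw0.le
    _ = 2 := by field_simp

theorem regII (x s0 w s : ℝ) (hx' : 4 / 5 ≤ x) (hw0 : 0 < w) (hws : w ^ 2 = s0)
    (h1 : s ≤ s0 - w) (h1' : s0 / 2 ≤ s) : x * (s ^ 2 - s0 ^ 2) ≤ -(1 / w) * s ^ 2 := by
  have hs0 : 0 < s0 := by rw [← hws]; positivity
  have h2 : 1 / w * s ^ 2 ≤ w ^ 3 := by
    rw [one_div, inv_mul_le_iff₀ hw0]
    calc s ^ 2 ≤ s0 ^ 2 := pow_le_pow_left₀ (by linarith) (by linarith) 2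
      _ = w * w ^ 3 := by rw [← hws]; ring
  have h3 : w * (3 / 2 * w ^ 2) ≤ (s0 - s) * (s0 + s) := by
    apply mul_le_mul (by linarith) (by rw [hws]; linarith) (by positivity) (by linarith)
  have h4 : 4 / 5 * (w * (3 / 2 * w ^ 2)) ≤ x * ((s0 - s) * (s0 + s)) := by
    apply mul_le_mul hx' h3 (by positivity) (by linarith)
  have h5 : 0 < w ^ 3 := by positivity
  have h6 : 4 / 5 * (w * (3 / 2 * w ^ 2)) = 6 / 5 * w ^ 3 := by ring
  have h7 : x * ((s0 - s) * (s0 + s)) = -(x * (s ^ 2 - s0 ^ 2)) := by ring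
  rw [h6, h7] at h4
  linarith

theorem regIV (x s0 w s : ℝ) (hx' : 4 / 5 ≤ x) (hw0 : 0 < w) (hws : w ^ 2 = s0)
    (h1 : s ≤ 2 * s0) (h1' : s0 + w ≤ s) : 1 / (2 * w) * s ^ 2 ≤ x * (s ^ 2 - s0 ^ 2) := by
  have hs0 : 0 < s0 := by rw [← hws]; positivity
  have hs : 0 < s := by linarith
  have h2 : 1 / (2 * w) * s ^ 2 ≤ w * s := by
    rw [one_div, inv_mul_le_iff₀ (by positivity)]
    calc s ^ 2 = s * s := by ring
      _ ≤ (2 * s0) * s := mul_le_mul_of_nonneg_right h1 hs.le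
      _ = 2 * w * (w * s) := by rw [← hws]; ring
  have h3 : w * (3 / 2 * s) ≤ (s - s0) * (s + s0) := by
    apply mul_le_mul (by linarith) (by linarith) (by positivity) (by linarith)
  have h6 : 0 < w * s := mul_pos hw0 hs
  have h4 : 4 / 5 * (w * (3 / 2 * s)) ≤ x * ((s - s0) * (s + s0)) := by
    apply mul_le_mul hx' h3 (by positivity) (by linarith)
  have h7 : 4 / 5 * (w * (3 / 2 * s)) = 6 / 5 * (w * s) := by ring
  have h8 : x * ((s - s0) * (s + s0)) = x * (s ^ 2 - s0 ^ 2) := by ring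
  rw [h7, h8] at h4
  linarith

theorem osc_far (β τ y x r : ℝ) (hβ : β ≤ -(1 / 2)) (hy : 0 < y) (hxy : x ^ 2 + y ^ 2 = 1) :
    ∃ R0 : ℝ, ∀ R, R0 ≤ R →
      ‖∫ s in (1 : ℝ)..R, oA β τ y s * Complex.exp (I * (oφ x r s : ℂ))‖ ≤ 50 * (1 + |τ|) := by
  have hT : 1 ≤ 1 + |τ| := by linarith [abs_nonneg τ]
  set T := 1 + |τ| with hTdef
  have one_b : (1 : ℝ) ^ β = 1 := Real.one_rpow β
  have small : ∀ a : ℝ, 1 ≤ a → a ^ β ≤ 1 := fun a ha =>
    Real.rpow_le_one_of_one_le_of_nonpos ha (by linarith)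
  by_cases hy2 : 1 / 2 ≤ y
  · refine ⟨1, fun R hR => ?_⟩
    have hb : ∀ s ∈ Set.uIcc 1 R, HasDerivAt (fun s : ℝ => -2 * Real.exp (-(1 / 2 * s)))
        (Real.exp (-(1 / 2 * s))) s := by
      intro s _
      have h2 : HasDerivAt (fun s : ℝ => Real.exp (-(1 / 2 * s)))
          (Real.exp (-(1 / 2 * s)) * (-(1 / 2 * 1))) s :=
        (((hasDerivAt_id s).const_mul (1 / 2 : ℝ)).neg).exp
      have h3 := h2.const_mul (-2)
      have e : -2 * (Real.exp (-(1 / 2 * s)) * (-(1 / 2 * 1))) = Real.exp (-(1 / 2 * s)) := by ring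
      rw [e] at h3
      exact h3
    have hc : ContinuousOn (fun s : ℝ => Real.exp (-(1 / 2 * s))) (Set.uIcc 1 R) := by fun_prop
    have hint := intervalIntegral.integral_eq_sub_of_hasDerivAt hb hc.intervalIntegrable
    have h := intervalIntegral.norm_integral_le_of_norm_le hR
      (f := fun s => oA β τ y s * Complex.exp (I * (oφ x r s : ℂ))) (μ := volume)
      (g := fun s : ℝ => Real.exp (-(1 / 2 * s))) (by
        refine Filter.Eventually.of_forall fun s hs => ?_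
        have hs0 : 0 < s := lt_trans one_pos hs.1
        rw [norm_mul, oA_n β τ y s hs0, mul_comm I, Complex.norm_exp_ofReal_mul_I, mul_one]
        have h1 : s ^ β ≤ 1 := small s hs.1.le
        have h2 : Real.exp (-(y * s)) ≤ Real.exp (-(1 / 2 * s)) := by
          apply Real.exp_le_exp.mpr
          have := mul_le_mul_of_nonneg_right hy2 hs0.le
          linarith
        calc s ^ β * Real.exp (-(y * s)) ≤ 1 * Real.exp (-(1 / 2 * s)) :=
              mul_le_mul h1 h2 (Real.exp_pos _).le one_pos.le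
          _ = _ := one_mul _) hc.intervalIntegrable
    rw [hint] at h
    refine h.trans ?_
    have p1 : Real.exp (-(1 / 2 * 1)) ≤ 1 := by rw [Real.exp_le_one_iff]; norm_num
    have p2 := Real.exp_pos (-(1 / 2 * R))
    linarith
  · push Not at hy2
    rcases le_total x 0 with hx | hx
    · have hx' : x ≤ -(4 / 5) := by nlinarith
      refine ⟨1, fun R hR => ?_⟩
      have h := osc_piece β τ y x r 1 R (4 / 5) hβ hy one_pos hR (by norm_num) (Or.inr (by
        intro s hs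
        have : 0 ≤ r ^ 2 / (4 * s ^ 2) := by positivity
        unfold oφ1
        linarith))
      rw [one_b] at h
      refine h.trans ?_
      rw [div_le_iff₀ (by norm_num)]
      nlinarith
    · have hx' : 4 / 5 ≤ x := by nlinarith
      have hx1 : x ≤ 1 := by nlinarith
      have hx0 : 0 < x := by linarith
      obtain ⟨s0, hs0, hr⟩ : ∃ s0 : ℝ, 0 ≤ s0 ∧ r ^ 2 = 4 * x * s0 ^ 2 := by
        refine ⟨Real.sqrt (r ^ 2 / (4 * x)), Real.sqrt_nonneg _, ?_⟩
        rw [Real.sq_sqrt (by positivity)]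
        field_simp
      -- region V
      have regV : ∀ a b : ℝ, 1 ≤ a → 2 * s0 ≤ a → a ≤ b →
          ‖∫ s in a..b, oA β τ y s * Complex.exp (I * (oφ x r s : ℂ))‖ ≤ 10 * T := by
        intro a b ha1 ha hab
        have h := osc_piece β τ y x r a b (1 / 2) hβ hy (by linarith) hab (by norm_num) (Or.inl (by
          intro s hs
          apply oφ1_ge x r s s0 _ (by linarith [hs.1]) hr
          have h1 : 2 * s0 ≤ s := ha.trans hs.1
          have h2 : 4 * s0 ^ 2 ≤ s ^ 2 := by nlinarith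
          have h3 : 0 ≤ (x - 4 / 5) * (s ^ 2 - s0 ^ 2) := mul_nonneg (by linarith) (by nlinarith)
          nlinarith [sq_nonneg s]))
        refine h.trans ?_
        rw [div_le_iff₀ (by norm_num)]
        have := small a ha1
        have h0 : 0 ≤ T := by linarith
        nlinarith
      rcases lt_or_ge s0 4 with hs4 | hs4
      · refine ⟨8, fun R hR => ?_⟩
        have h1 := osc_triv β τ y x r 1 8 hβ hy one_pos (by norm_num)
        rw [one_b] at h1
        have h2 := regV 8 R (by norm_num) (by linarith) hR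
        have h3 := osc_add β τ y x r 1 8 R _ _ one_pos (by norm_num) hR h1 h2
        refine h3.trans ?_
        linarith
      · obtain ⟨w, hw2, hws⟩ : ∃ w : ℝ, 2 ≤ w ∧ w ^ 2 = s0 := by
          refine ⟨Real.sqrt s0, ?_, Real.sq_sqrt hs0⟩
          rw [Real.le_sqrt (by norm_num) hs0]
          linarith
        have hw0 : 0 < w := by linarith
        have hww : w * 2 ≤ s0 := by rw [← hws]; nlinarith
        have hK : w * (s0 / 2) ^ β ≤ 2 := by rw [← hws]; exact w_bound β w hβ hw2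
        have hcmp : ∀ a : ℝ, s0 / 2 ≤ a → a ^ β ≤ (s0 / 2) ^ β := fun a ha =>
          Real.rpow_le_rpow_of_nonpos (by linarith) ha (by linarith)
        have hKpos : 0 < (s0 / 2) ^ β := Real.rpow_pos_of_pos (by linarith) _
        refine ⟨2 * s0, fun R hR => ?_⟩
        have g1 : ‖∫ s in (1 : ℝ)..(s0 / 2), oA β τ y s * Complex.exp (I * (oφ x r s : ℂ))‖ ≤ 5 * T := by
          have h := osc_piece β τ y x r 1 (s0 / 2) 1 hβ hy one_pos (by linarith) one_pos (Or.inr (by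
            intro s hs
            apply oφ1_le x r s s0 _ (by linarith [hs.1]) hr
            have h1 : s ≤ s0 / 2 := hs.2
            have h1' : 1 ≤ s := hs.1
            have h2 : 4 * s ^ 2 ≤ s0 ^ 2 := by nlinarith
            have h3 : 0 ≤ (x - 4 / 5) * (s0 ^ 2 - s ^ 2) := mul_nonneg (by linarith) (by nlinarith)
            nlinarith [sq_nonneg s]))
          rw [one_b] at h
          refine h.trans ?_
          rw [div_one, mul_one]
        have g2 : ‖∫ s in (s0 / 2)..(s0 - w), oA β τ y s * Complex.exp (I * (oφ x r s : ℂ))‖ ≤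
            10 * T := by
          have h := osc_piece β τ y x r (s0 / 2) (s0 - w) (1 / w) hβ hy (by linarith) (by linarith)
            (by positivity) (Or.inr (fun s hs => oφ1_le x r s s0 _
              (lt_of_lt_of_le (by linarith) hs.1) hr (regII x s0 w s hx' hw0 hws hs.2 hs.1)))
          refine h.trans ?_
          rw [div_div_eq_mul_div, div_one]
          calc 5 * (s0 / 2) ^ β * T * w = 5 * T * (w * (s0 / 2) ^ β) := by ring
            _ ≤ 5 * T * 2 := mul_le_mul_of_nonneg_left hK (by linarith)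
            _ = 10 * T := by ring
        have g3 : ‖∫ s in (s0 - w)..(s0 + w), oA β τ y s * Complex.exp (I * (oφ x r s : ℂ))‖ ≤ 4 := by
          have h := osc_triv β τ y x r (s0 - w) (s0 + w) hβ hy (by linarith) (by linarith)
          refine h.trans ?_
          have := hcmp (s0 - w) (by linarith)
          have e : s0 + w - (s0 - w) = 2 * w := by ring
          rw [e]
          calc (s0 - w) ^ β * (2 * w) ≤ (s0 / 2) ^ β * (2 * w) :=
                mul_le_mul_of_nonneg_right this (by linarith)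
            _ = 2 * (w * (s0 / 2) ^ β) := by ring
            _ ≤ 4 := by linarith
        have g4 : ‖∫ s in (s0 + w)..(2 * s0), oA β τ y s * Complex.exp (I * (oφ x r s : ℂ))‖ ≤
            20 * T := by
          have h := osc_piece β τ y x r (s0 + w) (2 * s0) (1 / (2 * w)) hβ hy (by linarith)
            (by linarith) (by positivity) (Or.inl (fun s hs => oφ1_ge x r s s0 _
              (lt_of_lt_of_le (by linarith) hs.1) hr (regIV x s0 w s hx' hw0 hws hs.2 hs.1)))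
          refine h.trans ?_
          rw [div_div_eq_mul_div, div_one]
          have := hcmp (s0 + w) (by linarith)
          calc 5 * (s0 + w) ^ β * T * (2 * w) = 10 * T * (w * (s0 + w) ^ β) := by ring
            _ ≤ 10 * T * (w * (s0 / 2) ^ β) := by gcongr
            _ ≤ 10 * T * 2 := mul_le_mul_of_nonneg_left hK (by linarith)
            _ = 20 * T := by ring
        have g5 := regV (2 * s0) R (by linarith) le_rfl hR
        have k1 := osc_add β τ y x r 1 (s0 / 2) (s0 - w) _ _ one_pos (by linarith) (by linarith) g1 g2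
        have k2 := osc_add β τ y x r 1 (s0 - w) (s0 + w) _ _ one_pos (by linarith) (by linarith) k1 g3
        have k3 := osc_add β τ y x r 1 (s0 + w) (2 * s0) _ _ one_pos (by linarith) (by linarith) k2 g4
        have k4 := osc_add β τ y x r 1 (2 * s0) R _ _ one_pos (by linarith) hR k3 g5
        refine k4.trans ?_
        linarith

theorem osc_eq (β τ : ℝ) (z : ℂ) (r s : ℝ) :
    (s : ℂ) ^ ((β : ℂ) + (τ : ℂ) * I) * Complex.exp (I * z * (s : ℂ)) *
        Complex.exp (I * ((r ^ 2 / (4 * s) : ℝ) : ℂ)) =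
      oA β τ z.im s * Complex.exp (I * (oφ z.re r s : ℂ)) := by
  unfold oA oφ
  have h1 : I * z * (s : ℂ) + I * ((r ^ 2 / (4 * s) : ℝ) : ℂ) =
      -(z.im : ℂ) * (s : ℂ) + I * ((z.re * s + r ^ 2 / (4 * s) : ℝ) : ℂ) := by
    conv_lhs => rw [← Complex.re_add_im z]
    push_cast
    linear_combination ((z.im : ℂ) * (s : ℂ)) * Complex.I_sq
  rw [mul_assoc ((s : ℂ) ^ ((β : ℂ) + (τ : ℂ) * I)), mul_assoc ((s : ℂ) ^ ((β : ℂ) + (τ : ℂ) * I)),
    ← Complex.exp_add, ← Complex.exp_add, h1]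

theorem osc_int (β τ y x r : ℝ) (hβ : -1 < β) (hy : 0 < y) :
    IntegrableOn (fun s => oA β τ y s * Complex.exp (I * (oφ x r s : ℂ))) (Set.Ioi (0:ℝ)) := by
  have h1 := integrableOn_rpow_mul_exp_neg_mul_rpow (p := 1) (s := β) (b := y) hβ one_pos hy
  refine Integrable.mono' h1 ?_ ?_
  · apply ContinuousOn.aestronglyMeasurable _ measurableSet_Ioi
    intro s hs
    have hs0 : (0:ℝ) < s := hs
    have := osc_cont β τ y x r (s / 2) (s + 1) (by linarith)
    exact (this.continuousAt (Icc_mem_nhds (by linarith) (by linarith))).continuousWithinAt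
  · refine (ae_restrict_iff' measurableSet_Ioi).mpr (Filter.Eventually.of_forall fun s hs => ?_)
    have hs0 : (0:ℝ) < s := hs
    rw [norm_mul, oA_n β τ y s hs0, mul_comm I, Complex.norm_exp_ofReal_mul_I, mul_one,
      Real.rpow_one, neg_mul]

theorem osc_one (β : ℝ) (hβ : -1 < β) (hβ' : β ≤ -(1 / 2)) :
    ∃ C : ℝ, 0 < C ∧ ∀ (τ : ℝ) (z : ℂ) (r : ℝ), 0 < z.im → ‖z‖ = 1 → 0 ≤ r →
      ‖∫ s in Set.Ioi (0 : ℝ), (s : ℂ) ^ ((β : ℂ) + (τ : ℂ) * I) * Complex.exp (I * z * (s : ℂ)) *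
        Complex.exp (I * ((r ^ 2 / (4 * s) : ℝ) : ℂ))‖ ≤ C * (1 + |τ|) := by
  have hβ1 : 0 < β + 1 := by linarith
  refine ⟨1 / (β + 1) + 50, by positivity, ?_⟩
  intro τ z r hy hz hr
  simp only [osc_eq]
  have hxy : z.re ^ 2 + z.im ^ 2 = 1 := by
    have := Complex.sq_norm z
    rw [hz, Complex.normSq_apply] at this
    linarith
  have hI := osc_int β τ z.im z.re r hβ hy
  have hI1 : IntegrableOn (fun s => oA β τ z.im s * Complex.exp (I * (oφ z.re r s : ℂ)))
      (Set.Ioi (1:ℝ)) := hI.mono_set (Set.Ioi_subset_Ioi zero_le_one)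
  rw [← intervalIntegral.integral_interval_add_Ioi hI hI1]
  have hT : 1 ≤ 1 + |τ| := by linarith [abs_nonneg τ]
  -- first part
  have h1 : ‖∫ s in (0:ℝ)..1, oA β τ z.im s * Complex.exp (I * (oφ z.re r s : ℂ))‖ ≤ 1 / (β + 1) := by
    have h := intervalIntegral.norm_integral_le_of_norm_le (zero_le_one (α := ℝ))
      (f := fun s => oA β τ z.im s * Complex.exp (I * (oφ z.re r s : ℂ))) (μ := volume)
      (g := fun s : ℝ => s ^ β) (by
        refine Filter.Eventually.of_forall fun s hs => ?_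
        have hs0 : 0 < s := hs.1
        rw [norm_mul, oA_n β τ z.im s hs0, mul_comm I, Complex.norm_exp_ofReal_mul_I, mul_one]
        have h2 : Real.exp (-(z.im * s)) ≤ 1 := by
          rw [Real.exp_le_one_iff]; nlinarith [mul_pos hy hs0]
        have h3 : 0 < s ^ β := Real.rpow_pos_of_pos hs0 _
        nlinarith) (intervalIntegral.intervalIntegrable_rpow' hβ)
    rw [integral_rpow (Or.inl hβ)] at h
    rw [Real.one_rpow, Real.zero_rpow hβ1.ne', sub_zero] at h
    exact h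
  -- second part
  have h2 : ‖∫ s in Set.Ioi (1:ℝ), oA β τ z.im s * Complex.exp (I * (oφ z.re r s : ℂ))‖ ≤
      50 * (1 + |τ|) := by
    have ht := (intervalIntegral_tendsto_integral_Ioi (1:ℝ) hI1 tendsto_id).norm
    obtain ⟨R0, hR0⟩ := osc_far β τ z.im z.re r hβ' hy hxy
    refine le_of_tendsto ht ?_
    filter_upwards [eventually_ge_atTop R0] with R hR
    exact hR0 R hR
  refine (norm_add_le _ _).trans ?_
  have h3 : 1 / (β + 1) ≤ 1 / (β + 1) * (1 + |τ|) := by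
    have : 0 < 1 / (β + 1) := by positivity
    nlinarith
  linarith

end

end Pool.Agent.Helper41.KR
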