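import Pool.Agent.Helper41.KR.Defs
import Pool.Agent.Helper41.KR.K00

open MeasureTheory Filter Topology ENNReal Complex
open scoped Laplacian FourierTransform InnerProductSpace

namespace Pool.Agent.Helper41.KR

noncomputable section

theorem sym_meas {d : ℕ} (z : ℂ) : Measurable (sym (d := d) z) := by
  unfold sym
  fun_prop

theorem sym_bdd (z : ℂ) (hz : 0 < z.im ∨ z.im < 0 ∨ z.re < 0) :
    ∃ C : ℝ, 0 < C ∧ ∀ (d : ℕ) (ξ : EE d), ‖sym z ξ‖ ≤ C := by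
  have h1 : z.im ≠ 0 ∨ z.re < 0 := by
    rcases hz with h | h | h
    · exact Or.inl h.ne'
    · exact Or.inl h.ne
    · exact Or.inr h
  rcases h1 with h | h
  · refine ⟨|z.im|⁻¹, inv_pos.2 (abs_pos.2 h), fun d ξ => ?_⟩
    unfold sym
    rw [norm_inv]
    apply inv_anti₀ (abs_pos.2 h)
    have h2 := Complex.abs_im_le_norm ((((4 * Real.pi ^ 2 * ‖ξ‖ ^ 2 : ℝ) : ℂ)) - z)
    rw [Complex.sub_im, Complex.ofReal_im, zero_sub, abs_neg] at h2
    exact h2
  · refine ⟨(-z.re)⁻¹, inv_pos.2 (by linarith), fun d ξ => ?_⟩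
    unfold sym
    rw [norm_inv]
    apply inv_anti₀ (by linarith)
    have h2 := Complex.abs_re_le_norm ((((4 * Real.pi ^ 2 * ‖ξ‖ ^ 2 : ℝ) : ℂ)) - z)
    rw [Complex.sub_re, Complex.ofReal_re] at h2
    have h3 : 0 ≤ 4 * Real.pi ^ 2 * ‖ξ‖ ^ 2 := by positivity
    have h4 := le_abs_self (4 * Real.pi ^ 2 * ‖ξ‖ ^ 2 - z.re)
    linarith

theorem Rz_apply {d : ℕ} (z : ℂ) (f : HH d) : Rz d z f = 𝓕⁻ (mulOp (sym z) (𝓕 f)) := by
  rfl

theorem Rz_inner {d : ℕ} (z : ℂ) (hz : 0 < z.im ∨ z.im < 0 ∨ z.re < 0) (f g : HH d) :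
    ⟪g, Rz d z f⟫_ℂ =
      ∫ ξ : EE d, (starRingEnd ℂ) ((𝓕 g : HH d) ξ) * (𝓕 f : HH d) ξ * sym z ξ := by
  obtain ⟨C, hC0, hC⟩ := sym_bdd z hz
  have hu : ⟪g, Rz d z f⟫_ℂ = ⟪(𝓕 g : HH d), mulOp (sym z) (𝓕 f : HH d)⟫_ℂ := by
    rw [Rz_apply, ← Lp.inner_fourier_eq g, FourierInvPair.fourier_fourierInv_eq]
  rw [hu, L2.inner_def]
  apply integral_congr_ae
  filter_upwards [mulOp_ae (sym z) (sym_meas z) C (hC d) (𝓕 f)] with ξ hξ
  rw [hξ, RCLike.inner_apply]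
  ring

theorem Rz_conj {d : ℕ} (z : ℂ) (hz : 0 < z.im ∨ z.im < 0 ∨ z.re < 0) (f g : HH d) :
    (starRingEnd ℂ) ⟪g, Rz d z f⟫_ℂ = ⟪f, Rz d ((starRingEnd ℂ) z) g⟫_ℂ := by
  have hz' : 0 < ((starRingEnd ℂ) z).im ∨ ((starRingEnd ℂ) z).im < 0 ∨
      ((starRingEnd ℂ) z).re < 0 := by
    rw [Complex.conj_im, Complex.conj_re]
    rcases hz with h | h | h
    · exact Or.inr (Or.inl (by linarith))
    · exact Or.inl (by linarith)
    · exact Or.inr (Or.inr h)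
  rw [Rz_inner z hz, Rz_inner _ hz', ← integral_conj]
  congr 1
  funext ξ
  rw [map_mul, map_mul, Complex.conj_conj]
  have hs : (starRingEnd ℂ) (sym z ξ) = sym ((starRingEnd ℂ) z) ξ := by
    unfold sym
    rw [map_inv₀, map_sub, Complex.conj_ofReal]
  rw [hs]
  ring

theorem Rz_integrable {d : ℕ} (f g : HH d) :
    Integrable (fun ξ : EE d => (starRingEnd ℂ) ((𝓕 g : HH d) ξ) * (𝓕 f : HH d) ξ) := by
  have h := L2.integrable_inner (𝕜 := ℂ) (𝓕 g : HH d) (𝓕 f : HH d)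
  refine h.congr (Filter.Eventually.of_forall fun ξ => ?_)
  simp only [RCLike.inner_apply]
  ring

theorem Rz_tendsto {d : ℕ} (f g : HH d) :
    Tendsto (fun t : ℝ => ⟪g, Rz d (⟨-Real.cos t, Real.sin t⟩ : ℂ) f⟫_ℂ) (𝓝[>] 0)
      (𝓝 ⟪g, Rz d (-1) f⟫_ℂ) := by
  have hZ0 : (⟨-Real.cos 0, Real.sin 0⟩ : ℂ) = -1 := by
    apply Complex.ext <;> simp
  have hZc : Continuous fun t : ℝ => (⟨-Real.cos t, Real.sin t⟩ : ℂ) := by
    have h : (fun t : ℝ => (⟨-Real.cos t, Real.sin t⟩ : ℂ)) =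
        fun t : ℝ => ((-Real.cos t : ℝ) : ℂ) + ((Real.sin t : ℝ) : ℂ) * I := by
      funext t
      apply Complex.ext
      · rw [Complex.add_re, Complex.ofReal_re, Complex.re_ofReal_mul, Complex.I_re, mul_zero,
          add_zero]
      · rw [Complex.add_im, Complex.ofReal_im, Complex.im_ofReal_mul, Complex.I_im, mul_one,
          zero_add]
    rw [h]
    fun_prop
  have hev : ∀ᶠ t : ℝ in 𝓝[>] 0, 1 / 2 < Real.cos t := by
    have h1 : Tendsto Real.cos (𝓝[>] 0) (𝓝 1) := by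
      have h2 := Real.continuous_cos.tendsto 0
      rw [Real.cos_zero] at h2
      exact h2.mono_left nhdsWithin_le_nhds
    exact h1.eventually (lt_mem_nhds (by norm_num))
  have hI : Tendsto (fun t : ℝ => ∫ ξ : EE d, (starRingEnd ℂ) ((𝓕 g : HH d) ξ) * (𝓕 f : HH d) ξ *
      sym (⟨-Real.cos t, Real.sin t⟩ : ℂ) ξ) (𝓝[>] 0)
      (𝓝 (∫ ξ : EE d, (starRingEnd ℂ) ((𝓕 g : HH d) ξ) * (𝓕 f : HH d) ξ * sym (-1) ξ)) := by
    apply tendsto_integral_filter_of_dominated_convergence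
      (fun ξ => ‖(starRingEnd ℂ) ((𝓕 g : HH d) ξ) * (𝓕 f : HH d) ξ‖ * 2)
    · exact Filter.Eventually.of_forall fun t =>
        (Rz_integrable f g).aestronglyMeasurable.mul (sym_meas _).aestronglyMeasurable
    · filter_upwards [hev] with t ht
      refine Filter.Eventually.of_forall fun ξ => ?_
      rw [norm_mul]
      apply mul_le_mul_of_nonneg_left _ (norm_nonneg _)
      unfold sym
      rw [norm_inv]
      have h2 := Complex.abs_re_le_norm ((((4 * Real.pi ^ 2 * ‖ξ‖ ^ 2 : ℝ) : ℂ)) -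
        (⟨-Real.cos t, Real.sin t⟩ : ℂ))
      rw [Complex.sub_re, Complex.ofReal_re] at h2
      have h3 : 0 ≤ 4 * Real.pi ^ 2 * ‖ξ‖ ^ 2 := by positivity
      have h4 := le_abs_self (4 * Real.pi ^ 2 * ‖ξ‖ ^ 2 - (⟨-Real.cos t, Real.sin t⟩ : ℂ).re)
      simp only at h2 h4
      have h5 : (1 / 2 : ℝ) ≤ ‖(((4 * Real.pi ^ 2 * ‖ξ‖ ^ 2 : ℝ) : ℂ)) -
        (⟨-Real.cos t, Real.sin t⟩ : ℂ)‖ := by linarith
      have h6 := inv_anti₀ (by norm_num : (0 : ℝ) < 1 / 2) h5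
      have h7 : ((1 : ℝ) / 2)⁻¹ = 2 := by norm_num
      rw [h7] at h6
      exact h6
    · exact (Rz_integrable f g).norm.mul_const 2
    · refine Filter.Eventually.of_forall fun ξ => ?_
      apply Filter.Tendsto.const_mul
      unfold sym
      have h1 : Tendsto (fun t : ℝ => (⟨-Real.cos t, Real.sin t⟩ : ℂ)) (𝓝[>] 0) (𝓝 (-1)) := by
        have h2 := hZc.tendsto 0
        rw [hZ0] at h2
        exact h2.mono_left nhdsWithin_le_nhds
      apply Tendsto.inv₀ (h1.const_sub _)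
      intro h0
      have h2 := congrArg Complex.re h0
      have h3 : 0 ≤ 4 * Real.pi ^ 2 * ‖ξ‖ ^ 2 := by positivity
      rw [Complex.sub_re, Complex.ofReal_re] at h2
      simp at h2
      nlinarith
  rw [Rz_inner (-1) (Or.inr (Or.inr (by simp)))]
  refine hI.congr' ?_
  filter_upwards [hev] with t ht
  rw [Rz_inner _ (Or.inr (Or.inr (by simp only; linarith)))]

theorem ext_z {d : ℕ} (f g : HH d) (K : ℝ)
    (h : ∀ z : ℂ, 0 < z.im → ‖z‖ = 1 → ‖⟪g, Rz d z f⟫_ℂ‖ ≤ K ∧ ‖⟪f, Rz d z g⟫_ℂ‖ ≤ K) (z : ℂ)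
    (hz : ‖z‖ = 1) (hz1 : z ≠ 1) : ‖⟪g, Rz d z f⟫_ℂ‖ ≤ K := by
  rcases lt_trichotomy z.im 0 with him | him | him
  · have h1 := Rz_conj z (Or.inr (Or.inl him)) f g
    have h2 : ‖⟪g, Rz d z f⟫_ℂ‖ = ‖⟪f, Rz d ((starRingEnd ℂ) z) g⟫_ℂ‖ := by
      rw [← h1]
      exact (Complex.norm_conj _).symm
    rw [h2]
    exact (h _ (by rw [Complex.conj_im]; linarith) (by rw [Complex.norm_conj]; exact hz)).2
  · have hsq : z.re * z.re = 1 := by
      have h1 := Complex.sq_norm z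
      rw [hz, Complex.normSq_apply, him] at h1
      nlinarith
    have hre : z.re = -1 := by
      have h1 : (z.re - 1) * (z.re + 1) = 0 := by nlinarith
      rcases mul_eq_zero.1 h1 with h2 | h2
      · exfalso
        apply hz1
        apply Complex.ext
        · rw [Complex.one_re]
          linarith
        · rw [Complex.one_im]
          exact him
      · linarith
    have hzm : z = -1 := by
      apply Complex.ext
      · rw [hre]
        simp
      · rw [him]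
        simp
    rw [hzm]
    refine le_of_tendsto (Rz_tendsto f g).norm ?_
    have hev : ∀ᶠ t : ℝ in 𝓝[>] 0, t < Real.pi :=
      (gt_mem_nhds Real.pi_pos).filter_mono nhdsWithin_le_nhds
    filter_upwards [hev, self_mem_nhdsWithin] with t ht ht0
    refine (h _ (Real.sin_pos_of_pos_of_lt_pi ht0 ht) ?_).1
    have h1 : ‖(⟨-Real.cos t, Real.sin t⟩ : ℂ)‖ ^ 2 = 1 := by
      rw [Complex.sq_norm, Complex.normSq_apply]
      have := Real.sin_sq_add_cos_sq t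
      simp only
      nlinarith
    have h2 := norm_nonneg (⟨-Real.cos t, Real.sin t⟩ : ℂ)
    nlinarith
  · exact (h z him hz).1

end

end Pool.Agent.Helper41.KR
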