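import Pool.Agent.Helper41.KR.Defs
import Pool.Agent.Helper41.KR.K00
import Pool.Agent.Helper41.KR.K06

open MeasureTheory Filter Topology ENNReal Complex
open scoped Laplacian FourierTransform InnerProductSpace

namespace Pool.Agent.Helper41.KR

noncomputable section

theorem st_Gamma (w : ℂ) (hw : 0 < w.re) : ‖Complex.Gamma w‖ ≤ Real.Gamma w.re := by
  rw [Complex.Gamma_eq_integral hw, Real.Gamma_eq_integral hw, Complex.GammaIntegral]
  refine (norm_integral_le_integral_norm _).trans (le_of_eq ?_)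
  refine setIntegral_congr_fun measurableSet_Ioi fun x hx => ?_
  have hx' : (0 : ℝ) < x := hx
  simp only [norm_mul]
  rw [Complex.norm_cpow_eq_rpow_re_of_pos hx', Complex.norm_real, Real.norm_of_nonneg (Real.exp_pos _).le]
  simp

theorem st_pt {α : Type*} {n : ℕ} (T : Fin n → Set α) (hT : ∀ i j, i ≠ j → Disjoint (T i) (T j)) (x : α) :
    (∃ k, x ∈ T k ∧ (∀ φ : Fin n → ℂ, ∑ j, (T j).indicator (fun _ => φ j) x = φ k) ∧
      ∀ φ : Fin n → ℝ, ∑ j, (T j).indicator (fun _ => φ j) x = φ k) ∨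
    ((∀ φ : Fin n → ℂ, ∑ j, (T j).indicator (fun _ => φ j) x = 0) ∧
      ∀ φ : Fin n → ℝ, ∑ j, (T j).indicator (fun _ => φ j) x = 0) := by
  by_cases h : ∃ k, x ∈ T k
  · obtain ⟨k, hk⟩ := h
    have hne : ∀ j, j ≠ k → x ∉ T j := fun j hj hx => (Set.disjoint_left.1 (hT j k hj)) hx hk
    left
    refine ⟨k, hk, fun φ => ?_, fun φ => ?_⟩
    · rw [Finset.sum_eq_single k]
      · exact Set.indicator_of_mem hk _
      · intro j _ hj; exact Set.indicator_of_notMem (hne j hj) _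
      · intro h; exact absurd (Finset.mem_univ k) h
    · rw [Finset.sum_eq_single k]
      · exact Set.indicator_of_mem hk _
      · intro j _ hj; exact Set.indicator_of_notMem (hne j hj) _
      · intro h; exact absurd (Finset.mem_univ k) h
  · right
    push Not at h
    exact ⟨fun φ => Finset.sum_eq_zero fun j _ => Set.indicator_of_notMem (h j) _,
      fun φ => Finset.sum_eq_zero fun j _ => Set.indicator_of_notMem (h j) _⟩

theorem st_sum_ae {d n : ℕ} (T : Fin n → Set (EE d)) (hT : ∀ j, MeasurableSet (T j)) (c : Fin n → ℂ) (f : HH d) :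
    ((∑ j, c j • proj (T j) f : HH d) : EE d → ℂ) =ᵐ[volume]
      fun x => (∑ j, (T j).indicator (fun _ => c j) x) * (f : EE d → ℂ) x := by
  classical
  have key : ∀ s : Finset (Fin n), ((∑ j ∈ s, c j • proj (T j) f : HH d) : EE d → ℂ) =ᵐ[volume]
      fun x => (∑ j ∈ s, (T j).indicator (fun _ => c j) x) * (f : EE d → ℂ) x := by
    intro s
    induction s using Finset.induction_on with
    | empty =>
      simp only [Finset.sum_empty, zero_mul]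
      exact Lp.coeFn_zero _ _ _
    | insert j s hj ih =>
      rw [Finset.sum_insert hj]
      filter_upwards [ih, Lp.coeFn_add (c j • proj (T j) f) (∑ j ∈ s, c j • proj (T j) f),
        Lp.coeFn_smul (c j) (proj (T j) f), proj_ae (T j) (hT j) f] with x h1 h2 h3 h4
      rw [h2, Pi.add_apply, h3, Pi.smul_apply, h4, h1, Finset.sum_insert hj, add_mul]
      congr 1
      by_cases hx : x ∈ T j
      · simp [Set.indicator_of_mem hx]
      · simp [Set.indicator_of_notMem hx]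
  exact key Finset.univ

theorem st_normle {d n : ℕ} (T : Fin n → Set (EE d)) (hT : ∀ j, MeasurableSet (T j))
    (hd : ∀ i j, i ≠ j → Disjoint (T i) (T j)) (c : Fin n → ℂ) (hc : ∀ j, ‖c j‖ ≤ 1) (f : HH d) :
    ‖(∑ j, c j • proj (T j) f : HH d)‖ ≤ ‖f‖ := by
  refine Lp.norm_le_norm_of_ae_le ?_
  filter_upwards [st_sum_ae T hT c f] with x hx
  rw [hx, norm_mul]
  rcases st_pt T hd x with ⟨k, _, h1, _⟩ | ⟨h1, _⟩
  · rw [h1 c]
    exact mul_le_of_le_one_left (norm_nonneg _) (hc k)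
  · rw [h1 c]
    simp

theorem st_supp {d n : ℕ} (T : Fin n → Set (EE d)) (hT : ∀ j, MeasurableSet (T j))
    (hb : ∀ j, Bornology.IsBounded (T j)) (c : Fin n → ℂ) (f : HH d) :
    ∃ L : ℝ, ∀ L' ≥ L, ∀ᵐ x : EE d, L' < ‖x‖ → ((∑ j, c j • proj (T j) f : HH d) : EE d → ℂ) x = 0 := by
  have h1 : ∀ j, ∃ r : ℝ, T j ⊆ Metric.closedBall 0 r := fun j => (hb j).subset_closedBall 0
  choose r hr using h1
  refine ⟨∑ j, |r j|, fun L' hL' => ?_⟩
  filter_upwards [st_sum_ae T hT c f] with x hx hl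
  rw [hx]
  rw [Finset.sum_eq_zero, zero_mul]
  intro j _
  refine Set.indicator_of_notMem (fun hxj => ?_) _
  have h2 := hr j hxj
  rw [mem_closedBall_zero_iff] at h2
  have h3 : |r j| ≤ ∑ j, |r j| := Finset.single_le_sum (f := fun j => |r j|) (fun _ _ => abs_nonneg _) (Finset.mem_univ j)
  have h4 := le_abs_self (r j)
  linarith

theorem st_L1 {d n : ℕ} (T : Fin n → Set (EE d)) (hT : ∀ j, MeasurableSet (T j))
    (hb : ∀ j, Bornology.IsBounded (T j))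
    (hd : ∀ i j, i ≠ j → Disjoint (T i) (T j)) (c : Fin n → ℂ) (f : HH d) :
    ∫ x, ‖((∑ j, c j • proj (T j) f : HH d) : EE d → ℂ) x‖ ≤
      (∑ j, ‖c j‖ ^ 2 * (volume (T j)).toReal) ^ (1 / 2 : ℝ) * ‖f‖ := by
  have hfin : ∀ j, volume (T j) ≠ ⊤ := fun j => (hb j).measure_lt_top.ne
  have h1 : ∫ x, ‖((∑ j, c j • proj (T j) f : HH d) : EE d → ℂ) x‖ =
      ∫ x, ‖∑ j, (T j).indicator (fun _ => c j) x‖ * ‖(f : EE d → ℂ) x‖ := by
    refine integral_congr_ae ?_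
    filter_upwards [st_sum_ae T hT c f] with x hx
    rw [hx, norm_mul]
  rw [h1]
  have h22 : (2 : ℝ).HolderConjugate 2 := by
    rw [Real.holderConjugate_iff]; norm_num
  have hm : MemLp (fun x => ∑ j, (T j).indicator (fun _ => c j) x) 2 (volume : Measure (EE d)) := by
    refine memLp_finset_sum _ fun j _ => ?_
    exact memLp_indicator_const 2 (hT j) (c j) (Or.inr (hfin j))
  have h2 := integral_mul_norm_le_Lp_mul_Lq (μ := (volume : Measure (EE d))) h22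
    (f := fun x => ∑ j, (T j).indicator (fun _ => c j) x) (g := (f : EE d → ℂ))
    (by simpa using hm) (by simpa using Lp.memLp f)
  refine h2.trans (le_of_eq ?_)
  congr 1
  · congr 1
    have h3 : ∀ x, ‖∑ j, (T j).indicator (fun _ => c j) x‖ ^ (2 : ℝ) = ∑ j, (T j).indicator (fun _ => ‖c j‖ ^ 2) x := by
      intro x
      rcases st_pt T hd x with ⟨k, _, h1, h1'⟩ | ⟨h1, h1'⟩
      · rw [h1 c, h1' (fun j => ‖c j‖ ^ 2)]
        norm_num
      · rw [h1 c, h1' (fun j => ‖c j‖ ^ 2)]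
        norm_num
    simp_rw [h3]
    rw [integral_finset_sum]
    · refine Finset.sum_congr rfl fun j _ => ?_
      rw [integral_indicator_const _ (hT j)]
      rw [smul_eq_mul, mul_comm]
      rfl
    · intro j _
      exact (integrable_indicator_iff (hT j)).2 (integrableOn_const (hfin j))
  · rw [Lp.norm_def, MemLp.eLpNorm_eq_integral_rpow_norm (by norm_num) (by norm_num) (Lp.memLp f)]
    rw [ENNReal.toReal_ofReal (by positivity)]
    simp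

theorem st_num1 (τ : ℝ) : Real.exp (-τ ^ 2) * Real.exp (Real.pi * |τ| / 2) ≤ Real.exp (Real.pi ^ 2 / 16) := by
  rw [← Real.exp_add]
  refine Real.exp_le_exp.2 ?_
  nlinarith [sq_nonneg (|τ| - Real.pi / 4), sq_abs τ]

theorem st_num2 (p : ℝ) (hp : 1 < p) (τ : ℝ) : Real.exp (-τ ^ 2) * ((p + |τ|) * (1 + |τ|)) ≤ 2 * p := by
  have h1 : τ ^ 2 + 1 ≤ Real.exp (τ ^ 2) := Real.add_one_le_exp _
  have h2 : (p + |τ|) * (1 + |τ|) ≤ 2 * p * Real.exp (τ ^ 2) := by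
    have h3 := abs_nonneg τ
    have h4 : p + |τ| ≤ p * (1 + |τ|) := by nlinarith
    have h5 : (p + |τ|) * (1 + |τ|) ≤ p * (1 + |τ|) ^ 2 := by nlinarith
    have h6 : (1 + |τ|) ^ 2 ≤ 2 * (τ ^ 2 + 1) := by nlinarith [sq_abs τ, sq_nonneg (|τ| - 1)]
    have h7 : p * (1 + |τ|) ^ 2 ≤ p * (2 * (τ ^ 2 + 1)) := mul_le_mul_of_nonneg_left h6 (by linarith)
    have h8 : p * (2 * (τ ^ 2 + 1)) ≤ p * (2 * Real.exp (τ ^ 2)) :=
      mul_le_mul_of_nonneg_left (by linarith) (by linarith)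
    linarith
  calc Real.exp (-τ ^ 2) * ((p + |τ|) * (1 + |τ|)) ≤ Real.exp (-τ ^ 2) * (2 * p * Real.exp (τ ^ 2)) :=
        mul_le_mul_of_nonneg_left h2 (Real.exp_pos _).le
    _ = 2 * p * (Real.exp (-τ ^ 2) * Real.exp (τ ^ 2)) := by ring
    _ = 2 * p := by rw [← Real.exp_add]; simp

theorem st_expsq (ζ : ℂ) : ‖Complex.exp (ζ ^ 2)‖ = Real.exp (ζ.re ^ 2) * Real.exp (-ζ.im ^ 2) := by
  rw [Complex.norm_exp, ← Real.exp_add]
  congr 1
  simp [pow_two]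
  ring

theorem st_diff {d n : ℕ} (z : ℂ) (hz : 0 < z.im) (p : ℝ) (hp : 1 < p) (a b : Fin n → ℝ)
    (ha : ∀ i, 0 < a i) (hb : ∀ i, 0 < b i) (u v : Fin n → HH d) :
    DiffContOnCl ℂ (fun ζ => Complex.exp (ζ ^ 2) * Complex.Gamma (ζ + 1) *
      ∑ i, ∑ j, (a i : ℂ) ^ ζ * (b j : ℂ) ^ ζ * FF d z ζ (u j) (v i))
      (Complex.HadamardThreeLines.verticalStrip 0 p) := by
  obtain ⟨hF1, -, -, -, -⟩ := FF_prop d z hz p (by linarith)
  have hcl : closure (Complex.HadamardThreeLines.verticalStrip 0 p) ⊆ {ζ : ℂ | 0 ≤ ζ.re} := by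
    refine closure_minimal (fun ζ hζ => ?_) (isClosed_le continuous_const Complex.continuous_re)
    exact hζ.1.le
  have e1 : DiffContOnCl ℂ (fun ζ : ℂ => Complex.exp (ζ ^ 2)) (Complex.HadamardThreeLines.verticalStrip 0 p) :=
    Differentiable.diffContOnCl (by fun_prop)
  have e2 : DiffContOnCl ℂ (fun ζ : ℂ => Complex.Gamma (ζ + 1)) (Complex.HadamardThreeLines.verticalStrip 0 p) := by
    refine DifferentiableOn.diffContOnCl fun ζ hζ => DifferentiableAt.differentiableWithinAt ?_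
    have h0 : (0 : ℝ) ≤ ζ.re := hcl hζ
    refine DifferentiableAt.comp ζ (Complex.differentiableAt_Gamma _ fun m hm => ?_) (by fun_prop)
    have := congrArg Complex.re hm
    simp at this
    have h2 : (0 : ℝ) ≤ m := Nat.cast_nonneg m
    linarith
  have e3 : ∀ t : ℝ, 0 < t → DiffContOnCl ℂ (fun ζ : ℂ => (t : ℂ) ^ ζ) (Complex.HadamardThreeLines.verticalStrip 0 p) := by
    intro t ht
    refine Differentiable.diffContOnCl ?_
    intro ζ
    exact (differentiableAt_id).const_cpow (Or.inl (by exact_mod_cast ht.ne'))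
  have e4 : ∀ i j, DiffContOnCl ℂ (fun ζ : ℂ => (a i : ℂ) ^ ζ * (b j : ℂ) ^ ζ * FF d z ζ (u j) (v i))
      (Complex.HadamardThreeLines.verticalStrip 0 p) := by
    intro i j
    exact ((e3 _ (ha i)).smul (e3 _ (hb j))).smul (hF1 (u j) (v i))
  have e5 : DiffContOnCl ℂ (fun ζ : ℂ => ∑ i, ∑ j, (a i : ℂ) ^ ζ * (b j : ℂ) ^ ζ * FF d z ζ (u j) (v i))
      (Complex.HadamardThreeLines.verticalStrip 0 p) := by
    refine ⟨?_, ?_⟩
    · exact DifferentiableOn.fun_sum fun i _ => DifferentiableOn.fun_sum fun j _ => (e4 i j).differentiableOn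
    · exact continuousOn_finset_sum _ fun i _ => continuousOn_finset_sum _ fun j _ => (e4 i j).continuousOn
  exact (e1.smul e2).smul e5

theorem st_lin {d n : ℕ} (z : ℂ) (hz : 0 < z.im) (p : ℝ) (hp : 1 < p) (a b : Fin n → ℝ)
    (u v : Fin n → HH d) (ζ : ℂ) (h0 : 0 ≤ ζ.re) (h1 : ζ.re ≤ p) :
    ∑ i, ∑ j, (a i : ℂ) ^ ζ * (b j : ℂ) ^ ζ * FF d z ζ (u j) (v i) =
      FF d z ζ (∑ j, ((b j : ℂ) ^ ζ) • u j) (∑ i, ((starRingEnd ℂ) ((a i : ℂ) ^ ζ)) • v i) := by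
  obtain ⟨-, -, -, -, hF5⟩ := FF_prop d z hz p (by linarith)
  rw [hF5 ζ h0 h1]
  simp

theorem st_rpow_le (b x p : ℝ) (hb : 0 < b) (h0 : 0 ≤ x) (h1 : x ≤ p) : b ^ x ≤ max 1 (b ^ p) := by
  rcases le_total 1 b with h | h
  · exact (Real.rpow_le_rpow_of_exponent_le h h1).trans (le_max_right _ _)
  · exact (Real.rpow_le_one hb.le h h0).trans (le_max_left _ _)

theorem st_bdd {d n : ℕ} (z : ℂ) (hz : 0 < z.im) (p : ℝ) (hp : 1 < p) (a b : Fin n → ℝ)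
    (ha : ∀ i, 0 < a i) (hb : ∀ i, 0 < b i) (u v : Fin n → HH d) :
    BddAbove ((norm ∘ (fun ζ => Complex.exp (ζ ^ 2) * Complex.Gamma (ζ + 1) *
      ∑ i, ∑ j, (a i : ℂ) ^ ζ * (b j : ℂ) ^ ζ * FF d z ζ (u j) (v i))) ''
      (Complex.HadamardThreeLines.verticalClosedStrip 0 p)) := by
  obtain ⟨-, hF2, -, -, -⟩ := FF_prop d z hz p (by linarith)
  obtain ⟨G, hG⟩ : ∃ G : ℝ, ∀ x ∈ Set.Icc (1 : ℝ) (p + 1), ‖Real.Gamma x‖ ≤ G := by
    refine IsCompact.exists_bound_of_continuousOn isCompact_Icc fun x hx => ?_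
    refine (Real.differentiableAt_Gamma fun m => ?_).continuousAt.continuousWithinAt
    have h2 : (0 : ℝ) ≤ m := Nat.cast_nonneg m
    have := hx.1
    intro h
    linarith
  have hG0 : 0 ≤ G := (norm_nonneg _).trans (hG 1 ⟨le_refl _, by linarith⟩)
  set K : ℝ := max 1 ((z.im)⁻¹ ^ p) with hK
  have hK0 : 0 ≤ K := le_trans zero_le_one (le_max_left _ _)
  refine ⟨Real.exp (p ^ 2) * G * Real.exp (Real.pi ^ 2 / 16) *
    (∑ i, ∑ j, max 1 (a i ^ p) * max 1 (b j ^ p) * (K * ‖u j‖ * ‖v i‖)), ?_⟩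
  rintro _ ⟨ζ, hζ, rfl⟩
  obtain ⟨h0, h1⟩ : 0 ≤ ζ.re ∧ ζ.re ≤ p := hζ
  simp only [Function.comp_apply, norm_mul]
  have hS : ‖∑ i, ∑ j, (a i : ℂ) ^ ζ * (b j : ℂ) ^ ζ * FF d z ζ (u j) (v i)‖ ≤
      (∑ i, ∑ j, max 1 (a i ^ p) * max 1 (b j ^ p) * (K * ‖u j‖ * ‖v i‖)) * Real.exp (Real.pi * |ζ.im| / 2) := by
    rw [Finset.sum_mul]
    refine norm_sum_le_of_le _ fun i _ => ?_
    rw [Finset.sum_mul]
    refine norm_sum_le_of_le _ fun j _ => ?_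
    rw [norm_mul, norm_mul, Complex.norm_cpow_eq_rpow_re_of_pos (ha i), Complex.norm_cpow_eq_rpow_re_of_pos (hb j)]
    have g1 := st_rpow_le (a i) ζ.re p (ha i) h0 h1
    have g2 := st_rpow_le (b j) ζ.re p (hb j) h0 h1
    have g3 := hF2 (u j) (v i) ζ h0 h1
    have g4 : (0 : ℝ) ≤ a i ^ ζ.re := Real.rpow_nonneg (ha i).le _
    have g5 : (0 : ℝ) ≤ b j ^ ζ.re := Real.rpow_nonneg (hb j).le _
    calc a i ^ ζ.re * b j ^ ζ.re * ‖FF d z ζ (u j) (v i)‖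
        ≤ (max 1 (a i ^ p) * max 1 (b j ^ p)) * (K * Real.exp (Real.pi * |ζ.im| / 2) * ‖u j‖ * ‖v i‖) := by
          refine mul_le_mul (mul_le_mul g1 g2 g5 (g4.trans g1)) g3 (norm_nonneg _) ?_
          exact mul_nonneg (g4.trans g1) (g5.trans g2)
      _ = _ := by ring
  have hgam : ‖Complex.Gamma (ζ + 1)‖ ≤ G := by
    have hre : (ζ + 1).re = ζ.re + 1 := by simp
    refine (st_Gamma _ (by rw [hre]; linarith)).trans ?_
    rw [hre]
    refine (le_abs_self _).trans ?_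
    exact hG _ ⟨by linarith, by linarith⟩
  have hexp : ‖Complex.exp (ζ ^ 2)‖ ≤ Real.exp (p ^ 2) * Real.exp (-ζ.im ^ 2) := by
    rw [st_expsq]
    refine mul_le_mul_of_nonneg_right ?_ (Real.exp_pos _).le
    refine Real.exp_le_exp.2 ?_
    nlinarith
  have hnum := st_num1 ζ.im
  set Sg0 : ℝ := ∑ i, ∑ j, max 1 (a i ^ p) * max 1 (b j ^ p) * (K * ‖u j‖ * ‖v i‖) with hSg
  have hSg0 : 0 ≤ Sg0 := by
    refine Finset.sum_nonneg fun i _ => Finset.sum_nonneg fun j _ => ?_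
    have g1 : (0 : ℝ) ≤ max 1 (a i ^ p) := le_trans zero_le_one (le_max_left _ _)
    have g2 : (0 : ℝ) ≤ max 1 (b j ^ p) := le_trans zero_le_one (le_max_left _ _)
    positivity
  calc ‖Complex.exp (ζ ^ 2)‖ * ‖Complex.Gamma (ζ + 1)‖ *
        ‖∑ i, ∑ j, (a i : ℂ) ^ ζ * (b j : ℂ) ^ ζ * FF d z ζ (u j) (v i)‖
      ≤ (Real.exp (p ^ 2) * Real.exp (-ζ.im ^ 2)) * G * (Sg0 * Real.exp (Real.pi * |ζ.im| / 2)) := by
        refine mul_le_mul (mul_le_mul hexp hgam (norm_nonneg _) (by positivity)) hS (norm_nonneg _) (by positivity)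
    _ = Real.exp (p ^ 2) * G * (Real.exp (-ζ.im ^ 2) * Real.exp (Real.pi * |ζ.im| / 2)) * Sg0 := by ring
    _ ≤ Real.exp (p ^ 2) * G * Real.exp (Real.pi ^ 2 / 16) * Sg0 := by
        refine mul_le_mul_of_nonneg_right ?_ hSg0
        exact mul_le_mul_of_nonneg_left hnum (by positivity)

theorem stein_simple (d : ℕ) (p : ℝ) (hp : 1 < p) (B₀ : ℝ) (hB₀ : 0 ≤ B₀) :
    ∃ C : ℝ, 0 < C ∧ ∀ z : ℂ, 0 < z.im →
      (∀ ζ : ℂ, ζ.re = p → ∀ f g : HH d,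
        (∃ L : ℝ, (∀ᵐ x : EE d, L < ‖x‖ → (f : EE d → ℂ) x = 0) ∧
          (∀ᵐ x : EE d, L < ‖x‖ → (g : EE d → ℂ) x = 0)) →
        ‖FF d z ζ f g * Complex.Gamma ζ‖ ≤
          B₀ * (1 + |ζ.im|) * (∫ x, ‖(f : EE d → ℂ) x‖) * (∫ x, ‖(g : EE d → ℂ) x‖)) →
      ∀ (n : ℕ) (a b : Fin n → ℝ) (S T : Fin n → Set (EE d)),
        (∀ i, 0 < a i ∧ 0 < b i ∧ MeasurableSet (S i) ∧ MeasurableSet (T i) ∧
          Bornology.IsBounded (S i) ∧ Bornology.IsBounded (T i)) →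
        (∀ i j, i ≠ j → Disjoint (S i) (S j) ∧ Disjoint (T i) (T j)) →
        ∀ f g : HH d,
          ‖∑ i, ∑ j, ((a i * b j : ℝ) : ℂ) * ⟪proj (S i) g, Rz d z (proj (T j) f)⟫_ℂ‖ ≤
            C * (∑ i, a i ^ (2 * p) * (volume (S i)).toReal) ^ (1 / (2 * p)) *
              (∑ j, b j ^ (2 * p) * (volume (T j)).toReal) ^ (1 / (2 * p)) * ‖f‖ * ‖g‖ := by
  have hp0 : 0 < p := by linarith
  set K : ℝ := Real.exp (p ^ 2) * (2 * p) * (B₀ + 1) with hK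
  have hK0 : 0 < K := by positivity
  set E0 : ℝ := Real.exp (Real.pi ^ 2 / 16) with hE0
  have hE00 : 0 < E0 := Real.exp_pos _
  refine ⟨E0 ^ (1 - 1 / p) * K ^ (1 / p), by positivity, ?_⟩
  intro z hz H n a b S T hST hdis f g
  obtain ⟨hF1, hF2, hF3, hF4, hF5⟩ := FF_prop d z hz p hp0
  have ha : ∀ i, 0 < a i := fun i => (hST i).1
  have hb : ∀ i, 0 < b i := fun i => (hST i).2.1
  have hSm : ∀ i, MeasurableSet (S i) := fun i => (hST i).2.2.1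
  have hTm : ∀ i, MeasurableSet (T i) := fun i => (hST i).2.2.2.1
  have hSb : ∀ i, Bornology.IsBounded (S i) := fun i => (hST i).2.2.2.2.1
  have hTb : ∀ i, Bornology.IsBounded (T i) := fun i => (hST i).2.2.2.2.2
  have hSd : ∀ i j, i ≠ j → Disjoint (S i) (S j) := fun i j hij => (hdis i j hij).1
  have hTd : ∀ i j, i ≠ j → Disjoint (T i) (T j) := fun i j hij => (hdis i j hij).2
  set AS : ℝ := ∑ i, a i ^ (2 * p) * (volume (S i)).toReal with hAS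
  set AT : ℝ := ∑ j, b j ^ (2 * p) * (volume (T j)).toReal with hAT
  have hAS0 : 0 ≤ AS := Finset.sum_nonneg fun i _ => mul_nonneg (Real.rpow_nonneg (ha i).le _) ENNReal.toReal_nonneg
  have hAT0 : 0 ≤ AT := Finset.sum_nonneg fun i _ => mul_nonneg (Real.rpow_nonneg (hb i).le _) ENNReal.toReal_nonneg
  set u : Fin n → HH d := fun j => proj (T j) f with hu
  set v : Fin n → HH d := fun i => proj (S i) g with hv
  set F : ℂ → ℂ := fun ζ => Complex.exp (ζ ^ 2) * Complex.Gamma (ζ + 1) *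
      ∑ i, ∑ j, (a i : ℂ) ^ ζ * (b j : ℂ) ^ ζ * FF d z ζ (u j) (v i) with hF
  -- the left line
  have hleft : ∀ ζ ∈ Complex.re ⁻¹' {(0 : ℝ)}, ‖F ζ‖ ≤ E0 * (‖f‖ * ‖g‖) := by
    intro ζ hζ
    have hre : ζ.re = 0 := hζ
    simp only [hF]
    rw [st_lin z hz p hp a b u v ζ (by rw [hre]) (by rw [hre]; exact hp0.le), norm_mul, norm_mul, st_expsq]
    have k1 := hF3 (∑ j, ((b j : ℂ) ^ ζ) • u j) (∑ i, ((starRingEnd ℂ) ((a i : ℂ) ^ ζ)) • v i) ζ hre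
    have k2 : ‖(∑ j, ((b j : ℂ) ^ ζ) • u j : HH d)‖ ≤ ‖f‖ := by
      refine st_normle T hTm hTd _ (fun j => ?_) f
      rw [Complex.norm_cpow_eq_rpow_re_of_pos (hb j), hre, Real.rpow_zero]
    have k3 : ‖(∑ i, ((starRingEnd ℂ) ((a i : ℂ) ^ ζ)) • v i : HH d)‖ ≤ ‖g‖ := by
      refine st_normle S hSm hSd _ (fun j => ?_) g
      rw [RCLike.norm_conj, Complex.norm_cpow_eq_rpow_re_of_pos (ha j), hre, Real.rpow_zero]
    have k4 : ‖Complex.Gamma (ζ + 1)‖ ≤ 1 := by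
      have hre' : (ζ + 1).re = 1 := by simp [hre]
      refine (st_Gamma _ (by rw [hre']; norm_num)).trans ?_
      rw [hre', Real.Gamma_one]
    have k5 := st_num1 ζ.im
    rw [hre]
    have k6 : Real.exp ((0 : ℝ) ^ 2) = 1 := by simp
    rw [k6, one_mul]
    calc Real.exp (-ζ.im ^ 2) * ‖Complex.Gamma (ζ + 1)‖ * ‖FF d z ζ (∑ j, ((b j : ℂ) ^ ζ) • u j)
          (∑ i, ((starRingEnd ℂ) ((a i : ℂ) ^ ζ)) • v i)‖
        ≤ Real.exp (-ζ.im ^ 2) * 1 * (Real.exp (Real.pi * |ζ.im| / 2) * ‖f‖ * ‖g‖) := by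
          refine mul_le_mul (mul_le_mul_of_nonneg_left k4 (Real.exp_pos _).le) (k1.trans ?_) (norm_nonneg _)
            (by positivity)
          refine mul_le_mul (mul_le_mul_of_nonneg_left k2 (Real.exp_pos _).le) k3 (norm_nonneg _) (by positivity)
      _ = (Real.exp (-ζ.im ^ 2) * Real.exp (Real.pi * |ζ.im| / 2)) * (‖f‖ * ‖g‖) := by ring
      _ ≤ E0 * (‖f‖ * ‖g‖) := mul_le_mul_of_nonneg_right k5 (by positivity)
  -- the right line
  have hright : ∀ ζ ∈ Complex.re ⁻¹' {p}, ‖F ζ‖ ≤ K * ((AT ^ (1 / 2 : ℝ) * ‖f‖) * (AS ^ (1 / 2 : ℝ) * ‖g‖)) := by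
    intro ζ hζ
    have hre : ζ.re = p := hζ
    have hζ0 : ζ ≠ 0 := by
      rintro rfl
      simp at hre
      linarith
    simp only [hF]
    rw [st_lin z hz p hp a b u v ζ (by rw [hre]; exact hp0.le) (by rw [hre]), Complex.Gamma_add_one ζ hζ0]
    obtain ⟨L1, hL1⟩ := st_supp T hTm hTb (fun j => (b j : ℂ) ^ ζ) f
    obtain ⟨L2, hL2⟩ := st_supp S hSm hSb (fun i => (starRingEnd ℂ) ((a i : ℂ) ^ ζ)) g
    have k1 := H ζ hre (∑ j, ((b j : ℂ) ^ ζ) • u j) (∑ i, ((starRingEnd ℂ) ((a i : ℂ) ^ ζ)) • v i)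
      ⟨max L1 L2, hL1 _ (le_max_left _ _), hL2 _ (le_max_right _ _)⟩
    have k2 := st_L1 T hTm hTb hTd (fun j => (b j : ℂ) ^ ζ) f
    have k3 := st_L1 S hSm hSb hSd (fun i => (starRingEnd ℂ) ((a i : ℂ) ^ ζ)) g
    have k2' : ∑ j, ‖(b j : ℂ) ^ ζ‖ ^ 2 * (volume (T j)).toReal = AT := by
      refine Finset.sum_congr rfl fun j _ => ?_
      rw [Complex.norm_cpow_eq_rpow_re_of_pos (hb j), hre, ← Real.rpow_natCast, ← Real.rpow_mul (hb j).le]
      congr 2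
      push_cast
      ring
    have k3' : ∑ i, ‖(starRingEnd ℂ) ((a i : ℂ) ^ ζ)‖ ^ 2 * (volume (S i)).toReal = AS := by
      refine Finset.sum_congr rfl fun j _ => ?_
      rw [RCLike.norm_conj, Complex.norm_cpow_eq_rpow_re_of_pos (ha j), hre, ← Real.rpow_natCast,
        ← Real.rpow_mul (ha j).le]
      congr 2
      push_cast
      ring
    rw [k2'] at k2
    rw [k3'] at k3
    have k4 := st_num2 p hp ζ.im
    have k5 : ‖ζ‖ ≤ p + |ζ.im| := by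
      refine (Complex.norm_le_abs_re_add_abs_im ζ).trans ?_
      rw [hre, abs_of_pos hp0]
    have k0 : Complex.exp (ζ ^ 2) * (ζ * Complex.Gamma ζ) * FF d z ζ (∑ j, ((b j : ℂ) ^ ζ) • u j)
        (∑ i, ((starRingEnd ℂ) ((a i : ℂ) ^ ζ)) • v i) =
      Complex.exp (ζ ^ 2) * ζ * (FF d z ζ (∑ j, ((b j : ℂ) ^ ζ) • u j)
        (∑ i, ((starRingEnd ℂ) ((a i : ℂ) ^ ζ)) • v i) * Complex.Gamma ζ) := by ring
    rw [k0, norm_mul, norm_mul, st_expsq, hre]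
    set X : ℝ := AT ^ (1 / 2 : ℝ) * ‖f‖ with hX
    set Y : ℝ := AS ^ (1 / 2 : ℝ) * ‖g‖ with hY
    have hX0 : 0 ≤ X := by positivity
    have hY0 : 0 ≤ Y := by positivity
    have k6 : ‖FF d z ζ (∑ j, ((b j : ℂ) ^ ζ) • u j)
        (∑ i, ((starRingEnd ℂ) ((a i : ℂ) ^ ζ)) • v i) * Complex.Gamma ζ‖ ≤ B₀ * (1 + |ζ.im|) * X * Y := by
      refine k1.trans ?_
      refine mul_le_mul (mul_le_mul_of_nonneg_left k2 (by positivity)) k3 (integral_nonneg fun _ => norm_nonneg _)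
        (by positivity)
    calc Real.exp (p ^ 2) * Real.exp (-ζ.im ^ 2) * ‖ζ‖ * ‖FF d z ζ (∑ j, ((b j : ℂ) ^ ζ) • u j)
            (∑ i, ((starRingEnd ℂ) ((a i : ℂ) ^ ζ)) • v i) * Complex.Gamma ζ‖
        ≤ Real.exp (p ^ 2) * Real.exp (-ζ.im ^ 2) * (p + |ζ.im|) * (B₀ * (1 + |ζ.im|) * X * Y) := by
          refine mul_le_mul (mul_le_mul_of_nonneg_left k5 (by positivity)) k6 (norm_nonneg _) (by positivity)
      _ = Real.exp (p ^ 2) * (Real.exp (-ζ.im ^ 2) * ((p + |ζ.im|) * (1 + |ζ.im|))) * B₀ * (X * Y) := by ring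
      _ ≤ Real.exp (p ^ 2) * (2 * p) * (B₀ + 1) * (X * Y) := by
          refine mul_le_mul_of_nonneg_right ?_ (mul_nonneg hX0 hY0)
          refine mul_le_mul (mul_le_mul_of_nonneg_left k4 (Real.exp_pos _).le) (by linarith) hB₀ (by positivity)
  have h3 := Complex.HadamardThreeLines.norm_le_interp_of_mem_verticalClosedStrip' (f := F) (z := 1) (l := 0)
    (u := p) hp0 ⟨by simp, by simpa using hp.le⟩ (st_diff z hz p hp a b ha hb u v)
    (st_bdd z hz p hp a b ha hb u v) hleft hright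
  have hF1' : F 1 = Complex.exp 1 * ∑ i, ∑ j, (a i : ℂ) * (b j : ℂ) * FF d z 1 (u j) (v i) := by
    simp only [hF, one_pow, Complex.cpow_one]
    have : Complex.Gamma (1 + 1) = 1 := by
      rw [Complex.Gamma_add_one 1 one_ne_zero, Complex.Gamma_one, one_mul]
    rw [this, mul_one]
  have hgoal : ∑ i, ∑ j, ((a i * b j : ℝ) : ℂ) * ⟪proj (S i) g, Rz d z (proj (T j) f)⟫_ℂ =
      I * ∑ i, ∑ j, (a i : ℂ) * (b j : ℂ) * FF d z 1 (u j) (v i) := by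
    rw [Finset.mul_sum]
    refine Finset.sum_congr rfl fun i _ => ?_
    rw [Finset.mul_sum]
    refine Finset.sum_congr rfl fun j _ => ?_
    rw [hF4]
    push_cast
    simp only [hu, hv]
    ring
  rw [hgoal, norm_mul, Complex.norm_I, one_mul]
  have hle : ‖∑ i, ∑ j, (a i : ℂ) * (b j : ℂ) * FF d z 1 (u j) (v i)‖ ≤ ‖F 1‖ := by
    rw [hF1', norm_mul]
    have : (1 : ℝ) ≤ ‖Complex.exp 1‖ := by
      rw [Complex.norm_exp]
      simp
    exact le_mul_of_one_le_left (norm_nonneg _) this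
  refine hle.trans (h3.trans (le_of_eq ?_))
  have hX0 : 0 ≤ ‖f‖ * ‖g‖ := by positivity
  have e1 : ((1 : ℂ).re - 0) / (p - 0) = 1 / p := by simp
  rw [e1]
  have e2 : K * ((AT ^ (1 / 2 : ℝ) * ‖f‖) * (AS ^ (1 / 2 : ℝ) * ‖g‖)) =
      K * (AS ^ (1 / 2 : ℝ) * AT ^ (1 / 2 : ℝ)) * (‖f‖ * ‖g‖) := by ring
  have e3 : (1 / 2 : ℝ) * (1 / p) = 1 / (2 * p) := by
    field_simp
  have m1 : (E0 * (‖f‖ * ‖g‖)) ^ (1 - 1 / p) = E0 ^ (1 - 1 / p) * (‖f‖ * ‖g‖) ^ (1 - 1 / p) :=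
    Real.mul_rpow hE00.le hX0
  have m2 : (K * (AS ^ (1 / 2 : ℝ) * AT ^ (1 / 2 : ℝ)) * (‖f‖ * ‖g‖)) ^ (1 / p) =
      K ^ (1 / p) * (AS ^ (1 / (2 * p)) * AT ^ (1 / (2 * p))) * (‖f‖ * ‖g‖) ^ (1 / p) := by
    have m3 : (K * (AS ^ (1 / 2 : ℝ) * AT ^ (1 / 2 : ℝ)) * (‖f‖ * ‖g‖)) ^ (1 / p) =
        (K * (AS ^ (1 / 2 : ℝ) * AT ^ (1 / 2 : ℝ))) ^ (1 / p) * (‖f‖ * ‖g‖) ^ (1 / p) :=
      Real.mul_rpow (by positivity) hX0
    have m4 : (K * (AS ^ (1 / 2 : ℝ) * AT ^ (1 / 2 : ℝ))) ^ (1 / p) =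
        K ^ (1 / p) * (AS ^ (1 / 2 : ℝ) * AT ^ (1 / 2 : ℝ)) ^ (1 / p) :=
      Real.mul_rpow hK0.le (by positivity)
    have m5 : (AS ^ (1 / 2 : ℝ) * AT ^ (1 / 2 : ℝ)) ^ (1 / p) =
        (AS ^ (1 / 2 : ℝ)) ^ (1 / p) * (AT ^ (1 / 2 : ℝ)) ^ (1 / p) :=
      Real.mul_rpow (by positivity) (by positivity)
    rw [m3, m4, m5, ← Real.rpow_mul hAS0, ← Real.rpow_mul hAT0, e3]
  rw [e2, m1, m2]
  have e4 : (‖f‖ * ‖g‖) ^ (1 - 1 / p) * (‖f‖ * ‖g‖) ^ (1 / p) = ‖f‖ * ‖g‖ := by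
    rw [← Real.rpow_add' hX0 (by norm_num)]
    simp
  calc E0 ^ (1 - 1 / p) * (‖f‖ * ‖g‖) ^ (1 - 1 / p) *
        (K ^ (1 / p) * (AS ^ (1 / (2 * p)) * AT ^ (1 / (2 * p))) * (‖f‖ * ‖g‖) ^ (1 / p))
      = E0 ^ (1 - 1 / p) * K ^ (1 / p) * AS ^ (1 / (2 * p)) * AT ^ (1 / (2 * p)) *
        ((‖f‖ * ‖g‖) ^ (1 - 1 / p) * (‖f‖ * ‖g‖) ^ (1 / p)) := by ring
    _ = _ := by rw [e4]; ring

end

end Pool.Agent.Helper41.KR
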