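import Pool.Agent.Helper41.KR.Defs
import Pool.Agent.Helper41.KR.K00
import Pool.Agent.Helper41.KR.K02
import Pool.Agent.Helper41.KR.K04
import Pool.Agent.Helper41.KR.K05
import Pool.Agent.Helper41.KR.K06
import Pool.Agent.Helper41.KR.K07

open MeasureTheory Filter Topology ENNReal Complex
open scoped Laplacian FourierTransform InnerProductSpace

namespace Pool.Agent.Helper41.KR

noncomputable section

theorem krs_up_hyp (d : ℕ) (p : ℝ) (hp0 : 0 < p) (hp : (d : ℝ) / 2 < p)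
    (hp' : p ≤ ((d : ℝ) + 1) / 2) :
    ∃ C : ℝ, 0 < C ∧ ∀ z : ℂ, 0 < z.im → ‖z‖ = 1 → ∀ ζ : ℂ, ζ.re = p → ∀ f g : HH d,
        (∃ L : ℝ, (∀ᵐ x : EE d, L < ‖x‖ → (f : EE d → ℂ) x = 0) ∧
          (∀ᵐ x : EE d, L < ‖x‖ → (g : EE d → ℂ) x = 0)) →
        ‖FF d z ζ f g * Complex.Gamma ζ‖ ≤
          C * (1 + |ζ.im|) * (∫ x, ‖(f : EE d → ℂ) x‖) * (∫ x, ‖(g : EE d → ℂ) x‖) := by
  obtain ⟨C, hC, hosc⟩ := osc_one (p - 1 - (d : ℝ) / 2) (by linarith) (by linarith)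
  refine ⟨C, hC, ?_⟩
  rintro z hz hz1 ζ hζ f g ⟨L, hf, hg⟩
  have hζ0 : 0 < ζ.re := by rw [hζ]; exact hp0
  set A : ℝ → ℂ := fun s => (s : ℂ) ^ (ζ - 1) * Complex.exp (I * z * (s : ℂ)) with hA
  have hA1 : IntegrableOn A (Set.Ioi 0) := (lap_one ζ z hζ0 hz 0).1
  have hpow : ∀ s : ℝ, 0 < s → (s : ℂ) ^ (ζ - 1) * ((s ^ (-((d : ℝ) / 2)) : ℝ) : ℂ) =
      (s : ℂ) ^ (ζ - ((d : ℝ) / 2 : ℝ) - 1) := by
    intro s hs
    rw [Complex.ofReal_cpow hs.le, ← Complex.cpow_add _ _ (by exact_mod_cast hs.ne')]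
    congr 1
    push_cast
    ring
  have hA2 : IntegrableOn (fun s => A s * ((s ^ (-((d : ℝ) / 2)) : ℝ) : ℂ)) (Set.Ioi 0) := by
    have h1 := (lap_one (ζ - ((d : ℝ) / 2 : ℝ)) z (by
      rw [Complex.sub_re, Complex.ofReal_re, hζ]; linarith) hz 0).1
    refine h1.congr_fun ?_ measurableSet_Ioi
    intro s hs
    have hs' : 0 < s := hs
    simp only [hA]
    rw [← hpow s hs']
    ring
  have hβ : (ζ - ((d : ℝ) / 2 : ℝ) - 1) =
      ((p - 1 - (d : ℝ) / 2 : ℝ) : ℂ) + ((ζ.im : ℝ) : ℂ) * I := by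
    apply Complex.ext
    · simp [hζ]
      ring
    · simp
  have hB : ∀ r : ℝ, 0 ≤ r → r ≤ 2 * L → ‖∫ s in Set.Ioi (0 : ℝ), A s *
      ((s ^ (-((d : ℝ) / 2)) : ℝ) : ℂ) * Complex.exp (I * ((r ^ 2 / (4 * s) : ℝ) : ℂ))‖ ≤
        C * (1 + |ζ.im|) := by
    intro r hr _
    have h1 := hosc ζ.im z r hz hz1 hr
    have h2 : ∫ s in Set.Ioi (0 : ℝ), A s *
        ((s ^ (-((d : ℝ) / 2)) : ℝ) : ℂ) * Complex.exp (I * ((r ^ 2 / (4 * s) : ℝ) : ℂ)) =
        ∫ s in Set.Ioi (0 : ℝ), (s : ℂ) ^ (((p - 1 - (d : ℝ) / 2 : ℝ) : ℂ) + (ζ.im : ℂ) * I) *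
          Complex.exp (I * z * (s : ℂ)) *
        Complex.exp (I * ((r ^ 2 / (4 * s) : ℝ) : ℂ)) := by
      refine setIntegral_congr_fun measurableSet_Ioi ?_
      intro s hs
      have hs' : 0 < s := hs
      simp only [hA]
      rw [← hβ, ← hpow s hs']
      ring
    rw [h2]
    exact h1
  have hkb := kernel_bound d A hA1 hA2 L (C * (1 + |ζ.im|)) (by positivity) hB f g hf hg
  have hFF : FF d z ζ f g * Complex.Gamma ζ =
      ∫ ξ : EE d, (starRingEnd ℂ) ((𝓕 g : HH d) ξ) * (𝓕 f : HH d) ξ *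
      (∫ s in Set.Ioi (0 : ℝ), A s *
        Complex.exp (-(I * ((s * (4 * Real.pi ^ 2 * ‖ξ‖ ^ 2) : ℝ) : ℂ)))) := by
    unfold FF
    rw [← integral_mul_const]
    congr 1
    funext ξ
    rw [(lap_one ζ z hζ0 hz (4 * Real.pi ^ 2 * ‖ξ‖ ^ 2)).2]
    ring
  rw [hFF]
  exact hkb

theorem krs_up_coeSum {d : ℕ} {M : ℕ} (c : Fin M → ℂ) (h : Fin M → HH d) :
    ((∑ i, c i • h i : HH d) : EE d → ℂ) =ᵐ[volume] fun x => ∑ i, c i * h i x := by
  classical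
  have key : ∀ s : Finset (Fin M), ((∑ i ∈ s, c i • h i : HH d) : EE d → ℂ) =ᵐ[volume]
      fun x => ∑ i ∈ s, c i * h i x := by
    intro s
    induction s using Finset.induction_on with
    | empty =>
      simp only [Finset.sum_empty]
      exact Lp.coeFn_zero _ _ _
    | insert a s ha ih =>
      rw [Finset.sum_insert ha]
      filter_upwards [Lp.coeFn_add (c a • h a) (∑ i ∈ s, c i • h i), Lp.coeFn_smul (c a) (h a), ih]
        with x h1 h2 h3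
      rw [h1, Pi.add_apply, h2, h3, Finset.sum_insert ha, Pi.smul_apply, smul_eq_mul]
  exact key Finset.univ

theorem krs_up_level {M k : ℕ} (φ : ℕ → ℝ) (h0 : φ 0 = 0) (hk : k ≤ M) :
    ∑ i : Fin M, (if k = (i : ℕ) + 1 then φ ((i : ℕ) + 1) else 0) = φ k := by
  cases k with
  | zero =>
    rw [h0]
    refine Finset.sum_eq_zero fun i _ => ?_
    rw [if_neg (by omega)]
  | succ k =>
    rw [Finset.sum_eq_single (⟨k, hk⟩ : Fin M)]
    · simp
    · intro j _ hj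
      rw [if_neg]
      intro h
      apply hj
      apply Fin.ext
      simp only
      omega
    · intro h
      exact absurd (Finset.mem_univ _) h

/-- level sets -/
def krsUpLevelSet {d : ℕ} (W : EE d → ℝ) (n M : ℕ) (i : Fin M) : Set (EE d) :=
  {x | ⌊(n : ℝ) * W x⌋₊ = (i : ℕ) + 1}

theorem krs_up_LS {d : ℕ} (W : EE d → ℝ) (hW : Wt W) (n M : ℕ) :
    (∀ i, MeasurableSet (krsUpLevelSet W n M i)) ∧ (∀ i, Bornology.IsBounded (krsUpLevelSet W n M i)) ∧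
      ∀ i j, i ≠ j → Disjoint (krsUpLevelSet W n M i) (krsUpLevelSet W n M j) := by
  obtain ⟨hm, h0, hB, r, hr⟩ := hW
  refine ⟨?_, ?_, ?_⟩
  · intro i
    exact (Nat.measurable_floor.comp (hm.const_mul (n : ℝ))) (measurableSet_singleton _)
  · intro i
    refine (Metric.isBounded_closedBall (x := (0 : EE d)) (r := r)).subset ?_
    intro x hx
    rw [mem_closedBall_zero_iff]
    by_contra hlt
    push Not at hlt
    have h1 := hr x hlt
    have h2 : ⌊(n : ℝ) * W x⌋₊ = (i : ℕ) + 1 := hx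
    rw [h1] at h2
    simp at h2
  · intro i j hij
    rw [Set.disjoint_left]
    intro x hx hx'
    have h1 : ⌊(n : ℝ) * W x⌋₊ = (i : ℕ) + 1 := hx
    have h2 : ⌊(n : ℝ) * W x⌋₊ = (j : ℕ) + 1 := hx'
    apply hij
    apply Fin.ext
    omega

theorem krs_up_int {d : ℕ} (W : EE d → ℝ) (hW : Wt W) (q : ℝ) (hq : 0 < q) :
    Integrable (fun x => W x ^ q) := by
  obtain ⟨hm, h0, ⟨B, hB⟩, r, hr⟩ := hW
  have hB0 : 0 ≤ B := (h0 0).trans (hB 0)
  have h1 : IntegrableOn (fun _ : EE d => B ^ q) (Metric.closedBall (0 : EE d) r) :=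
    integrableOn_const measure_closedBall_lt_top.ne
  have h2 : Integrable ((Metric.closedBall (0 : EE d) r).indicator fun _ => B ^ q) :=
    h1.integrable_indicator Metric.isClosed_closedBall.measurableSet
  refine h2.mono' (hm.pow_const q).aestronglyMeasurable ?_
  refine Filter.Eventually.of_forall fun x => ?_
  rw [Real.norm_eq_abs, abs_of_nonneg (Real.rpow_nonneg (h0 x) q)]
  by_cases hx : x ∈ Metric.closedBall (0 : EE d) r
  · rw [Set.indicator_of_mem hx]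
    exact Real.rpow_le_rpow (h0 x) (hB x) hq.le
  · rw [Set.indicator_of_notMem hx]
    rw [mem_closedBall_zero_iff, not_le] at hx
    rw [hr x hx, Real.zero_rpow hq.ne']

theorem krs_up_vol {d : ℕ} (W : EE d → ℝ) (hW : Wt W) (n M : ℕ) (hn : 0 < n)
    (hM : ∀ x, (n : ℝ) * W x < (M : ℝ) + 1) (q : ℝ) (hq : 0 < q) :
    ∑ i : Fin M, ((((i : ℕ) : ℝ) + 1) / n) ^ q * (volume (krsUpLevelSet W n M i)).toReal ≤
      ∫ x, W x ^ q := by
  obtain ⟨hLm, hLb, -⟩ := krs_up_LS W hW n M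
  have hn' : (0 : ℝ) < n := by exact_mod_cast hn
  have h1 : ∀ i : Fin M, ((((i : ℕ) : ℝ) + 1) / n) ^ q * (volume (krsUpLevelSet W n M i)).toReal =
      ∫ x, (krsUpLevelSet W n M i).indicator (fun _ => ((((i : ℕ) : ℝ) + 1) / n) ^ q) x := by
    intro i
    rw [integral_indicator (hLm i), setIntegral_const, smul_eq_mul, measureReal_def]
    ring
  have hfin : ∀ i : Fin M, volume (krsUpLevelSet W n M i) ≠ ⊤ := fun i => (hLb i).measure_lt_top.ne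
  have hint : ∀ i : Fin M, Integrable
      (fun x => (krsUpLevelSet W n M i).indicator (fun _ => ((((i : ℕ) : ℝ) + 1) / n) ^ q) x) := fun i =>
    (integrableOn_const (hfin i)).integrable_indicator (hLm i)
  rw [Finset.sum_congr rfl fun i _ => h1 i, ← integral_finset_sum _ fun i _ => hint i]
  refine integral_mono (integrable_finset_sum _ fun i _ => hint i) (krs_up_int W hW q hq) ?_
  intro x
  simp only
  have hk : ⌊(n : ℝ) * W x⌋₊ ≤ M := by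
    have h2 : ⌊(n : ℝ) * W x⌋₊ < M + 1 := by
      rw [Nat.floor_lt (mul_nonneg hn'.le (hW.2.1 x))]
      exact_mod_cast hM x
    omega
  have h3 := krs_up_level (M := M) (fun k : ℕ => ((k : ℝ) / n) ^ q)
    (by simp [Real.zero_rpow hq.ne']) hk
  have h4 : ∑ i : Fin M, (krsUpLevelSet W n M i).indicator (fun _ => ((((i : ℕ) : ℝ) + 1) / n) ^ q) x =
      ((⌊(n : ℝ) * W x⌋₊ : ℝ) / n) ^ q := by
    rw [← h3]
    refine Finset.sum_congr rfl fun i _ => ?_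
    simp only [Set.indicator, krsUpLevelSet, Set.mem_setOf_eq]
    split_ifs
    · push_cast; rfl
    · rfl
  rw [h4]
  refine Real.rpow_le_rpow (by positivity) ?_ hq.le
  rw [div_le_iff₀ hn']
  calc ((⌊(n : ℝ) * W x⌋₊ : ℕ) : ℝ) ≤ (n : ℝ) * W x :=
        Nat.floor_le (mul_nonneg hn'.le (hW.2.1 x))
    _ = W x * n := mul_comm _ _

theorem krs_up_approx {d : ℕ} (W : EE d → ℝ) (hW : Wt W) (n M : ℕ) (hn : 0 < n)
    (hM : ∀ x, (n : ℝ) * W x < (M : ℝ) + 1) (f : HH d) :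
    ‖(∑ i : Fin M, (((((i : ℕ) : ℝ) + 1) / n : ℝ) : ℂ) • proj (krsUpLevelSet W n M i) f) - wm W f‖ ≤
      (1 / (n : ℝ)) * ‖f‖ := by
  obtain ⟨hLm, hLb, -⟩ := krs_up_LS W hW n M
  have hn' : (0 : ℝ) < n := by exact_mod_cast hn
  apply Lp.norm_le_mul_norm_of_ae_le_mul
  have hproj : ∀ᵐ x, ∀ i : Fin M, (proj (krsUpLevelSet W n M i) f : EE d → ℂ) x =
      (krsUpLevelSet W n M i).indicator f x := by
    rw [ae_all_iff]
    intro i
    exact proj_ae _ (hLm i) f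
  filter_upwards [Lp.coeFn_sub (∑ i : Fin M, (((((i : ℕ) : ℝ) + 1) / n : ℝ) : ℂ) •
    proj (krsUpLevelSet W n M i) f) (wm W f), krs_up_coeSum (fun i : Fin M =>
    (((((i : ℕ) : ℝ) + 1) / n : ℝ) : ℂ)) (fun i => proj (krsUpLevelSet W n M i) f), wm_ae W hW f, hproj]
    with x h1 h2 h3 h4
  rw [h1, Pi.sub_apply, h2, h3]
  have hk : ⌊(n : ℝ) * W x⌋₊ ≤ M := by
    have h2 : ⌊(n : ℝ) * W x⌋₊ < M + 1 := by
      rw [Nat.floor_lt (mul_nonneg hn'.le (hW.2.1 x))]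
      exact_mod_cast hM x
    omega
  have h5 := krs_up_level (M := M) (fun k : ℕ => ((k : ℝ) / n)) (by simp) hk
  have h6 : ∑ i : Fin M, (((((i : ℕ) : ℝ) + 1) / n : ℝ) : ℂ) * (proj (krsUpLevelSet W n M i) f : EE d → ℂ) x =
      (((⌊(n : ℝ) * W x⌋₊ : ℝ) / n : ℝ) : ℂ) * f x := by
    rw [← h5]
    push_cast
    rw [Finset.sum_mul]
    refine Finset.sum_congr rfl fun i _ => ?_
    rw [h4 i]
    simp only [Set.indicator, krsUpLevelSet, Set.mem_setOf_eq]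
    split_ifs
    · push_cast; rfl
    · simp
  rw [h6, ← sub_mul, norm_mul, ← Complex.ofReal_sub, Complex.norm_real, Real.norm_eq_abs]
  refine mul_le_mul_of_nonneg_right ?_ (norm_nonneg _)
  have h7 : (⌊(n : ℝ) * W x⌋₊ : ℝ) ≤ (n : ℝ) * W x :=
    Nat.floor_le (mul_nonneg hn'.le (hW.2.1 x))
  have h8 : (n : ℝ) * W x < (⌊(n : ℝ) * W x⌋₊ : ℝ) + 1 := Nat.lt_floor_add_one _
  rw [abs_le]
  constructor
  · rw [neg_le_sub_iff_le_add, ← add_div, le_div_iff₀ hn']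
    linarith
  · rw [sub_le_iff_le_add, div_le_iff₀ hn', add_mul, one_div, inv_mul_cancel₀ hn'.ne']
    linarith

theorem krs_up (d : ℕ) (hd : 2 ≤ d) (p : ℝ) (hp : (d : ℝ) / 2 < p) (hp' : p ≤ ((d : ℝ) + 1) / 2) :
    ∃ C : ℝ, 0 < C ∧ ∀ z : ℂ, 0 < z.im → ‖z‖ = 1 → ∀ W₁ W₂ : EE d → ℝ, Wt W₁ → Wt W₂ →
      ∀ f g : HH d, ‖⟪wm W₁ g, Rz d z (wm W₂ f)⟫_ℂ‖ ≤
        C * (∫ x, W₁ x ^ (2 * p)) ^ (1 / (2 * p)) * (∫ x, W₂ x ^ (2 * p)) ^ (1 / (2 * p)) *
          ‖f‖ * ‖g‖ := by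
  have hd' : (2 : ℝ) ≤ d := by exact_mod_cast hd
  have hp1 : 1 < p := by linarith
  obtain ⟨B₀, hB₀, hhyp⟩ := krs_up_hyp d p (by linarith) hp hp'
  obtain ⟨C, hC, hst⟩ := stein_simple d p hp1 B₀ hB₀.le
  refine ⟨C, hC, ?_⟩
  intro z hz hz1 W₁ W₂ hW₁ hW₂ f g
  have hmain := hst z hz (hhyp z hz hz1)
  obtain ⟨B₁, hB₁⟩ := hW₁.2.2.1
  obtain ⟨B₂, hB₂⟩ := hW₂.2.2.1
  have hMex : ∀ n : ℕ, ∃ M : ℕ, (∀ x, (n : ℝ) * W₁ x < (M : ℝ) + 1) ∧
      (∀ x, (n : ℝ) * W₂ x < (M : ℝ) + 1) := by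
    intro n
    obtain ⟨M, hM⟩ := exists_nat_ge ((n : ℝ) * max B₁ B₂)
    refine ⟨M, ?_, ?_⟩
    · intro x
      have : (n : ℝ) * W₁ x ≤ (n : ℝ) * max B₁ B₂ :=
        mul_le_mul_of_nonneg_left ((hB₁ x).trans (le_max_left _ _)) (Nat.cast_nonneg n)
      linarith
    · intro x
      have : (n : ℝ) * W₂ x ≤ (n : ℝ) * max B₁ B₂ :=
        mul_le_mul_of_nonneg_left ((hB₂ x).trans (le_max_right _ _)) (Nat.cast_nonneg n)
      linarith
  choose M hM1 hM2 using hMex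
  set GG : ℕ → HH d := fun n => ∑ i : Fin (M n), (((((i : ℕ) : ℝ) + 1) / n : ℝ) : ℂ) •
    proj (krsUpLevelSet W₁ n (M n) i) g with hGG
  set FN : ℕ → HH d := fun n => ∑ i : Fin (M n), (((((i : ℕ) : ℝ) + 1) / n : ℝ) : ℂ) •
    proj (krsUpLevelSet W₂ n (M n) i) f with hFN
  have hlim0 : Tendsto (fun n : ℕ => (1 / (n : ℝ))) atTop (𝓝 0) :=
    tendsto_one_div_atTop_nhds_zero_nat
  have hG : Tendsto GG atTop (𝓝 (wm W₁ g)) := by
    rw [tendsto_iff_norm_sub_tendsto_zero]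
    have hl := hlim0.mul_const ‖g‖
    rw [zero_mul] at hl
    refine squeeze_zero' (Filter.Eventually.of_forall fun n => norm_nonneg _) ?_ hl
    filter_upwards [eventually_gt_atTop 0] with n hn
    exact krs_up_approx W₁ hW₁ n (M n) hn (hM1 n) g
  have hF : Tendsto FN atTop (𝓝 (wm W₂ f)) := by
    rw [tendsto_iff_norm_sub_tendsto_zero]
    have hl := hlim0.mul_const ‖f‖
    rw [zero_mul] at hl
    refine squeeze_zero' (Filter.Eventually.of_forall fun n => norm_nonneg _) ?_ hl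
    filter_upwards [eventually_gt_atTop 0] with n hn
    exact krs_up_approx W₂ hW₂ n (M n) hn (hM2 n) f
  have hlim : Tendsto (fun n => ‖⟪GG n, Rz d z (FN n)⟫_ℂ‖) atTop
      (𝓝 ‖⟪wm W₁ g, Rz d z (wm W₂ f)⟫_ℂ‖) :=
    (hG.inner (((Rz d z).continuous.tendsto _).comp hF)).norm
  refine le_of_tendsto hlim ?_
  filter_upwards [eventually_gt_atTop 0] with n hn
  have hn' : (0 : ℝ) < n := by exact_mod_cast hn
  obtain ⟨a1, a2, a3⟩ := krs_up_LS W₁ hW₁ n (M n)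
  obtain ⟨b1, b2, b3⟩ := krs_up_LS W₂ hW₂ n (M n)
  have h1 := hmain (M n) (fun i => (((i : ℕ) : ℝ) + 1) / n) (fun i => (((i : ℕ) : ℝ) + 1) / n)
    (krsUpLevelSet W₁ n (M n)) (krsUpLevelSet W₂ n (M n))
    (fun i => ⟨by positivity, by positivity, a1 i, b1 i, a2 i, b2 i⟩)
    (fun i j hij => ⟨a3 i j hij, b3 i j hij⟩) f g
  have h2 : ⟪GG n, Rz d z (FN n)⟫_ℂ = ∑ i : Fin (M n), ∑ j : Fin (M n),
      (((((i : ℕ) : ℝ) + 1) / n * ((((j : ℕ) : ℝ) + 1) / n) : ℝ) : ℂ) *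
        ⟪proj (krsUpLevelSet W₁ n (M n) i) g, Rz d z (proj (krsUpLevelSet W₂ n (M n) j) f)⟫_ℂ := by
    simp only [hGG, hFN]
    rw [sum_inner, map_sum]
    refine Finset.sum_congr rfl fun i _ => ?_
    rw [inner_sum]
    refine Finset.sum_congr rfl fun j _ => ?_
    rw [map_smul, inner_smul_left, inner_smul_right, Complex.conj_ofReal, ← mul_assoc,
      ← Complex.ofReal_mul]
  rw [h2]
  refine h1.trans ?_
  have hq : 0 < 2 * p := by linarith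
  have v1 := krs_up_vol W₁ hW₁ n (M n) hn (hM1 n) (2 * p) hq
  have v2 := krs_up_vol W₂ hW₂ n (M n) hn (hM2 n) (2 * p) hq
  have w1 := Real.rpow_le_rpow (Finset.sum_nonneg fun i _ => by positivity) v1
    (show 0 ≤ 1 / (2 * p) by positivity)
  have w2 := Real.rpow_le_rpow (Finset.sum_nonneg fun i _ => by positivity) v2
    (show 0 ≤ 1 / (2 * p) by positivity)
  refine mul_le_mul_of_nonneg_right (mul_le_mul_of_nonneg_right (mul_le_mul
    (mul_le_mul_of_nonneg_left w1 hC.le) w2 (Real.rpow_nonneg (Finset.sum_nonneg fun i _ => ?_) _)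
    (mul_nonneg hC.le (Real.rpow_nonneg (integral_nonneg fun x => ?_) _))) (norm_nonneg _))
    (norm_nonneg _)
  · positivity
  · exact Real.rpow_nonneg (hW₁.2.1 x) _

end

end Pool.Agent.Helper41.KR
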