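import Pool.Agent.Helper41.KR.Defs
import Pool.Agent.Helper41.KR.K00
import Pool.Agent.Helper41.KR.K0R

open MeasureTheory Filter Topology ENNReal Complex
open scoped Laplacian FourierTransform InnerProductSpace

namespace Pool.Agent.Helper41.KR

noncomputable section

theorem ko_fourier_cont (f : EE 1 → ℂ) (hf : Integrable f) : Continuous (𝓕 f) :=
  VectorFourier.fourierIntegral_continuous (L := innerₗ (EE 1)) Real.continuous_fourierChar
    continuous_inner hf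

theorem ko_fourier_ae (f : HH 1) (hf : Integrable (f : EE 1 → ℂ)) :
    ((𝓕 f : HH 1) : EE 1 → ℂ) =ᵐ[volume] 𝓕 (f : EE 1 → ℂ) := by
  have hcont := ko_fourier_cont (f : EE 1 → ℂ) hf
  refine ae_eq_of_integral_contDiff_smul_eq
    ((Lp.memLp (𝓕 f)).locallyIntegrable (by norm_num)) hcont.locallyIntegrable ?_
  intro g g_smooth g_cpt
  have hg₁ : HasCompactSupport (Complex.ofRealCLM ∘ g) := g_cpt.comp_left rfl
  have hg₂ : ContDiff ℝ (⊤ : ℕ∞) (Complex.ofRealCLM ∘ g) := Complex.ofRealCLM.contDiff.comp g_smooth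
  obtain ⟨φ, hφ⟩ : ∃ φ : SchwartzMap (EE 1) ℂ, φ = hg₁.toSchwartzMap hg₂ := ⟨_, rfl⟩
  have hφx : ∀ x, φ x = ((g x : ℝ) : ℂ) := by
    intro x
    rw [hφ]
    rfl
  have h1 : ∫ x, g x • (𝓕 f : HH 1) x = Lp.toTemperedDistribution (𝓕 f) φ := by
    rw [Lp.toTemperedDistribution_apply]
    refine integral_congr_ae (Eventually.of_forall fun x => ?_)
    simp only [hφx, smul_eq_mul, Complex.real_smul]
  have h2 : Lp.toTemperedDistribution (𝓕 f) φ = ∫ x, (𝓕 φ : SchwartzMap (EE 1) ℂ) x • f x := by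
    rw [← Lp.fourier_toTemperedDistribution_eq, TemperedDistribution.fourier_apply,
      Lp.toTemperedDistribution_apply]
  have h3 : ∫ x, (𝓕 φ : SchwartzMap (EE 1) ℂ) x • f x = ∫ x, φ x • 𝓕 (f : EE 1 → ℂ) x := by
    have := VectorFourier.integral_fourierIntegral_smul_eq_flip (L := innerₗ (EE 1))
      Real.continuous_fourierChar continuous_inner (φ.integrable (μ := volume)) hf
    rw [flip_innerₗ] at this
    exact this
  rw [h1, h2, h3]
  refine integral_congr_ae (Eventually.of_forall fun x => ?_)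
  simp only [hφx, smul_eq_mul, Complex.real_smul]

/-- the kernel on the line -/
def kk (κ : ℂ) (t : ℝ) : ℂ := (1 / (2 * κ)) * Complex.exp (-κ * (|t| : ℝ))

theorem kk_cont (κ : ℂ) : Continuous (kk κ) := by
  unfold kk
  fun_prop

theorem kk_norm (κ : ℂ) (hκ : 0 < κ.re) (hκ1 : ‖κ‖ = 1) (t : ℝ) : ‖kk κ t‖ ≤ 1 / 2 := by
  unfold kk
  rw [norm_mul, norm_div, norm_mul, hκ1, Complex.norm_exp]
  have h1 : (-κ * ((|t| : ℝ) : ℂ)).re = -κ.re * |t| := by
    rw [Complex.mul_re, Complex.ofReal_re, Complex.ofReal_im, Complex.neg_re]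
    ring
  rw [h1]
  have h2 : Real.exp (-κ.re * |t|) ≤ 1 := by
    rw [Real.exp_le_one_iff]
    have := mul_nonneg hκ.le (abs_nonneg t)
    linarith
  have h3 : ‖(1 : ℂ)‖ / (‖(2 : ℂ)‖ * 1) = 1 / 2 := by
    rw [norm_one, Complex.norm_ofNat]
    norm_num
  rw [h3]
  linarith

theorem kk_Ioi (κ : ℂ) (s : ℝ) : Set.EqOn (fun t : ℝ => Complex.exp (((-2 * Real.pi * t * s : ℝ) : ℂ) * I) • kk κ t)
    (fun t : ℝ => (1 / (2 * κ)) * Complex.exp ((-κ - 2 * Real.pi * s * I) * t)) (Set.Ioi 0) := by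
  intro t ht
  have ht' : |t| = t := abs_of_pos ht
  simp only [kk, smul_eq_mul, ht']
  rw [mul_left_comm, ← Complex.exp_add]
  congr 2
  push_cast
  ring

theorem kk_Iic (κ : ℂ) (s : ℝ) : Set.EqOn (fun t : ℝ => Complex.exp (((-2 * Real.pi * t * s : ℝ) : ℂ) * I) • kk κ t)
    (fun t : ℝ => (1 / (2 * κ)) * Complex.exp ((κ - 2 * Real.pi * s * I) * t)) (Set.Iic 0) := by
  intro t ht
  have ht' : |t| = -t := abs_of_nonpos ht
  simp only [kk, smul_eq_mul, ht']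
  rw [mul_left_comm, ← Complex.exp_add]
  congr 2
  push_cast
  ring

theorem kk_int_aux (κ : ℂ) (hκ : 0 < κ.re) (s : ℝ) :
    IntegrableOn (fun t : ℝ => Complex.exp (((-2 * Real.pi * t * s : ℝ) : ℂ) * I) • kk κ t) (Set.Ioi 0) ∧
    IntegrableOn (fun t : ℝ => Complex.exp (((-2 * Real.pi * t * s : ℝ) : ℂ) * I) • kk κ t) (Set.Iic 0) := by
  constructor
  · refine IntegrableOn.congr_fun ?_ (kk_Ioi κ s).symm measurableSet_Ioi
    refine Integrable.const_mul ?_ _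
    refine integrableOn_exp_mul_complex_Ioi ?_ 0
    simp
    exact hκ
  · refine IntegrableOn.congr_fun ?_ (kk_Iic κ s).symm measurableSet_Iic
    refine Integrable.const_mul ?_ _
    refine integrableOn_exp_mul_complex_Iic ?_ 0
    simp
    exact hκ

theorem kk_int (κ : ℂ) (hκ : 0 < κ.re) : Integrable (kk κ) := by
  obtain ⟨h1, h2⟩ := kk_int_aux κ hκ 0
  have h3 := h2.union h1
  rw [Set.Iic_union_Ioi, integrableOn_univ] at h3
  refine h3.congr (Eventually.of_forall fun t => ?_)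
  simp

theorem kk_fourier (κ : ℂ) (hκ : 0 < κ.re) (s : ℝ) :
    𝓕 (kk κ) s = (((4 * Real.pi ^ 2 * |s| ^ 2 : ℝ) : ℂ) + κ ^ 2)⁻¹ := by
  rw [Real.fourier_real_eq_integral_exp_smul]
  obtain ⟨h1, h2⟩ := kk_int_aux κ hκ s
  rw [← setIntegral_univ, ← Set.Iic_union_Ioi (a := (0 : ℝ)),
    setIntegral_union (Set.Iic_disjoint_Ioi (le_refl 0)) measurableSet_Ioi h2 h1,
    setIntegral_congr_fun measurableSet_Iic (kk_Iic κ s),
    setIntegral_congr_fun measurableSet_Ioi (kk_Ioi κ s),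
    integral_const_mul, integral_const_mul,
    integral_exp_mul_complex_Iic (by simp; exact hκ) 0,
    integral_exp_mul_complex_Ioi (by simp; exact hκ) 0]
  have hκ0 : κ ≠ 0 := by
    intro h
    rw [h] at hκ
    simp at hκ
  have e1 : κ - 2 * Real.pi * s * I ≠ 0 := by
    intro h
    have := congrArg Complex.re h
    simp at this
    linarith
  have e2 : -κ - 2 * Real.pi * s * I ≠ 0 := by
    intro h
    have := congrArg Complex.re h
    simp at this
    linarith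
  have e3 : (((4 * Real.pi ^ 2 * |s| ^ 2 : ℝ) : ℂ) + κ ^ 2) =
      -((κ - 2 * Real.pi * s * I) * (-κ - 2 * Real.pi * s * I)) := by
    rw [sq_abs]
    push_cast
    linear_combination (4 * (Real.pi : ℂ) ^ 2 * (s : ℂ) ^ 2) * Complex.I_sq
  rw [e3]
  simp only [Complex.ofReal_zero, mul_zero, Complex.exp_zero]
  field_simp
  ring

/-- The line as a Euclidean space. -/
def AAk : EE 1 ≃ₗᵢ[ℝ] ℝ := (OrthonormalBasis.singleton (Fin 1) ℝ).repr.symm

theorem AA_abs (w : EE 1) : |AAk w| = ‖w‖ := by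
  have := AAk.norm_map w
  rw [Real.norm_eq_abs] at this
  exact this

theorem KK_fourier (κ z : ℂ) (hκ : 0 < κ.re) (hκz : κ ^ 2 = -z) :
    𝓕 (kk κ ∘ AAk) = sym (d := 1) z := by
  funext w
  rw [Real.fourier_comp_linearIsometry, kk_fourier κ hκ, AA_abs, hκz]
  rfl

theorem KK_int (κ : ℂ) (hκ : 0 < κ.re) : Integrable (kk κ ∘ AAk) :=
  (AAk.measurePreserving.integrable_comp_emb AAk.toHomeomorph.measurableEmbedding).2 (kk_int κ hκ)

theorem sym_real_int (z : ℂ) (hz : 0 < z.im) (hz1 : ‖z‖ = 1) :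
    Integrable (fun t : ℝ => (((4 * Real.pi ^ 2 * |t| ^ 2 : ℝ) : ℂ) - z)⁻¹) := by
  have hb : Integrable (fun t : ℝ => (1 + 2 / z.im) * (1 + t ^ 2)⁻¹) :=
    integrable_inv_one_add_sq.const_mul _
  refine hb.mono' ?_ (Eventually.of_forall fun t => ?_)
  · refine Measurable.aestronglyMeasurable ?_
    refine Measurable.inv ?_
    refine Measurable.sub_const ?_ _
    exact Complex.measurable_ofReal.comp (by fun_prop)
  · rw [norm_inv]
    obtain ⟨y, hy⟩ : ∃ y : ℝ, y = 4 * Real.pi ^ 2 * |t| ^ 2 := ⟨_, rfl⟩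
    rw [← hy]
    have hyt : t ^ 2 ≤ y := by
      rw [hy, sq_abs]
      have := Real.pi_gt_three
      have h2 : 1 ≤ 4 * Real.pi ^ 2 := by nlinarith
      have h3 := mul_le_mul_of_nonneg_right h2 (sq_nonneg t)
      linarith
    have h1 : z.im ≤ ‖(y : ℂ) - z‖ := by
      have := Complex.abs_im_le_norm ((y : ℂ) - z)
      rw [Complex.sub_im, Complex.ofReal_im, zero_sub, abs_neg, abs_of_pos hz] at this
      exact this
    have h2 : y - 1 ≤ ‖(y : ℂ) - z‖ := by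
      have := norm_sub_norm_le (y : ℂ) z
      rw [hz1, Complex.norm_real, Real.norm_eq_abs] at this
      have h3 := le_abs_self y
      linarith
    have h0 : 0 < ‖(y : ℂ) - z‖ := lt_of_lt_of_le hz h1
    have h4 : 1 + t ^ 2 ≤ (1 + 2 / z.im) * ‖(y : ℂ) - z‖ := by
      have h5 : 2 ≤ 2 / z.im * ‖(y : ℂ) - z‖ := by
        rw [div_mul_eq_mul_div, le_div_iff₀ hz]
        linarith
      nlinarith
    have h6 : 0 < 1 + t ^ 2 := by positivity
    rw [inv_le_iff_one_le_mul₀ h0, mul_right_comm, ← div_eq_mul_inv, one_le_div h6]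
    exact h4

theorem sym_int (z : ℂ) (hz : 0 < z.im) (hz1 : ‖z‖ = 1) : Integrable (sym (d := 1) z) := by
  have h := (AAk.measurePreserving.integrable_comp_emb
    AAk.toHomeomorph.measurableEmbedding).2 (sym_real_int z hz hz1)
  refine h.congr (Eventually.of_forall fun w => ?_)
  simp only [Function.comp_apply, AA_abs]
  rfl

theorem exists_kappa (z : ℂ) (hz : 0 < z.im) (hz1 : ‖z‖ = 1) :
    ∃ κ : ℂ, 0 < κ.re ∧ ‖κ‖ = 1 ∧ κ ^ 2 = -z := by
  obtain ⟨κ, hκ⟩ := IsAlgClosed.exists_pow_nat_eq (-z) (n := 2) (by norm_num)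
  have hn : ‖κ‖ = 1 := by
    have := congrArg norm hκ
    rw [norm_pow, norm_neg, hz1] at this
    have h0 := norm_nonneg κ
    nlinarith
  have hre : κ.re ≠ 0 := by
    intro h
    have := congrArg Complex.im hκ
    rw [sq, Complex.mul_im, h, Complex.neg_im] at this
    linarith
  rcases lt_or_gt_of_ne hre with h | h
  · refine ⟨-κ, by rw [Complex.neg_re]; linarith, by rw [norm_neg]; exact hn, by rw [neg_sq]; exact hκ⟩
  · exact ⟨κ, h, hn, hκ⟩

theorem inv_sym (z : ℂ) (hz : 0 < z.im) (hz1 : ‖z‖ = 1) (x : EE 1) :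
    ‖𝓕⁻ (sym (d := 1) z) x‖ ≤ 1 / 2 := by
  obtain ⟨κ, hκ, hκ1, hκz⟩ := exists_kappa z hz hz1
  have h1 := KK_fourier κ z hκ hκz
  have hc : Continuous (kk κ ∘ AAk) := (kk_cont κ).comp AAk.continuous
  have h2 := hc.fourierInv_fourier_eq (KK_int κ hκ) (by rw [h1]; exact sym_int z hz hz1)
  rw [← h1, h2]
  exact kk_norm κ hκ hκ1 _

theorem wt_memLp (W : EE 1 → ℝ) (hW : Wt W) : MemLp W 2 (volume : Measure (EE 1)) := by
  obtain ⟨hm, h0, ⟨B, hB⟩, r, hr⟩ := hW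
  have h1 : MemLp (Set.indicator (Metric.closedBall (0 : EE 1) r) (fun _ => B)) 2
      (volume : Measure (EE 1)) := by
    refine memLp_indicator_const 2 Metric.isClosed_closedBall.measurableSet B (Or.inr ?_)
    exact (measure_closedBall_lt_top).ne
  refine h1.mono hm.aestronglyMeasurable (Eventually.of_forall fun x => ?_)
  by_cases hx : x ∈ Metric.closedBall (0 : EE 1) r
  · rw [Set.indicator_of_mem hx, Real.norm_eq_abs, Real.norm_eq_abs, abs_of_nonneg (h0 x)]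
    exact (hB x).trans (le_abs_self B)
  · have : W x = 0 := by
      apply hr
      rw [mem_closedBall_zero_iff] at hx
      linarith
    rw [this, norm_zero]
    exact norm_nonneg _

theorem wm_int (W : EE 1 → ℝ) (hW : Wt W) (f : HH 1) :
    Integrable (wm W f : EE 1 → ℂ) ∧ ∫ x, ‖(wm W f : EE 1 → ℂ) x‖ ≤
      (∫ x, W x ^ (2 : ℝ)) ^ ((1 : ℝ) / 2) * ‖f‖ := by
  have hWm := wt_memLp W hW
  have hf : MemLp (fun x => ‖(f : EE 1 → ℂ) x‖) 2 (volume : Measure (EE 1)) := (Lp.memLp f).norm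
  have hae := wm_ae W hW f
  have hint : Integrable (fun x => W x * ‖(f : EE 1 → ℂ) x‖) := hWm.integrable_mul hf
  have hnae : (fun x => W x * ‖(f : EE 1 → ℂ) x‖) =ᵐ[volume] fun x => ‖(wm W f : EE 1 → ℂ) x‖ := by
    filter_upwards [hae] with x hx
    rw [hx, norm_mul, Complex.norm_real, Real.norm_eq_abs, abs_of_nonneg (hW.2.1 x)]
  constructor
  · have h1 : Integrable (fun x => ‖(wm W f : EE 1 → ℂ) x‖) := hint.congr hnae
    exact (integrable_norm_iff (Lp.aestronglyMeasurable (wm W f))).1 h1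
  · rw [← integral_congr_ae hnae]
    have h2 : ENNReal.ofReal (2 : ℝ) = 2 := by norm_num
    have h3 := integral_mul_le_Lp_mul_Lq_of_nonneg (p := 2) (q := 2) Real.HolderConjugate.two_two
      (Eventually.of_forall hW.2.1) (Eventually.of_forall fun x => norm_nonneg ((f : EE 1 → ℂ) x))
      (by rw [h2]; exact hWm) (by rw [h2]; exact hf)
    refine h3.trans (le_of_eq ?_)
    congr 1
    rw [Lp.norm_def, (Lp.memLp f).eLpNorm_eq_integral_rpow_norm (by norm_num) (by norm_num),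
      ENNReal.toReal_ofReal (by positivity)]
    norm_num

theorem ko_main (z : ℂ) (hz : 0 < z.im) (hz1 : ‖z‖ = 1) (F G : EE 1 → ℂ) (hF : Integrable F)
    (hG : Integrable G) :
    ‖∫ ξ : EE 1, (starRingEnd ℂ) (𝓕 G ξ) * (𝓕 F ξ * sym z ξ)‖ ≤
      (∫ x, ‖G x‖) * ((∫ x, ‖F x‖) * (1 / 2)) := by
  have hs := sym_int z hz hz1
  have hFc := ko_fourier_cont F hF
  have hFs : Integrable (fun ξ => 𝓕 F ξ * sym (d := 1) z ξ) := by
    refine hs.bdd_mul (c := ∫ x, ‖F x‖) hFc.aestronglyMeasurable (Eventually.of_forall fun ξ => ?_)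
    exact VectorFourier.norm_fourierIntegral_le_integral_norm _ _ _ _ _
  have h1 : ∫ ξ : EE 1, (starRingEnd ℂ) (𝓕 G ξ) * (𝓕 F ξ * sym z ξ) =
      ∫ x : EE 1, (starRingEnd ℂ) (G x) * 𝓕⁻ (fun ξ => 𝓕 F ξ * sym (d := 1) z ξ) x := by
    have h := VectorFourier.integral_sesq_fourierIntegral_eq_neg_flip (L := innerₗ (EE 1))
      (innerSL ℂ : ℂ →L⋆[ℂ] ℂ →L[ℂ] ℂ)
      Real.continuous_fourierChar continuous_inner hG hFs
    rw [flip_innerₗ] at h
    simp only [innerSL_apply_apply, RCLike.inner_apply] at h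
    have e1 : ∀ ξ, (starRingEnd ℂ) (𝓕 G ξ) * (𝓕 F ξ * sym (d := 1) z ξ) =
      (𝓕 F ξ * sym (d := 1) z ξ) * (starRingEnd ℂ) (𝓕 G ξ) := fun ξ => mul_comm _ _
    have e2 : ∀ x, (starRingEnd ℂ) (G x) * 𝓕⁻ (fun ξ => 𝓕 F ξ * sym (d := 1) z ξ) x =
      𝓕⁻ (fun ξ => 𝓕 F ξ * sym (d := 1) z ξ) x * (starRingEnd ℂ) (G x) := fun ξ => mul_comm _ _
    simp only [e1, e2]
    exact h
  have h2 : ∀ x : EE 1, ‖𝓕⁻ (fun ξ => 𝓕 F ξ * sym (d := 1) z ξ) x‖ ≤ (∫ x, ‖F x‖) * (1 / 2) := by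
    intro x
    obtain ⟨hh, hhdef⟩ : ∃ hh : EE 1 → ℂ, hh = fun ξ => (Real.fourierChar (inner ℝ ξ x) : ℂ) * sym (d := 1) z ξ := ⟨_, rfl⟩
    have hhint : Integrable hh := by
      rw [hhdef]
      refine hs.bdd_mul (c := 1) ?_ (Eventually.of_forall fun ξ => ?_)
      · refine Continuous.aestronglyMeasurable ?_
        have : Continuous fun ξ : EE 1 => Real.fourierChar (inner ℝ ξ x) :=
          Real.continuous_fourierChar.comp (by fun_prop)
        exact continuous_subtype_val.comp this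
      · rw [Circle.norm_coe]
    have e1 : 𝓕⁻ (fun ξ => 𝓕 F ξ * sym (d := 1) z ξ) x = ∫ ξ : EE 1, 𝓕 F ξ • hh ξ := by
      rw [Real.fourierInv_eq]
      refine integral_congr_ae (Eventually.of_forall fun ξ => ?_)
      simp only [hhdef, smul_eq_mul, Circle.smul_def]
      ring
    have e2 : ∫ ξ : EE 1, 𝓕 F ξ • hh ξ = ∫ y : EE 1, F y • 𝓕 hh y := by
      have := VectorFourier.integral_fourierIntegral_smul_eq_flip (L := innerₗ (EE 1))
        Real.continuous_fourierChar continuous_inner hF hhint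
      rw [flip_innerₗ] at this
      exact this
    have e3 : ∀ y : EE 1, 𝓕 hh y = 𝓕⁻ (sym (d := 1) z) (x - y) := by
      intro y
      rw [Real.fourier_eq, Real.fourierInv_eq]
      refine integral_congr_ae (Eventually.of_forall fun ξ => ?_)
      simp only [hhdef, smul_eq_mul, Circle.smul_def]
      rw [← mul_assoc, ← Circle.coe_mul, ← AddChar.map_add_eq_mul, inner_sub_right, neg_add_eq_sub]
    rw [e1, e2]
    calc ‖∫ y : EE 1, F y • 𝓕 hh y‖ ≤ ∫ y : EE 1, ‖F y‖ * (1 / 2) := by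
          refine norm_integral_le_of_norm_le (hF.norm.mul_const _) (Eventually.of_forall fun y => ?_)
          rw [norm_smul, e3]
          exact mul_le_mul_of_nonneg_left (inv_sym z hz hz1 _) (norm_nonneg _)
      _ = (∫ x, ‖F x‖) * (1 / 2) := integral_mul_const _ _
  rw [h1]
  calc ‖∫ x : EE 1, (starRingEnd ℂ) (G x) * 𝓕⁻ (fun ξ => 𝓕 F ξ * sym (d := 1) z ξ) x‖
      ≤ ∫ x : EE 1, ‖G x‖ * ((∫ x, ‖F x‖) * (1 / 2)) := by
        refine norm_integral_le_of_norm_le (hG.norm.mul_const _) (Eventually.of_forall fun x => ?_)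
        rw [norm_mul, RCLike.norm_conj]
        exact mul_le_mul_of_nonneg_left (h2 x) (norm_nonneg _)
    _ = (∫ x, ‖G x‖) * ((∫ x, ‖F x‖) * (1 / 2)) := integral_mul_const _ _

theorem krs_one (z : ℂ) (hz : 0 < z.im) (hz1 : ‖z‖ = 1) (W₁ W₂ : EE 1 → ℝ) (h1 : Wt W₁)
    (h2 : Wt W₂) (f g : HH 1) :
    ‖⟪wm W₁ g, Rz 1 z (wm W₂ f)⟫_ℂ‖ ≤
      (1 / 2) * (∫ x, W₁ x ^ (2 : ℝ)) ^ ((1 : ℝ) / 2) * (∫ x, W₂ x ^ (2 : ℝ)) ^ ((1 : ℝ) / 2) *
        ‖f‖ * ‖g‖ := by
  obtain ⟨hG, hGn⟩ := wm_int W₁ h1 g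
  obtain ⟨hF, hFn⟩ := wm_int W₂ h2 f
  rw [Rz_inner z (Or.inl hz)]
  have hae : (fun ξ : EE 1 => (starRingEnd ℂ) ((𝓕 (wm W₁ g) : HH 1) ξ) * (𝓕 (wm W₂ f) : HH 1) ξ *
      sym z ξ) =ᵐ[volume] fun ξ : EE 1 => (starRingEnd ℂ) (𝓕 (wm W₁ g : EE 1 → ℂ) ξ) *
        (𝓕 (wm W₂ f : EE 1 → ℂ) ξ * sym z ξ) := by
    filter_upwards [ko_fourier_ae _ hG, ko_fourier_ae _ hF] with ξ e1 e2
    rw [e1, e2, mul_assoc]
  rw [integral_congr_ae hae]
  refine (ko_main z hz hz1 _ _ hF hG).trans ?_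
  have hF0 : 0 ≤ ∫ x, ‖(wm W₂ f : EE 1 → ℂ) x‖ := integral_nonneg fun _ => norm_nonneg _
  have hG0 : 0 ≤ ∫ x, ‖(wm W₁ g : EE 1 → ℂ) x‖ := integral_nonneg fun _ => norm_nonneg _
  calc (∫ x, ‖(wm W₁ g : EE 1 → ℂ) x‖) * ((∫ x, ‖(wm W₂ f : EE 1 → ℂ) x‖) * (1 / 2))
      ≤ ((∫ x, W₁ x ^ (2 : ℝ)) ^ ((1 : ℝ) / 2) * ‖g‖) *
        (((∫ x, W₂ x ^ (2 : ℝ)) ^ ((1 : ℝ) / 2) * ‖f‖) * (1 / 2)) := by
        refine mul_le_mul hGn ?_ (by positivity) (hG0.trans hGn)
        exact mul_le_mul_of_nonneg_right hFn (by norm_num)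
    _ = _ := by ring

end

end Pool.Agent.Helper41.KR
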