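import Pool.Agent.Helper41.KR.Defs
import Pool.Agent.Helper41.KR.C01
import Pool.Agent.Helper41.KR.K00
import Pool.Agent.Helper41.KR.K08
import Pool.Agent.Helper41.KR.K09
import Pool.Agent.Helper41.KR.K0R
import Pool.Agent.Helper41.KR.K10

open MeasureTheory Filter Topology ENNReal Complex
open scoped Laplacian FourierTransform InnerProductSpace

namespace Pool.Agent.Helper41.KR

noncomputable section

theorem bs_small_K (d : ℕ) (hd : 1 ≤ d) (p : ℝ) (hp1 : d = 1 → p = 1) (hp : (d : ℝ) / 2 < p)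
    (hp' : p ≤ ((d : ℝ) + 1) / 2) :
    ∃ C : ℝ, 0 < C ∧ (d = 1 → C = 1 / 2) ∧ ∀ ζ : ℂ, ‖ζ‖ = 1 → ζ ≠ 1 → ∀ W₁ W₂ : EE d → ℝ,
      Wt W₁ → Wt W₂ → ∀ f g : HH d, ‖⟪wm W₁ g, Rz d ζ (wm W₂ f)⟫_ℂ‖ ≤
        C * (∫ x, W₁ x ^ (2 * p)) ^ (1 / (2 * p)) * (∫ x, W₂ x ^ (2 * p)) ^ (1 / (2 * p)) *
          ‖f‖ * ‖g‖ := by
  rcases Nat.lt_or_ge 1 d with h | h
  · obtain ⟨C, hC, hK⟩ := krs_up d h p hp hp'
    refine ⟨C, hC, fun h' => absurd h' (by omega), fun ζ hζ hζ1 W₁ W₂ h1 h2 f g => ?_⟩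
    refine ext_z (wm W₂ f) (wm W₁ g) _ (fun z hz hz1 => ⟨hK z hz hz1 W₁ W₂ h1 h2 f g, ?_⟩)
      ζ hζ hζ1
    refine (hK z hz hz1 W₂ W₁ h2 h1 g f).trans (le_of_eq ?_)
    ring
  · have hd1 : d = 1 := by omega
    subst hd1
    have hp1' := hp1 rfl
    subst hp1'
    refine ⟨1 / 2, by norm_num, fun _ => rfl, fun ζ hζ hζ1 W₁ W₂ h1 h2 f g => ?_⟩
    have e1 : (2 * (1 : ℝ)) = 2 := by norm_num
    rw [e1]
    refine ext_z (wm W₂ f) (wm W₁ g) _ (fun z hz hz1 => ⟨krs_one z hz hz1 W₁ W₂ h1 h2 f g, ?_⟩)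
      ζ hζ hζ1
    refine (krs_one z hz hz1 W₂ W₁ h2 h1 g f).trans (le_of_eq ?_)
    ring

theorem bs_small_pw {w t q : ℝ} (hw : 0 ≤ w) (ht : 0 ≤ t) (hq : 0 < q) (h : w ≤ Real.sqrt t) :
    w ^ (2 * q) ≤ t ^ q := by
  calc w ^ (2 * q) ≤ (Real.sqrt t) ^ (2 * q) := Real.rpow_le_rpow hw h (by positivity)
    _ = t ^ q := by
      rw [Real.sqrt_eq_rpow, ← Real.rpow_mul ht]
      congr 1
      ring

theorem bs_small_int {d : ℕ} {q : ℝ} {W F : EE d → ℝ} (hW0 : ∀ x, 0 ≤ W x)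
    (hF : Integrable F) (h : ∀ x, W x ^ (2 * q) ≤ F x) :
    0 ≤ ∫ x, W x ^ (2 * q) ∧ ∫ x, W x ^ (2 * q) ≤ ∫ x, F x := by
  refine ⟨integral_nonneg fun x => Real.rpow_nonneg (hW0 x) _, ?_⟩
  exact integral_mono_of_nonneg (Eventually.of_forall fun x => Real.rpow_nonneg (hW0 x) _) hF
    (Eventually.of_forall h)

theorem bs_small_split {d : ℕ} (W : EE d → ℝ) (hW : Wt W) (S : Set (EE d))
    (hS : MeasurableSet S) : Wt (S.indicator W) ∧ Wt (Sᶜ.indicator W) ∧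
      ∀ f : HH d, wm W f = wm (S.indicator W) f + wm (Sᶜ.indicator W) f := by
  have key : ∀ T : Set (EE d), MeasurableSet T → Wt (T.indicator W) := by
    intro T hT
    obtain ⟨h1, h2, ⟨B, hB⟩, ⟨r, hr⟩⟩ := hW
    refine ⟨h1.indicator hT, fun x => Set.indicator_nonneg (fun x _ => h2 x) x, ⟨B, fun x => ?_⟩,
      ⟨r, fun x hx => ?_⟩⟩
    · exact (Set.indicator_le_self' (fun x _ => h2 x) x).trans (hB x)
    · by_cases hxT : x ∈ T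
      · rw [Set.indicator_of_mem hxT, hr x hx]
      · rw [Set.indicator_of_notMem hxT]
  refine ⟨key S hS, key Sᶜ hS.compl, fun f => ?_⟩
  apply Lp.ext
  filter_upwards [wm_ae W hW f, wm_ae _ (key S hS) f, wm_ae _ (key Sᶜ hS.compl) f,
    Lp.coeFn_add (wm (S.indicator W) f) (wm (Sᶜ.indicator W) f)] with x h1 h2 h3 h4
  rw [h1, h4, Pi.add_apply, h2, h3, ← add_mul, ← Complex.ofReal_add]
  congr 2
  by_cases hx : x ∈ S
  · rw [Set.indicator_of_mem hx, Set.indicator_of_notMem (show x ∉ Sᶜ from fun h => h hx), add_zero]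
  · rw [Set.indicator_of_notMem hx, Set.indicator_of_mem (show x ∈ Sᶜ from hx), zero_add]

theorem bs_small_ek {e h : ℝ} (he : 0 < e) (hh : 0 < h) (q D : ℝ) :
    e ^ (-q) * (Real.sqrt e / h) ^ D = e ^ (D / 2 - q) * h ^ (-D) := by
  rw [Real.div_rpow (Real.sqrt_nonneg _) hh.le, Real.sqrt_eq_rpow, ← Real.rpow_mul he.le,
    Real.rpow_neg hh.le, div_eq_mul_inv, ← mul_assoc, ← Real.rpow_add he]
  congr 2
  ring

theorem bs_small_small {s c : ℝ} (hs : 0 < s) (hc : 0 < c) :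
    ∃ h₀ : ℝ, 0 < h₀ ∧ ∀ h, 0 < h → h < h₀ → h ^ s ≤ c := by
  refine ⟨c ^ (1 / s), Real.rpow_pos_of_pos hc _, fun h h0 h1 => ?_⟩
  calc h ^ s ≤ (c ^ (1 / s)) ^ s := Real.rpow_le_rpow h0.le h1.le hs.le
    _ = c := by
      rw [← Real.rpow_mul hc.le, one_div_mul_cancel hs.ne', Real.rpow_one]

/-- the truncated potential -/
def bs_small_G {d : ℕ} (V : EE d → ℂ) (m0 : ℝ) : Set (EE d) := {x | ‖x‖ ≤ m0 ∧ ‖V x‖ ≤ m0}

theorem bs_small_Gm {d : ℕ} {V : EE d → ℂ} (hV : Measurable V) (m0 : ℝ) :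
    MeasurableSet (bs_small_G V m0) :=
  (measurableSet_le measurable_norm measurable_const).inter
    (measurableSet_le hV.norm measurable_const)

theorem bs_small_VGint {d : ℕ} {V : EE d → ℂ} (hV : Measurable V) (m0 : ℝ) (hm0 : 0 ≤ m0) (q : ℝ)
    (hq : 0 < q) : Integrable (fun x => ‖(bs_small_G V m0).indicator V x‖ ^ q) := by
  have hG := bs_small_Gm hV m0
  have hint : Integrable ((Metric.closedBall (0 : EE d) m0).indicator (fun _ => m0 ^ q)) := by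
    refine (integrable_indicator_iff measurableSet_closedBall).2 ?_
    exact integrableOn_const (isCompact_closedBall (0 : EE d) m0).measure_lt_top.ne
  refine Integrable.mono' hint ?_ (Eventually.of_forall fun x => ?_)
  · exact ((hV.indicator hG).norm.pow_const q).aestronglyMeasurable
  · rw [Real.norm_eq_abs, abs_of_nonneg (Real.rpow_nonneg (norm_nonneg _) _)]
    by_cases hx : x ∈ bs_small_G V m0
    · have hx' : x ∈ Metric.closedBall (0 : EE d) m0 := by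
        rw [Metric.mem_closedBall, dist_zero_right]
        exact hx.1
      rw [Set.indicator_of_mem hx, Set.indicator_of_mem hx']
      exact Real.rpow_le_rpow (norm_nonneg _) hx.2 hq.le
    · rw [Set.indicator_of_notMem hx, norm_zero, Real.zero_rpow hq.ne']
      exact Set.indicator_nonneg (fun _ _ => Real.rpow_nonneg hm0 _) x

theorem bs_small_nd {d : ℕ} (V : EE d → ℂ) (k e : ℝ) (he : 0 < e) (x : EE d) :
    ‖V (k⁻¹ • x) / (e : ℂ)‖ = ‖V (k⁻¹ • x)‖ / e := by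
  rw [norm_div, Complex.norm_real, Real.norm_eq_abs, abs_of_pos he]

/-- the truncated part, `γ < 1/2` -/
theorem bs_small_one_lt (d : ℕ) (hd : 2 ≤ d) (γ : ℝ) (hγ : 0 < γ) (hγ' : γ < 1 / 2)
    (V : EE d → ℂ) (hV : Measurable V) (I : ℝ) (hI : 0 < I) (m0 : ℝ) (hm0 : 1 ≤ m0) :
    ∃ h₀ : ℝ, 0 < h₀ ∧ ∀ (h e : ℝ) (ζ : ℂ), 0 < h → h < h₀ → 0 < e → ‖ζ‖ = 1 → ζ ≠ 1 →
      h ^ (-(d : ℝ)) * I ≤ e ^ γ → ∀ W₁ W₂ : EE d → ℝ, Wt W₁ → Wt W₂ →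
      (∀ x, W₁ x ≤ Real.sqrt (‖(bs_small_G V m0).indicator V ((Real.sqrt e / h)⁻¹ • x)‖ / e)) →
      (∀ x, W₂ x ≤ Real.sqrt (‖(bs_small_G V m0).indicator V ((Real.sqrt e / h)⁻¹ • x)‖ / e)) →
      ∀ f g : HH d, ‖⟪wm W₁ g, Rz d ζ (wm W₂ f)⟫_ℂ‖ ≤ 1 / 4 * ‖f‖ * ‖g‖ := by
  have hd2 : (2 : ℝ) ≤ d := by exact_mod_cast hd
  set q : ℝ := ((d : ℝ) + 1) / 2 with hq
  have hq0 : 0 < q := by rw [hq]; linarith
  obtain ⟨C, hC, -, hK⟩ := bs_small_K d (by omega) q (fun h => absurd h (by omega))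
    (by rw [hq]; linarith) le_rfl
  set VG : EE d → ℂ := (bs_small_G V m0).indicator V with hVG
  have hVGm : Measurable VG := hV.indicator (bs_small_Gm hV m0)
  have hVGi : Integrable (fun x => ‖VG x‖ ^ q) :=
    bs_small_VGint hV m0 (by linarith) q hq0
  set J : ℝ := ∫ x, ‖VG x‖ ^ q with hJ
  have hJ0 : 0 ≤ J := integral_nonneg fun x => Real.rpow_nonneg (norm_nonneg _) _
  set A : ℝ := I ^ (-(1 / (2 * γ))) * J with hA
  have hA0 : 0 ≤ A := mul_nonneg (Real.rpow_nonneg hI.le _) hJ0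
  set u : ℝ := 1 / (2 * (C + 1)) with hu
  have hu0 : 0 < u := by rw [hu]; positivity
  have hCu : C * u * u ≤ 1 / 4 := by
    rw [hu]
    have h1 : C * (1 / (2 * (C + 1))) * (1 / (2 * (C + 1))) = C / (4 * (C + 1) ^ 2) := by
      field_simp
      norm_num
    rw [h1, div_le_div_iff₀ (by positivity) (by norm_num)]
    nlinarith
  have hs : 0 < (d : ℝ) * (1 / (2 * γ)) - d := by
    have h1 : 1 < 1 / (2 * γ) := by
      rw [lt_div_iff₀ (by positivity)]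
      linarith
    nlinarith
  have hc0 : 0 < u ^ (2 * q) / (A + 1) := div_pos (Real.rpow_pos_of_pos hu0 _) (by linarith)
  obtain ⟨h₀, hh₀, hsm⟩ := bs_small_small hs hc0
  refine ⟨h₀, hh₀, ?_⟩
  intro h e ζ hh hh1 he hζ hζ1 hyp W₁ W₂ hW₁ hW₂ hb₁ hb₂ f g
  set k : ℝ := Real.sqrt e / h with hk
  have hk0 : 0 < k := div_pos (Real.sqrt_pos.2 he) hh
  obtain ⟨-, hUi, hUint⟩ := dil_ok d VG hVGm k e hk0 he q hq0 hVGi Set.univ MeasurableSet.univ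
  have hset : {x : EE d | k⁻¹ • x ∈ (Set.univ : Set (EE d))} = Set.univ := by
    ext x
    simp
  rw [hset, Measure.restrict_univ, ← hJ, bs_small_ek he hh] at hUint
  -- bound of the integral
  have hX : ∫ x, ‖VG (k⁻¹ • x) / (e : ℂ)‖ ^ q ≤ u ^ (2 * q) := by
    rw [hUint]
    have e1 : (d : ℝ) / 2 - q = -(1 / 2) := by rw [hq]; ring
    rw [e1]
    have h2 : e ^ (-(1 / 2) : ℝ) ≤ (h ^ (-(d : ℝ)) * I) ^ (-(1 / (2 * γ))) := by
      have h3 : (e ^ γ) ^ (-(1 / (2 * γ))) ≤ (h ^ (-(d : ℝ)) * I) ^ (-(1 / (2 * γ))) :=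
        Real.rpow_le_rpow_of_nonpos (mul_pos (Real.rpow_pos_of_pos hh _) hI) hyp
          (by
            have : 0 < 1 / (2 * γ) := by positivity
            linarith)
      rw [← Real.rpow_mul he.le] at h3
      have e2 : γ * (-(1 / (2 * γ))) = -(1 / 2) := by
        field_simp
      rwa [e2] at h3
    have h4 : (h ^ (-(d : ℝ)) * I) ^ (-(1 / (2 * γ))) =
        h ^ ((d : ℝ) * (1 / (2 * γ))) * I ^ (-(1 / (2 * γ))) := by
      rw [Real.mul_rpow (Real.rpow_nonneg hh.le _) hI.le, ← Real.rpow_mul hh.le]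
      congr 2
      ring
    have h5 : h ^ ((d : ℝ) * (1 / (2 * γ))) * h ^ (-(d : ℝ)) =
        h ^ ((d : ℝ) * (1 / (2 * γ)) - d) := by
      rw [← Real.rpow_add hh]
      congr 1
    have hhd : 0 < h ^ (-(d : ℝ)) := Real.rpow_pos_of_pos hh _
    calc e ^ (-(1 / 2) : ℝ) * h ^ (-(d : ℝ)) * J
        ≤ (h ^ ((d : ℝ) * (1 / (2 * γ))) * I ^ (-(1 / (2 * γ)))) * h ^ (-(d : ℝ)) * J := by
          rw [← h4]
          exact mul_le_mul_of_nonneg_right (mul_le_mul_of_nonneg_right h2 hhd.le) hJ0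
      _ = A * (h ^ ((d : ℝ) * (1 / (2 * γ))) * h ^ (-(d : ℝ))) := by rw [hA]; ring
      _ = A * h ^ ((d : ℝ) * (1 / (2 * γ)) - d) := by rw [h5]
      _ ≤ A * (u ^ (2 * q) / (A + 1)) := mul_le_mul_of_nonneg_left (hsm h hh hh1) hA0
      _ ≤ u ^ (2 * q) := by
          rw [mul_div_assoc', div_le_iff₀ (by linarith)]
          nlinarith [Real.rpow_pos_of_pos hu0 (2 * q)]
  have hN : ∀ W : EE d → ℝ, Wt W →
      (∀ x, W x ≤ Real.sqrt (‖VG (k⁻¹ • x)‖ / e)) →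
      0 ≤ (∫ x, W x ^ (2 * q)) ^ (1 / (2 * q)) ∧ (∫ x, W x ^ (2 * q)) ^ (1 / (2 * q)) ≤ u := by
    intro W hW hb
    obtain ⟨i1, i2⟩ := bs_small_int (q := q) (W := W) (F := fun x => ‖VG (k⁻¹ • x) / (e : ℂ)‖ ^ q)
      hW.2.1 hUi (fun x => by
        rw [bs_small_nd VG k e he x]
        exact bs_small_pw (hW.2.1 x) (by positivity) hq0 (hb x))
    refine ⟨Real.rpow_nonneg i1 _, ?_⟩
    calc (∫ x, W x ^ (2 * q)) ^ (1 / (2 * q)) ≤ (u ^ (2 * q)) ^ (1 / (2 * q)) :=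
          Real.rpow_le_rpow i1 (i2.trans hX) (by positivity)
      _ = u := by
        rw [← Real.rpow_mul hu0.le, mul_one_div_cancel (by positivity), Real.rpow_one]
  obtain ⟨n1, n2⟩ := hN W₁ hW₁ hb₁
  obtain ⟨n3, n4⟩ := hN W₂ hW₂ hb₂
  refine (hK ζ hζ hζ1 W₁ W₂ hW₁ hW₂ f g).trans ?_
  have h6 : C * (∫ x, W₁ x ^ (2 * q)) ^ (1 / (2 * q)) * (∫ x, W₂ x ^ (2 * q)) ^ (1 / (2 * q)) ≤
      1 / 4 := by
    refine le_trans ?_ hCu
    exact mul_le_mul (mul_le_mul_of_nonneg_left n2 hC.le) n4 n3 (by positivity)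
  exact mul_le_mul_of_nonneg_right (mul_le_mul_of_nonneg_right h6 (norm_nonneg _)) (norm_nonneg _)

/-- the truncated part, `γ = 1/2` -/
theorem bs_small_one_eq (d : ℕ) (hd : 2 ≤ d)
    (V : EE d → ℂ) (hV : Measurable V) (I : ℝ) (hI : 0 < I) (m0 : ℝ) (hm0 : 1 ≤ m0) :
    ∃ h₀ : ℝ, 0 < h₀ ∧ ∀ (h e : ℝ) (ζ : ℂ), 0 < h → h < h₀ → 0 < e → ‖ζ‖ = 1 → ζ ≠ 1 →
      h ^ (-(d : ℝ)) * I ≤ e ^ (1 / 2 : ℝ) → ∀ W₁ W₂ : EE d → ℝ, Wt W₁ → Wt W₂ →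
      (∀ x, W₁ x ≤ Real.sqrt (‖(bs_small_G V m0).indicator V ((Real.sqrt e / h)⁻¹ • x)‖ / e)) →
      (∀ x, W₂ x ≤ Real.sqrt (‖(bs_small_G V m0).indicator V ((Real.sqrt e / h)⁻¹ • x)‖ / e)) →
      ∀ f g : HH d, ‖⟪wm W₁ g, Rz d ζ (wm W₂ f)⟫_ℂ‖ ≤ 1 / 4 * ‖f‖ * ‖g‖ := by
  have hd2 : (2 : ℝ) ≤ d := by exact_mod_cast hd
  have hm00 : 0 < m0 := by linarith
  obtain ⟨a, C, ha, hC, hK⟩ := agmon d hd
  have ha2 : a * ((d : ℝ) + 1) < 2 * d := by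
    rwa [lt_div_iff₀ (by linarith)] at ha
  have ha3 : a < 2 := by nlinarith
  have hs : 0 < -(d : ℝ) * (a - 2) - a := by nlinarith
  set B : ℝ := C * (m0 ^ a * m0) * I ^ (a - 2) with hB
  have hB0 : 0 < B := by
    have := Real.rpow_pos_of_pos hm00 a
    have := Real.rpow_pos_of_pos hI (a - 2)
    positivity
  obtain ⟨h₁, hh₁, hsm1⟩ := bs_small_small hs (show 0 < 1 / (4 * B) by positivity)
  obtain ⟨h₂, hh₂, hsm2⟩ := bs_small_small (s := (d : ℝ) + 1) (by linarith) hI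
  refine ⟨min h₁ h₂, lt_min hh₁ hh₂, ?_⟩
  intro h e ζ hh hhm he hζ hζ1 hyp W₁ W₂ hW₁ hW₂ hb₁ hb₂ f g
  have hlt1 := lt_of_lt_of_le hhm (min_le_left _ _)
  have hlt2 := lt_of_lt_of_le hhm (min_le_right _ _)
  set k : ℝ := Real.sqrt e / h with hk
  have hse : 0 < Real.sqrt e := Real.sqrt_pos.2 he
  have hk0 : 0 < k := div_pos hse hh
  rw [← Real.sqrt_eq_rpow] at hyp
  have hhd : 0 < h ^ (-(d : ℝ)) := Real.rpow_pos_of_pos hh _
  have hk1 : 1 ≤ k := by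
    rw [hk, le_div_iff₀ hh, one_mul]
    refine le_trans ?_ hyp
    have e1 : h = h ^ (-(d : ℝ)) * h ^ ((d : ℝ) + 1) := by
      rw [← Real.rpow_add hh]
      norm_num
    calc h = h ^ (-(d : ℝ)) * h ^ ((d : ℝ) + 1) := e1
      _ ≤ h ^ (-(d : ℝ)) * I := mul_le_mul_of_nonneg_left (hsm2 h hh hlt2) hhd.le
  set L : ℝ := k * m0 with hL
  have hL1 : 1 ≤ L := by nlinarith
  have hLb : C * L ^ a * (m0 / e) ≤ 1 / 4 := by
    have e1 : L ^ a = e ^ (a / 2) * h ^ (-a) * m0 ^ a := by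
      rw [hL, Real.mul_rpow hk0.le hm00.le, hk, Real.div_rpow hse.le hh.le, Real.sqrt_eq_rpow,
        ← Real.rpow_mul he.le, Real.rpow_neg hh.le, div_eq_mul_inv]
      congr 3
      ring
    have e2 : e ^ (a / 2) / e = e ^ (a / 2 - 1) := by
      rw [Real.rpow_sub he, Real.rpow_one]
    have e3 : C * L ^ a * (m0 / e) = C * (m0 ^ a * m0) * (e ^ (a / 2 - 1) * h ^ (-a)) := by
      rw [e1, ← e2]
      field_simp
    have h3 : e ^ (a / 2 - 1) ≤ (h ^ (-(d : ℝ)) * I) ^ (a - 2) := by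
      have h4 : (h ^ (-(d : ℝ)) * I) ^ 2 ≤ e := by
        have h5 := pow_le_pow_left₀ (by positivity) hyp 2
        rwa [Real.sq_sqrt he.le] at h5
      have h6 : e ^ (a / 2 - 1) ≤ ((h ^ (-(d : ℝ)) * I) ^ 2) ^ (a / 2 - 1) :=
        Real.rpow_le_rpow_of_nonpos (by positivity) h4 (by linarith)
      refine h6.trans (le_of_eq ?_)
      rw [← Real.rpow_natCast, ← Real.rpow_mul (by positivity)]
      congr 1
      push_cast
      ring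
    have h7 : (h ^ (-(d : ℝ)) * I) ^ (a - 2) = h ^ (-(d : ℝ) * (a - 2)) * I ^ (a - 2) := by
      rw [Real.mul_rpow hhd.le hI.le, ← Real.rpow_mul hh.le]
    have h8 : h ^ (-(d : ℝ) * (a - 2)) * h ^ (-a) = h ^ (-(d : ℝ) * (a - 2) - a) := by
      rw [← Real.rpow_add hh]
      congr 1
    have hha : 0 < h ^ (-a) := Real.rpow_pos_of_pos hh _
    have hma : 0 < C * (m0 ^ a * m0) := by
      have := Real.rpow_pos_of_pos hm00 a
      positivity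
    rw [e3]
    calc C * (m0 ^ a * m0) * (e ^ (a / 2 - 1) * h ^ (-a))
        ≤ C * (m0 ^ a * m0) * ((h ^ (-(d : ℝ) * (a - 2)) * I ^ (a - 2)) * h ^ (-a)) := by
          rw [← h7]
          exact mul_le_mul_of_nonneg_left (mul_le_mul_of_nonneg_right h3 hha.le) hma.le
      _ = B * (h ^ (-(d : ℝ) * (a - 2)) * h ^ (-a)) := by rw [hB]; ring
      _ = B * h ^ (-(d : ℝ) * (a - 2) - a) := by rw [h8]
      _ ≤ B * (1 / (4 * B)) := mul_le_mul_of_nonneg_left (hsm1 h hh hlt1) hB0.le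
      _ = 1 / 4 := by field_simp
  have hbd : ∀ W : EE d → ℝ, Wt W →
      (∀ x, W x ≤ Real.sqrt (‖(bs_small_G V m0).indicator V (k⁻¹ • x)‖ / e)) →
      (∀ x, W x ≤ Real.sqrt (m0 / e)) ∧ ∀ x, L < ‖x‖ → W x = 0 := by
    intro W hW hb
    constructor
    · intro x
      refine (hb x).trans (Real.sqrt_le_sqrt ?_)
      refine div_le_div_of_nonneg_right ?_ he.le
      by_cases hx : k⁻¹ • x ∈ bs_small_G V m0
      · rw [Set.indicator_of_mem hx]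
        exact hx.2
      · rw [Set.indicator_of_notMem hx, norm_zero]
        exact hm00.le
    · intro x hx
      have hx' : k⁻¹ • x ∉ bs_small_G V m0 := by
        intro hmem
        have h1 := hmem.1
        rw [norm_smul, Real.norm_eq_abs, abs_of_pos (inv_pos.2 hk0)] at h1
        have h2 : ‖x‖ ≤ k * m0 := by
          calc ‖x‖ = k * (k⁻¹ * ‖x‖) := by field_simp
            _ ≤ k * m0 := mul_le_mul_of_nonneg_left h1 hk0.le
        linarith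
      have h3 := hb x
      rw [Set.indicator_of_notMem hx', norm_zero, zero_div, Real.sqrt_zero] at h3
      exact le_antisymm h3 (hW.2.1 x)
  have hop : ∀ W : EE d → ℝ, Wt W → (∀ x, W x ≤ Real.sqrt (m0 / e)) → (∀ x, L < ‖x‖ → W x = 0) →
      ∀ g : HH d, ‖wm W g‖ ≤ Real.sqrt (m0 / e) * ‖g‖ ∧
        ∀ᵐ x : EE d, L < ‖x‖ → (wm W g : EE d → ℂ) x = 0 := by
    intro W hW h1 h2 g
    constructor
    · refine mulOp_norm (fun x => ((W x : ℝ) : ℂ)) (Complex.measurable_ofReal.comp hW.1)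
        (Real.sqrt (m0 / e)) (fun x => ?_) g
      rw [Complex.norm_real, Real.norm_eq_abs, abs_of_nonneg (hW.2.1 x)]
      exact h1 x
    · filter_upwards [wm_ae W hW g] with x hx hxL
      rw [hx, h2 x hxL, Complex.ofReal_zero, zero_mul]
  obtain ⟨b1, b2⟩ := hbd W₁ hW₁ hb₁
  obtain ⟨b3, b4⟩ := hbd W₂ hW₂ hb₂
  obtain ⟨o1, o2⟩ := hop W₁ hW₁ b1 b2 g
  obtain ⟨o3, o4⟩ := hop W₂ hW₂ b3 b4 f
  have hLa : 0 ≤ C * L ^ a := by
    have := Real.rpow_pos_of_pos (lt_of_lt_of_le one_pos hL1) a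
    positivity
  have hprod : ‖wm W₂ f‖ * ‖wm W₁ g‖ ≤ m0 / e * (‖f‖ * ‖g‖) := by
    have hme : 0 ≤ m0 / e := by positivity
    calc ‖wm W₂ f‖ * ‖wm W₁ g‖ ≤ (Real.sqrt (m0 / e) * ‖f‖) * (Real.sqrt (m0 / e) * ‖g‖) :=
          mul_le_mul o3 o1 (norm_nonneg _) (by positivity)
      _ = (Real.sqrt (m0 / e) * Real.sqrt (m0 / e)) * (‖f‖ * ‖g‖) := by ring
      _ = m0 / e * (‖f‖ * ‖g‖) := by rw [Real.mul_self_sqrt hme]
  have hfin : C * L ^ a * (‖wm W₂ f‖ * ‖wm W₁ g‖) ≤ 1 / 4 * ‖f‖ * ‖g‖ := by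
    calc C * L ^ a * (‖wm W₂ f‖ * ‖wm W₁ g‖) ≤ C * L ^ a * (m0 / e * (‖f‖ * ‖g‖)) :=
          mul_le_mul_of_nonneg_left hprod hLa
      _ = (C * L ^ a * (m0 / e)) * (‖f‖ * ‖g‖) := by ring
      _ ≤ 1 / 4 * (‖f‖ * ‖g‖) := mul_le_mul_of_nonneg_right hLb (by positivity)
      _ = 1 / 4 * ‖f‖ * ‖g‖ := by ring
  refine ext_z (wm W₂ f) (wm W₁ g) _ (fun z hz hz1 => ⟨?_, ?_⟩) ζ hζ hζ1
  · refine (hK L z hL1 hz hz1 (wm W₂ f) (wm W₁ g) o4 o2).trans ?_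
    rw [mul_assoc]
    exact hfin
  · refine (hK L z hL1 hz hz1 (wm W₁ g) (wm W₂ f) o2 o4).trans ?_
    rw [mul_assoc, mul_comm ‖wm W₁ g‖]
    exact hfin

theorem bs_small_wn {d : ℕ} (V : EE d → ℂ) (n : ℕ) (x : EE d) :
    0 ≤ wn V n x ∧ wn V n x ≤ Real.sqrt ‖V x‖ := by
  unfold wn
  by_cases hx : x ∈ {x : EE d | ‖x‖ ≤ n ∧ ‖V x‖ ≤ n}
  · rw [Set.indicator_of_mem hx]
    exact ⟨Real.sqrt_nonneg _, le_rfl⟩
  · rw [Set.indicator_of_notMem hx]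
    exact ⟨le_rfl, Real.sqrt_nonneg _⟩

theorem bs_small_N {d : ℕ} {p : ℝ} (hp : 0 < p) {W F : EE d → ℝ} (hW0 : ∀ x, 0 ≤ W x)
    (hF : Integrable F) (h : ∀ x, W x ^ (2 * p) ≤ F x) {c : ℝ} (hc : 0 ≤ c)
    (hFc : ∫ x, F x ≤ c ^ (2 * p)) :
    0 ≤ (∫ x, W x ^ (2 * p)) ^ (1 / (2 * p)) ∧ (∫ x, W x ^ (2 * p)) ^ (1 / (2 * p)) ≤ c := by
  obtain ⟨i1, i2⟩ := bs_small_int hW0 hF h
  refine ⟨Real.rpow_nonneg i1 _, ?_⟩
  calc (∫ x, W x ^ (2 * p)) ^ (1 / (2 * p)) ≤ (c ^ (2 * p)) ^ (1 / (2 * p)) :=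
        Real.rpow_le_rpow i1 (i2.trans hFc) (by positivity)
    _ = c := by
      rw [← Real.rpow_mul hc, mul_one_div_cancel (by positivity), Real.rpow_one]

theorem bs_small_tail {d : ℕ} {V : EE d → ℂ} (hV : Measurable V) {p : ℝ}
    (hVp : Integrable (fun x => ‖V x‖ ^ p)) {c : ℝ} (hc : 0 < c) :
    ∃ m0 : ℝ, 1 ≤ m0 ∧ ∫ x in (bs_small_G V m0)ᶜ, ‖V x‖ ^ p ≤ c := by
  have hanti : Antitone (fun n : ℕ => (bs_small_G V (n : ℝ))ᶜ) := by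
    intro i j hij
    apply Set.compl_subset_compl.2
    intro x hx
    have : (i : ℝ) ≤ j := by exact_mod_cast hij
    exact ⟨hx.1.trans this, hx.2.trans this⟩
  have ht := Antitone.tendsto_setIntegral (μ := (volume : Measure (EE d)))
    (f := fun x => ‖V x‖ ^ p) (fun n : ℕ => (bs_small_Gm hV (n : ℝ)).compl) hanti
    hVp.integrableOn
  have hemp : ⋂ n : ℕ, (bs_small_G V (n : ℝ))ᶜ = ∅ := by
    rw [Set.eq_empty_iff_forall_notMem]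
    intro x hx
    rw [Set.mem_iInter] at hx
    obtain ⟨n, hn⟩ := exists_nat_ge (max ‖x‖ ‖V x‖)
    exact hx n ⟨(le_max_left _ _).trans hn, (le_max_right _ _).trans hn⟩
  rw [hemp, Measure.restrict_empty, integral_zero_measure] at ht
  have h1 := (ht.eventually (eventually_le_nhds hc)).and (eventually_ge_atTop 1)
  obtain ⟨n, hn, hn1⟩ := h1.exists
  exact ⟨n, by exact_mod_cast hn1, hn⟩

theorem bs_small_zeta {E : ℂ} (hE : 0 < ‖E‖) (h : ¬ (0 ≤ E.re ∧ E.im = 0)) :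
    ‖E / ((‖E‖ : ℝ) : ℂ)‖ = 1 ∧ E / ((‖E‖ : ℝ) : ℂ) ≠ 1 := by
  have hne : ((‖E‖ : ℝ) : ℂ) ≠ 0 := by
    rw [Ne, Complex.ofReal_eq_zero]
    exact hE.ne'
  constructor
  · rw [norm_div, Complex.norm_real, Real.norm_eq_abs, abs_of_pos hE, div_self hE.ne']
  · intro h1
    rw [div_eq_one_iff_eq hne] at h1
    apply h
    rw [h1]
    exact ⟨by rw [Complex.ofReal_re]; exact hE.le, Complex.ofReal_im _⟩

theorem bs_small_four {d : ℕ} (R : HH d →L[ℂ] HH d) {a a1 a2 b b1 b2 : HH d}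
    (ha : a = a1 + a2) (hb : b = b1 + b2) {K1 K2 K3 K4 : ℝ} (h1 : ‖⟪a1, R b1⟫_ℂ‖ ≤ K1)
    (h2 : ‖⟪a1, R b2⟫_ℂ‖ ≤ K2) (h3 : ‖⟪a2, R b1⟫_ℂ‖ ≤ K3) (h4 : ‖⟪a2, R b2⟫_ℂ‖ ≤ K4) :
    ‖⟪a, R b⟫_ℂ‖ ≤ K1 + K2 + (K3 + K4) := by
  rw [ha, hb, map_add, inner_add_left, inner_add_right, inner_add_right]
  refine (norm_add_le _ _).trans ?_
  refine (add_le_add (norm_add_le _ _) (norm_add_le _ _)).trans ?_
  exact add_le_add (add_le_add h1 h2) (add_le_add h3 h4)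

theorem bs_small_gen {C a b x y : ℝ} (hC : 0 < C) (hx : 0 ≤ x) (hy : 0 ≤ y) (ha : 0 ≤ a)
    (hb : 0 ≤ b) (hab : a ≤ 1 ∧ b ≤ 1 / (12 * C) ∨ a ≤ 1 / (12 * C) ∧ b ≤ 1) :
    C * a * b * x * y ≤ 1 / 12 * x * y := by
  have hc12 : 0 < 1 / (12 * C) := by positivity
  have h3 : a * b ≤ 1 / (12 * C) := by
    rcases hab with ⟨h4, h5⟩ | ⟨h4, h5⟩
    · calc a * b ≤ 1 * (1 / (12 * C)) := mul_le_mul h4 h5 hb zero_le_one
        _ = _ := one_mul _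
    · calc a * b ≤ (1 / (12 * C)) * 1 := mul_le_mul h4 h5 hb hc12.le
        _ = _ := mul_one _
  have h6 : C * (a * b) ≤ 1 / 12 := by
    calc C * (a * b) ≤ C * (1 / (12 * C)) := mul_le_mul_of_nonneg_left h3 hC.le
      _ = 1 / 12 := by field_simp
  calc C * a * b * x * y = C * (a * b) * (x * y) := by ring
    _ ≤ 1 / 12 * (x * y) := mul_le_mul_of_nonneg_right h6 (by positivity)
    _ = _ := by ring

theorem bs_small_two (d : ℕ) (U : EE d → ℂ) (hUm : Measurable U) (p : ℝ) (hp0 : 0 < p)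
    (hUi : Integrable (fun x => ‖U x‖ ^ p)) (C : ℝ) (hC : 0 < C) (S : Set (EE d))
    (hSm : MeasurableSet S) (F : EE d → ℝ) (hSF : ∀ x ∈ S, ‖U x‖ ≤ F x)
    (hSint : ∫ x in Sᶜ, ‖U x‖ ^ p ≤ (1 / (12 * C)) ^ (2 * p)) (R : HH d →L[ℂ] HH d)
    (hK : ∀ W₁ W₂ : EE d → ℝ, Wt W₁ → Wt W₂ → ∀ f g : HH d,
      ‖⟪wm W₁ g, R (wm W₂ f)⟫_ℂ‖ ≤
        C * (∫ x, W₁ x ^ (2 * p)) ^ (1 / (2 * p)) * (∫ x, W₂ x ^ (2 * p)) ^ (1 / (2 * p)) *
          ‖f‖ * ‖g‖)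
    (hone : ∀ W₁ W₂ : EE d → ℝ, Wt W₁ → Wt W₂ → (∀ x, W₁ x ≤ Real.sqrt (F x)) →
      (∀ x, W₂ x ≤ Real.sqrt (F x)) →
      ∀ f g : HH d, ‖⟪wm W₁ g, R (wm W₂ f)⟫_ℂ‖ ≤ 1 / 4 * ‖f‖ * ‖g‖)
    (hN1 : ∀ W : EE d → ℝ, (∀ x, 0 ≤ W x) → (∀ x, W x ≤ Real.sqrt ‖U x‖) →
      0 ≤ (∫ x, W x ^ (2 * p)) ^ (1 / (2 * p)) ∧ (∫ x, W x ^ (2 * p)) ^ (1 / (2 * p)) ≤ 1)
    (n m : ℕ) (f g : HH d) :
    ‖⟪wm (wn U n) g, R (wm (wn U m) f)⟫_ℂ‖ ≤ 1 / 2 * ‖f‖ * ‖g‖ := by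
  have hc12 : 0 < 1 / (12 * C) := by positivity
  have hw : ∀ n, Wt (wn U n) := fun n => wn_wt U hUm n
  have hsp := fun n => bs_small_split (wn U n) (hw n) S hSm
  have hb' : ∀ n x, S.indicator (wn U n) x ≤ Real.sqrt (F x) := by
    intro n x
    by_cases hx : x ∈ S
    · rw [Set.indicator_of_mem hx]
      exact (bs_small_wn U n x).2.trans (Real.sqrt_le_sqrt (hSF x hx))
    · rw [Set.indicator_of_notMem hx]
      exact Real.sqrt_nonneg _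
  have hle1 : ∀ (T : Set (EE d)) n x, T.indicator (wn U n) x ≤ Real.sqrt ‖U x‖ := by
    intro T n x
    exact (Set.indicator_le_self' (fun x _ => (bs_small_wn U n x).1) x).trans
      (bs_small_wn U n x).2
  have hnn : ∀ (T : Set (EE d)) n x, 0 ≤ T.indicator (wn U n) x := fun T n x =>
    Set.indicator_nonneg (fun x _ => (bs_small_wn U n x).1) x
  have hNa : ∀ (T : Set (EE d)) n, 0 ≤ (∫ x, T.indicator (wn U n) x ^ (2 * p)) ^ (1 / (2 * p)) ∧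
      (∫ x, T.indicator (wn U n) x ^ (2 * p)) ^ (1 / (2 * p)) ≤ 1 := fun T n =>
    hN1 _ (hnn T n) (hle1 T n)
  have hNb : ∀ n, 0 ≤ (∫ x, Sᶜ.indicator (wn U n) x ^ (2 * p)) ^ (1 / (2 * p)) ∧
      (∫ x, Sᶜ.indicator (wn U n) x ^ (2 * p)) ^ (1 / (2 * p)) ≤ 1 / (12 * C) := by
    intro n
    refine bs_small_N (F := Sᶜ.indicator (fun x => ‖U x‖ ^ p)) hp0 (hnn Sᶜ n)
      (hUi.indicator hSm.compl) (fun x => ?_) hc12.le ?_
    · by_cases hx : x ∈ Sᶜ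
      · rw [Set.indicator_of_mem hx, Set.indicator_of_mem hx]
        exact bs_small_pw (bs_small_wn U n x).1 (norm_nonneg _) hp0 (bs_small_wn U n x).2
      · rw [Set.indicator_of_notMem hx, Set.indicator_of_notMem hx,
          Real.zero_rpow (by positivity)]
    · rw [integral_indicator hSm.compl]
      exact hSint
  have t11 := hone _ _ (hsp n).1 (hsp m).1 (hb' n) (hb' m) f g
  have t12 := (hK _ _ (hsp n).1 (hsp m).2.1 f g).trans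
    (bs_small_gen hC (norm_nonneg f) (norm_nonneg g) (hNa S n).1 (hNb m).1
      (Or.inl ⟨(hNa S n).2, (hNb m).2⟩))
  have t21 := (hK _ _ (hsp n).2.1 (hsp m).1 f g).trans
    (bs_small_gen hC (norm_nonneg f) (norm_nonneg g) (hNb n).1 (hNa S m).1
      (Or.inr ⟨(hNb n).2, (hNa S m).2⟩))
  have t22 := (hK _ _ (hsp n).2.1 (hsp m).2.1 f g).trans
    (bs_small_gen hC (norm_nonneg f) (norm_nonneg g) (hNb n).1 (hNa Sᶜ m).1
      (Or.inr ⟨(hNb n).2, (hNa Sᶜ m).2⟩))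
  refine (bs_small_four R ((hsp n).2.2 g) ((hsp m).2.2 f) t11 t12 t21 t22).trans
    (le_of_eq ?_)
  ring

theorem bs_small (d : ℕ) (hd : 1 ≤ d) (γ : ℝ) (hγ : 0 < γ) (hγ' : γ ≤ 1 / 2) (h1 : d = 1 → γ = 1 / 2)
    (V : EE d → ℂ) (hV : Measurable V)
    (hVp : Integrable (fun x => ‖V x‖ ^ (γ + (d : ℝ) / 2)))
    (hI : 0 < ∫ x, ‖V x‖ ^ (γ + (d : ℝ) / 2)) :
    ∃ ħ₀ : ℝ, 0 < ħ₀ ∧ ∀ (ħ : ℝ) (E : ℂ), 0 < ħ → ħ < ħ₀ → ¬ (0 ≤ E.re ∧ E.im = 0) →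
      ħ ^ (-(d : ℝ)) * (∫ x, ‖V x‖ ^ (γ + (d : ℝ) / 2)) ≤ ‖E‖ ^ γ →
      ∃ θ : ℝ, θ < 1 ∧
        (∀ n m : ℕ, ∀ f g : HH d,
          ‖⟪wm (wn (fun x => V ((Real.sqrt ‖E‖ / ħ)⁻¹ • x) / ((‖E‖ : ℝ) : ℂ)) n) g,
            Rz d (E / ((‖E‖ : ℝ) : ℂ))
              (wm (wn (fun x => V ((Real.sqrt ‖E‖ / ħ)⁻¹ • x) / ((‖E‖ : ℝ) : ℂ)) m) f)⟫_ℂ‖ ≤
            θ * ‖f‖ * ‖g‖) ∧
        (∀ r : ℕ, ∃ C : ℝ, ∀ n : ℕ, ∀ f g : HH d,
          ‖⟪wm (wn (fun x => V ((Real.sqrt ‖E‖ / ħ)⁻¹ • x) / ((‖E‖ : ℝ) : ℂ)) n) g,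
            Rz d (E / ((‖E‖ : ℝ) : ℂ)) (proj (Metric.closedBall 0 r) f)⟫_ℂ‖ ≤ C * ‖f‖ * ‖g‖) := by
  have hd1 : (1 : ℝ) ≤ d := by exact_mod_cast hd
  set p : ℝ := γ + (d : ℝ) / 2 with hp
  have hp0 : 0 < p := by rw [hp]; positivity
  obtain ⟨C, hC, hC1, hK⟩ := bs_small_K d hd p
    (fun h => by rw [hp, h1 h, h]; norm_num) (by rw [hp]; linarith) (by rw [hp]; linarith)
  set I : ℝ := ∫ x, ‖V x‖ ^ p with hI'
  -- common facts
  have hE0 : ∀ (h : ℝ) (E : ℂ), 0 < h → h ^ (-(d : ℝ)) * I ≤ ‖E‖ ^ γ → 0 < ‖E‖ := by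
    intro h E hh hyp
    rcases (norm_nonneg E).eq_or_lt with h0 | h0
    · exfalso
      rw [← h0, Real.zero_rpow hγ.ne'] at hyp
      have : 0 < h ^ (-(d : ℝ)) * I := mul_pos (Real.rpow_pos_of_pos hh _) hI
      linarith
    · exact h0
  have haI : ∀ (h e : ℝ), 0 < h → 0 < e → h ^ (-(d : ℝ)) * I ≤ e ^ γ →
      e ^ (-p) * (Real.sqrt e / h) ^ (d : ℝ) * I ≤ 1 := by
    intro h e hh he hyp
    rw [bs_small_ek he hh]
    have e1 : (d : ℝ) / 2 - p = -γ := by rw [hp]; ring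
    rw [e1, mul_assoc]
    calc e ^ (-γ) * (h ^ (-(d : ℝ)) * I) ≤ e ^ (-γ) * e ^ γ :=
          mul_le_mul_of_nonneg_left hyp (Real.rpow_nonneg he.le _)
      _ = 1 := by
        rw [← Real.rpow_add he]
        simp
  -- the full norm is at most one
  have hN1 : ∀ (h e : ℝ), 0 < h → 0 < e → h ^ (-(d : ℝ)) * I ≤ e ^ γ → ∀ W : EE d → ℝ,
      (∀ x, 0 ≤ W x) → (∀ x, W x ≤ Real.sqrt ‖V ((Real.sqrt e / h)⁻¹ • x) / (e : ℂ)‖) →
      0 ≤ (∫ x, W x ^ (2 * p)) ^ (1 / (2 * p)) ∧ (∫ x, W x ^ (2 * p)) ^ (1 / (2 * p)) ≤ 1 := by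
    intro h e hh he hyp W hW0 hW
    have hk0 : 0 < Real.sqrt e / h := div_pos (Real.sqrt_pos.2 he) hh
    obtain ⟨-, hUi, hUint⟩ := dil_ok d V hV (Real.sqrt e / h) e hk0 he p hp0 hVp Set.univ
      MeasurableSet.univ
    have hset : {x : EE d | (Real.sqrt e / h)⁻¹ • x ∈ (Set.univ : Set (EE d))} = Set.univ := by
      ext x
      simp
    rw [hset, Measure.restrict_univ, ← hI'] at hUint
    refine bs_small_N hp0 hW0 hUi (fun x => bs_small_pw (hW0 x) (norm_nonneg _) hp0 (hW x))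
      zero_le_one ?_
    rw [hUint, Real.one_rpow]
    exact haI h e hh he hyp
  -- first bound
  have hfirst : ∃ h₀ : ℝ, 0 < h₀ ∧ ∀ (h e : ℝ) (ζ : ℂ), 0 < h → h < h₀ → 0 < e → ‖ζ‖ = 1 →
      ζ ≠ 1 → h ^ (-(d : ℝ)) * I ≤ e ^ γ → ∀ n m : ℕ, ∀ f g : HH d,
        ‖⟪wm (wn (fun x => V ((Real.sqrt e / h)⁻¹ • x) / (e : ℂ)) n) g,
          Rz d ζ (wm (wn (fun x => V ((Real.sqrt e / h)⁻¹ • x) / (e : ℂ)) m) f)⟫_ℂ‖ ≤
          1 / 2 * ‖f‖ * ‖g‖ := by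
    rcases Nat.lt_or_ge 1 d with hd2 | hd2
    · -- `d ≥ 2`
      have hc0 : 0 < I * (1 / (12 * C)) ^ (2 * p) := mul_pos hI (by positivity)
      obtain ⟨m0, hm0, htail⟩ := bs_small_tail hV hVp hc0
      have hone : ∃ h₀ : ℝ, 0 < h₀ ∧ ∀ (h e : ℝ) (ζ : ℂ), 0 < h → h < h₀ → 0 < e → ‖ζ‖ = 1 →
          ζ ≠ 1 → h ^ (-(d : ℝ)) * I ≤ e ^ γ → ∀ W₁ W₂ : EE d → ℝ, Wt W₁ → Wt W₂ →
          (∀ x, W₁ x ≤ Real.sqrt (‖(bs_small_G V m0).indicator V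
            ((Real.sqrt e / h)⁻¹ • x)‖ / e)) →
          (∀ x, W₂ x ≤ Real.sqrt (‖(bs_small_G V m0).indicator V
            ((Real.sqrt e / h)⁻¹ • x)‖ / e)) →
          ∀ f g : HH d, ‖⟪wm W₁ g, Rz d ζ (wm W₂ f)⟫_ℂ‖ ≤ 1 / 4 * ‖f‖ * ‖g‖ := by
        rcases hγ'.lt_or_eq with hlt | heq
        · exact bs_small_one_lt d hd2 γ hγ hlt V hV I hI m0 hm0
        · rw [heq]
          exact bs_small_one_eq d hd2 V hV I hI m0 hm0
      obtain ⟨h₀, hh₀, hone⟩ := hone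
      refine ⟨h₀, hh₀, ?_⟩
      intro h e ζ hh hhlt he hζ hζ1 hyp n m f g
      have hk0 : 0 < Real.sqrt e / h := div_pos (Real.sqrt_pos.2 he) hh
      have hGm : MeasurableSet (bs_small_G V m0) := bs_small_Gm hV m0
      obtain ⟨hUm, hUi, hUint⟩ := dil_ok d V hV (Real.sqrt e / h) e hk0 he p hp0 hVp
        (bs_small_G V m0)ᶜ hGm.compl
      have ha0 : 0 ≤ e ^ (-p) * (Real.sqrt e / h) ^ (d : ℝ) :=
        mul_nonneg (Real.rpow_nonneg he.le _) (Real.rpow_nonneg hk0.le _)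
      have hSint : ∫ x in {x : EE d | (Real.sqrt e / h)⁻¹ • x ∈ bs_small_G V m0}ᶜ,
          ‖V ((Real.sqrt e / h)⁻¹ • x) / (e : ℂ)‖ ^ p ≤ (1 / (12 * C)) ^ (2 * p) := by
        refine (le_of_eq hUint).trans ?_
        calc e ^ (-p) * (Real.sqrt e / h) ^ (d : ℝ) * ∫ x in (bs_small_G V m0)ᶜ, ‖V x‖ ^ p
            ≤ e ^ (-p) * (Real.sqrt e / h) ^ (d : ℝ) * (I * (1 / (12 * C)) ^ (2 * p)) :=
              mul_le_mul_of_nonneg_left htail ha0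
          _ = (e ^ (-p) * (Real.sqrt e / h) ^ (d : ℝ) * I) * (1 / (12 * C)) ^ (2 * p) := by ring
          _ ≤ 1 * (1 / (12 * C)) ^ (2 * p) :=
              mul_le_mul_of_nonneg_right (haI h e hh he hyp) (by positivity)
          _ = _ := one_mul _
      exact bs_small_two d _ hUm p hp0 hUi C hC
        {x : EE d | (Real.sqrt e / h)⁻¹ • x ∈ bs_small_G V m0}
        ((continuous_const_smul _).measurable hGm)
        (fun x => ‖(bs_small_G V m0).indicator V ((Real.sqrt e / h)⁻¹ • x)‖ / e)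
        (fun x hx => by
          rw [bs_small_nd V _ e he x, Set.indicator_of_mem
            (show (Real.sqrt e / h)⁻¹ • x ∈ bs_small_G V m0 from hx)]) hSint (Rz d ζ)
        (hK ζ hζ hζ1) (hone h e ζ hh hhlt he hζ hζ1 hyp) (hN1 h e hh he hyp) n m f g
    · -- `d = 1`
      have hdd : d = 1 := by omega
      refine ⟨1, one_pos, ?_⟩
      intro h e ζ hh _ he hζ hζ1 hyp n m f g
      have hk0 : 0 < Real.sqrt e / h := div_pos (Real.sqrt_pos.2 he) hh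
      obtain ⟨hUm, -, -⟩ := dil_ok d V hV (Real.sqrt e / h) e hk0 he p hp0 hVp Set.univ
        MeasurableSet.univ
      refine (hK ζ hζ hζ1 _ _ (wn_wt _ hUm n) (wn_wt _ hUm m) f g).trans ?_
      obtain ⟨a0, a1⟩ := hN1 h e hh he hyp
        (wn (fun x => V ((Real.sqrt e / h)⁻¹ • x) / (e : ℂ)) n)
        (fun x => (bs_small_wn _ n x).1) (fun x => (bs_small_wn _ n x).2)
      obtain ⟨b0, b1⟩ := hN1 h e hh he hyp
        (wn (fun x => V ((Real.sqrt e / h)⁻¹ • x) / (e : ℂ)) m)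
        (fun x => (bs_small_wn _ m x).1) (fun x => (bs_small_wn _ m x).2)
      rw [hC1 hdd]
      refine mul_le_mul_of_nonneg_right (mul_le_mul_of_nonneg_right ?_ (norm_nonneg _))
        (norm_nonneg _)
      calc 1 / 2 * _ * _ ≤ 1 / 2 * 1 * (1 : ℝ) :=
            mul_le_mul (mul_le_mul_of_nonneg_left a1 (by norm_num)) b1 b0 (by norm_num)
        _ = 1 / 2 := by norm_num
  obtain ⟨h₀, hh₀, hfirst⟩ := hfirst
  refine ⟨h₀, hh₀, fun h E hh hhlt hE hyp => ?_⟩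
  have he := hE0 h E hh hyp
  obtain ⟨hζ, hζ1⟩ := bs_small_zeta he hE
  refine ⟨1 / 2, by norm_num, hfirst h ‖E‖ _ hh hhlt he hζ hζ1 hyp, fun r => ?_⟩
  set W₂ : EE d → ℝ := (Metric.closedBall (0 : EE d) r).indicator (fun _ => (1 : ℝ)) with hW₂
  have hproj : (proj (Metric.closedBall (0 : EE d) r) : HH d →L[ℂ] HH d) = wm W₂ := by
    unfold proj wm
    congr 1
    funext x
    rw [hW₂]
    by_cases hx : x ∈ Metric.closedBall (0 : EE d) r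
    · rw [Set.indicator_of_mem hx, Set.indicator_of_mem hx, Complex.ofReal_one]
    · rw [Set.indicator_of_notMem hx, Set.indicator_of_notMem hx, Complex.ofReal_zero]
  have hWt : Wt W₂ := by
    refine ⟨measurable_const.indicator measurableSet_closedBall,
      fun x => Set.indicator_nonneg (fun _ _ => zero_le_one) x, ⟨1, fun x => ?_⟩,
      ⟨r, fun x hx => ?_⟩⟩
    · exact Set.indicator_le_self' (fun _ _ => zero_le_one) x
    · rw [hW₂, Set.indicator_of_notMem]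
      rw [Metric.mem_closedBall, dist_zero_right]
      exact not_le.2 hx
  have hk0 : 0 < Real.sqrt ‖E‖ / h := div_pos (Real.sqrt_pos.2 he) hh
  obtain ⟨hUm, -, -⟩ := dil_ok d V hV (Real.sqrt ‖E‖ / h) ‖E‖ hk0 he p hp0 hVp Set.univ
    MeasurableSet.univ
  refine ⟨C * 1 * (∫ x, W₂ x ^ (2 * p)) ^ (1 / (2 * p)), fun n f g => ?_⟩
  rw [hproj]
  refine (hK _ hζ hζ1 _ _ (wn_wt _ hUm n) hWt f g).trans ?_
  obtain ⟨a0, a1⟩ := hN1 h ‖E‖ hh he hyp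
    (wn (fun x => V ((Real.sqrt ‖E‖ / h)⁻¹ • x) / ((‖E‖ : ℝ) : ℂ)) n)
    (fun x => (bs_small_wn _ n x).1) (fun x => (bs_small_wn _ n x).2)
  have b0 : 0 ≤ (∫ x, W₂ x ^ (2 * p)) ^ (1 / (2 * p)) :=
    Real.rpow_nonneg (integral_nonneg fun x => Real.rpow_nonneg (hWt.2.1 x) _) _
  refine mul_le_mul_of_nonneg_right (mul_le_mul_of_nonneg_right ?_ (norm_nonneg _))
    (norm_nonneg _)
  exact mul_le_mul_of_nonneg_right (mul_le_mul_of_nonneg_left a1 hC.le) b0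

end

end Pool.Agent.Helper41.KR
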