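import Pool.Agent.Helper41.KR.Defs
import Pool.Agent.Helper41.KR.K00
import Pool.Agent.Helper41.KR.K0R

open MeasureTheory Filter Topology ENNReal Complex
open scoped Laplacian FourierTransform InnerProductSpace

namespace Pool.Agent.Helper41.KR

noncomputable section

open scoped SchwartzMap

theorem schw_tg {d : ℕ} (z : ℂ) (hz : 0 < z.im ∨ z.im < 0 ∨ z.re < 0) :
    Function.HasTemperateGrowth (sym (d := d) z) := by
  by_cases him : z.im = 0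
  · have hre : z.re < 0 := by
      rcases hz with h | h | h
      · linarith
      · linarith
      · exact h
    set c : ℝ := 2 * Real.pi / Real.sqrt (-z.re) with hc
    have h1 : Function.HasTemperateGrowth
        ((fun x : EE d => (1 + ‖x‖ ^ 2) ^ (-1 : ℝ)) ∘ (c • ContinuousLinearMap.id ℝ (EE d))) :=
      (Function.hasTemperateGrowth_one_add_norm_sq_rpow (EE d) (-1)).comp
        (c • ContinuousLinearMap.id ℝ (EE d)).hasTemperateGrowth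
    have h2 := Function.HasTemperateGrowth.mul
      (Function.HasTemperateGrowth.const (E := EE d) ((((-z.re)⁻¹ : ℝ) : ℂ)))
      (Function.Complex.hasTemperateGrowth_ofReal.comp h1)
    have h3 : (fun _ : EE d => (((-z.re)⁻¹ : ℝ) : ℂ)) * (Complex.ofReal ∘
        ((fun x : EE d => (1 + ‖x‖ ^ 2) ^ (-1 : ℝ)) ∘ (c • ContinuousLinearMap.id ℝ (EE d))))
        = sym (d := d) z := by
      funext ξ
      have hzr : z = ((z.re : ℝ) : ℂ) := by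
        apply Complex.ext
        · simp
        · simp [him]
      have hn : ‖(c • ContinuousLinearMap.id ℝ (EE d)) ξ‖ ^ 2 = 4 * Real.pi ^ 2 * ‖ξ‖ ^ 2 / (-z.re) := by
        rw [_root_.smul_apply, ContinuousLinearMap.id_apply, norm_smul, mul_pow,
          Real.norm_eq_abs, sq_abs, hc, div_pow, Real.sq_sqrt (by linarith)]
        ring
      have hpos : 0 < -z.re := by linarith
      have hp2 : 0 < 4 * Real.pi ^ 2 * ‖ξ‖ ^ 2 - z.re := by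
        have : 0 ≤ 4 * Real.pi ^ 2 * ‖ξ‖ ^ 2 := by positivity
        linarith
      show (((-z.re)⁻¹ : ℝ) : ℂ) * (((1 + ‖(c • ContinuousLinearMap.id ℝ (EE d)) ξ‖ ^ 2) ^ (-1 : ℝ)
        : ℝ) : ℂ) = (((4 * Real.pi ^ 2 * ‖ξ‖ ^ 2 : ℝ) : ℂ) - z)⁻¹
      rw [hn, Real.rpow_neg_one]
      conv_rhs => rw [hzr]
      rw [← Complex.ofReal_sub, ← Complex.ofReal_inv, ← Complex.ofReal_mul]
      congr 1
      rw [← mul_inv]
      congr 1
      have hz0 : z.re ≠ 0 := hre.ne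
      field_simp
      ring
    rw [← h3]
    exact h2
  · set s : EE d → ℝ := fun ξ => (4 * Real.pi ^ 2 * ‖ξ‖ ^ 2 - z.re) * (z.im)⁻¹ with hs
    have hs1 : Function.HasTemperateGrowth s := by
      rw [hs]
      have h0 := Function.hasTemperateGrowth_norm_sq (EE d)
      fun_prop
    have h1 : Function.HasTemperateGrowth ((fun x : ℝ => (1 + ‖x‖ ^ 2) ^ (-1 : ℝ)) ∘ s) :=
      (Function.hasTemperateGrowth_one_add_norm_sq_rpow ℝ (-1)).comp hs1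
    have hs2 : Function.HasTemperateGrowth (fun ξ : EE d => 4 * Real.pi ^ 2 * ‖ξ‖ ^ 2) := by
      have h0 := Function.hasTemperateGrowth_norm_sq (EE d)
      fun_prop
    have h2 := Function.HasTemperateGrowth.mul
      (Function.HasTemperateGrowth.mul
      (Function.HasTemperateGrowth.sub (Function.Complex.hasTemperateGrowth_ofReal.comp hs2)
        (Function.HasTemperateGrowth.const (E := EE d) ((starRingEnd ℂ) z)))
      (Function.HasTemperateGrowth.const (E := EE d) ((((z.im ^ 2)⁻¹ : ℝ) : ℂ))))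
      (Function.Complex.hasTemperateGrowth_ofReal.comp h1)
    refine (Eq.subst (motive := fun f => Function.HasTemperateGrowth f) ?_ h2)
    funext ξ
    show (((4 * Real.pi ^ 2 * ‖ξ‖ ^ 2 : ℝ) : ℂ) - (starRingEnd ℂ) z) * (((z.im ^ 2)⁻¹ : ℝ) : ℂ) *
      (((1 + ‖s ξ‖ ^ 2) ^ (-1 : ℝ) : ℝ) : ℂ) = (((4 * Real.pi ^ 2 * ‖ξ‖ ^ 2 : ℝ) : ℂ) - z)⁻¹
    rw [Real.rpow_neg_one, mul_assoc, ← Complex.ofReal_mul, ← mul_inv]
    have e1 : z.im ^ 2 * (1 + ‖s ξ‖ ^ 2) =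
        Complex.normSq (((4 * Real.pi ^ 2 * ‖ξ‖ ^ 2 : ℝ) : ℂ) - z) := by
      rw [Complex.normSq_apply, Complex.sub_re, Complex.sub_im, Complex.ofReal_re,
        Complex.ofReal_im, hs, Real.norm_eq_abs, sq_abs]
      simp only
      field_simp
      ring
    rw [e1, Complex.inv_def]
    congr 1
    · rw [map_sub, Complex.conj_ofReal]

theorem schw_lapF {d : ℕ} (f : 𝓢(EE d, ℂ)) (x : EE d) :
    (𝓕 (Δ f) : 𝓢(EE d, ℂ)) x = (-((2 * Real.pi) ^ 2 * ‖x‖ ^ 2 : ℝ) : ℂ) * (𝓕 f : 𝓢(EE d, ℂ)) x := by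
  rw [SchwartzMap.laplacian_eq_fourierMultiplierCLM, FourierTransform.fourier_smul,
    SchwartzMap.fourierMultiplierCLM_apply, FourierTransform.fourier_fourierInv_eq, smul_apply,
    SchwartzMap.smulLeftCLM_apply_apply (by fun_prop)]
  simp
  ring

theorem schw_ne {z : ℂ} (hz : 0 < z.im ∨ z.im < 0 ∨ z.re < 0) {a : ℝ} (ha : 0 ≤ a) :
    ((a : ℝ) : ℂ) - z ≠ 0 := by
  intro h
  have h1 : z = (a : ℂ) := (sub_eq_zero.1 h).symm
  rw [h1] at hz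
  simp only [Complex.ofReal_im, Complex.ofReal_re, lt_irrefl, false_or] at hz
  linarith

theorem schw_exists {d : ℕ} (z : ℂ) (hz : 0 < z.im ∨ z.im < 0 ∨ z.re < 0) (Ψ : 𝓢(EE d, ℂ)) :
    ∃ Φ : 𝓢(EE d, ℂ), Rz d z (Ψ.toLp 2) = Φ.toLp 2 ∧ ∀ x, -(Δ Φ) x - z * Φ x = Ψ x := by
  obtain ⟨C, hC0, hC⟩ := sym_bdd z hz
  have htg := schw_tg (d := d) z hz
  set Θ : 𝓢(EE d, ℂ) := SchwartzMap.smulLeftCLM ℂ (sym (d := d) z) (𝓕 Ψ) with hΘ
  have hΘa : ∀ x, Θ x = sym z x * (𝓕 Ψ : 𝓢(EE d, ℂ)) x := by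
    intro x
    rw [hΘ, SchwartzMap.smulLeftCLM_apply_apply htg, smul_eq_mul]
  refine ⟨𝓕⁻ Θ, ?_, ?_⟩
  · rw [Rz_apply, SchwartzMap.toLp_fourier_eq, ← SchwartzMap.toLp_fourierInv_eq]
    congr 1
    apply Lp.ext
    filter_upwards [mulOp_ae (sym z) (sym_meas z) C (hC d) ((𝓕 Ψ : 𝓢(EE d, ℂ)).toLp 2),
      (𝓕 Ψ : 𝓢(EE d, ℂ)).coeFn_toLp 2, Θ.coeFn_toLp 2] with x h1 h2 h3
    rw [h1, h2, h3, hΘa]
  · have hkey : (𝓕 (-(Δ (𝓕⁻ Θ)) - z • (𝓕⁻ Θ)) : 𝓢(EE d, ℂ)) = 𝓕 Ψ := by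
      ext x
      have e00 : (-(Δ (𝓕⁻ Θ)) - z • (𝓕⁻ Θ) : 𝓢(EE d, ℂ)) =
        (-1 : ℂ) • (Δ (𝓕⁻ Θ)) + (-z) • (𝓕⁻ Θ) := by
        rw [neg_smul, neg_smul, one_smul, sub_eq_add_neg]
      rw [e00, FourierTransform.fourier_add, FourierTransform.fourier_smul,
        FourierTransform.fourier_smul]
      have e0 : ((-1 : ℂ) • (𝓕 (Δ (𝓕⁻ Θ))) + (-z) • 𝓕 (𝓕⁻ Θ) : 𝓢(EE d, ℂ)) x =
        -((𝓕 (Δ (𝓕⁻ Θ)) : 𝓢(EE d, ℂ)) x) - z * (𝓕 (𝓕⁻ Θ) : 𝓢(EE d, ℂ)) x := by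
        show (-1 : ℂ) * ((𝓕 (Δ (𝓕⁻ Θ)) : 𝓢(EE d, ℂ)) x) + (-z) * (𝓕 (𝓕⁻ Θ) : 𝓢(EE d, ℂ)) x = _
        ring
      rw [e0, schw_lapF, FourierTransform.fourier_fourierInv_eq, hΘa]
      have hne := schw_ne hz (a := 4 * Real.pi ^ 2 * ‖x‖ ^ 2) (by positivity)
      unfold sym
      have e1 : -((-((2 * Real.pi) ^ 2 * ‖x‖ ^ 2 : ℝ) : ℂ) *
          ((((4 * Real.pi ^ 2 * ‖x‖ ^ 2 : ℝ) : ℂ) - z)⁻¹ * (𝓕 Ψ : 𝓢(EE d, ℂ)) x)) -
          z * ((((4 * Real.pi ^ 2 * ‖x‖ ^ 2 : ℝ) : ℂ) - z)⁻¹ * (𝓕 Ψ : 𝓢(EE d, ℂ)) x) =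
          (((4 * Real.pi ^ 2 * ‖x‖ ^ 2 : ℝ) : ℂ) - z) * (((4 * Real.pi ^ 2 * ‖x‖ ^ 2 : ℝ) : ℂ) - z)⁻¹ *
          (𝓕 Ψ : 𝓢(EE d, ℂ)) x := by
        push_cast
        ring
      rw [e1, mul_inv_cancel₀ hne, one_mul]
    have h2 : (-(Δ (𝓕⁻ Θ)) - z • (𝓕⁻ Θ) : 𝓢(EE d, ℂ)) = Ψ := by
      have := congrArg (fun f : 𝓢(EE d, ℂ) => (𝓕⁻ f : 𝓢(EE d, ℂ))) hkey
      simpa only [FourierTransform.fourierInv_fourier_eq] using this
    intro x
    have h3 := DFunLike.congr_fun h2 x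
    rw [← h3]
    rfl

theorem schw_lap_le {d : ℕ} (f : EE d → ℂ) (x : EE d) :
    ‖(Δ f) x‖ ≤ (Module.finrank ℝ (EE d) : ℝ) * ‖iteratedFDeriv ℝ 2 f x‖ := by
  rw [InnerProductSpace.laplacian_eq_iteratedFDeriv_stdOrthonormalBasis f]
  refine (norm_sum_le _ _).trans ?_
  have : ∀ i ∈ (Finset.univ : Finset (Fin (Module.finrank ℝ (EE d)))),
      ‖iteratedFDeriv ℝ 2 f x ![(stdOrthonormalBasis ℝ (EE d)) i, (stdOrthonormalBasis ℝ (EE d)) i]‖ ≤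
        ‖iteratedFDeriv ℝ 2 f x‖ := by
    intro i _
    refine (ContinuousMultilinearMap.le_opNorm _ _).trans ?_
    rw [Fin.prod_univ_two]
    simp
  refine (Finset.sum_le_sum this).trans ?_
  simp

theorem schw_sq_int {d : ℕ} (Φ : 𝓢(EE d, ℂ)) (j : ℕ) :
    Integrable (fun x => ‖iteratedFDeriv ℝ j Φ x‖ ^ 2) := by
  have h1 : Integrable (fun x => ‖x‖ ^ 0 * ‖iteratedFDeriv ℝ j Φ x‖) :=
    Φ.integrable_pow_mul_iteratedFDeriv volume 0 j
  simp only [pow_zero, one_mul] at h1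
  obtain ⟨C, hC⟩ := Φ.decay 0 j
  have hcont : Continuous (fun x => iteratedFDeriv ℝ j Φ x) :=
    (Φ.smooth ⊤).continuous_iteratedFDeriv (by exact_mod_cast le_top)
  refine (h1.const_mul C).mono' (hcont.norm.pow 2).aestronglyMeasurable ?_
  filter_upwards with x
  have h2 := hC.2 x
  rw [pow_zero, one_mul] at h2
  rw [Real.norm_of_nonneg (by positivity), sq]
  exact mul_le_mul_of_nonneg_right h2 (norm_nonneg _)

theorem schw_dom {d : ℕ} (Φ : 𝓢(EE d, ℂ)) : ∃ (φ : ℕ → EE d → ℂ) (G : EE d → ℝ),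
    (∀ n, IsTest (φ n)) ∧ (∀ n x, ‖φ n x‖ ≤ ‖Φ x‖) ∧ (∀ n x, ‖(Δ (φ n)) x‖ ≤ G x) ∧
    Integrable (fun x => G x ^ 2) ∧ Continuous G ∧
    (∀ x, ∀ᶠ n in atTop, φ n x = Φ x ∧ (Δ (φ n)) x = (Δ Φ) x) := by
  let χ : ContDiffBump (0 : EE d) := ⟨1, 2, one_pos, one_lt_two⟩
  have hχs : ContDiff ℝ (⊤ : ℕ∞) (χ : EE d → ℝ) := χ.contDiff
  have hχc : HasCompactSupport (χ : EE d → ℝ) := χ.hasCompactSupport
  let L : ℕ → (EE d →L[ℝ] EE d) := fun n => ((n : ℝ) + 1)⁻¹ • ContinuousLinearMap.id ℝ (EE d)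
  have hLa : ∀ n x, L n x = ((n : ℝ) + 1)⁻¹ • x := fun n x => rfl
  have hLn : ∀ n, ‖L n‖ ≤ 1 := by
    intro n
    refine ContinuousLinearMap.opNorm_le_bound _ zero_le_one fun x => ?_
    rw [hLa, norm_smul, one_mul, Real.norm_of_nonneg (by positivity)]
    have : ((n : ℝ) + 1)⁻¹ ≤ 1 := by
      apply inv_le_one_of_one_le₀
      have : (0 : ℝ) ≤ n := n.cast_nonneg
      linarith
    exact mul_le_of_le_one_left (norm_nonneg _) this
  have hB : ∀ i : ℕ, ∃ B : ℝ, ∀ x, ‖iteratedFDeriv ℝ i (χ : EE d → ℝ) x‖ ≤ B := fun i =>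
    (hχc.iteratedFDeriv (𝕜 := ℝ) i).exists_bound_of_continuous
      (hχs.continuous_iteratedFDeriv (by exact_mod_cast le_top))
  choose B hB using hB
  have hB0 : ∀ i, 0 ≤ B i := fun i => (norm_nonneg _).trans (hB i 0)
  let ψ : ℕ → EE d → ℝ := fun n => (χ : EE d → ℝ) ∘ (L n)
  have hψs : ∀ n, ContDiff ℝ (⊤ : ℕ∞) (ψ n) := fun n => hχs.comp (L n).contDiff
  have hψB : ∀ n i x, ‖iteratedFDeriv ℝ i (ψ n) x‖ ≤ B i := by
    intro n i x
    have h1 := ContinuousLinearMap.iteratedFDeriv_comp_right (L n) hχs x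
      (i := i) (by exact_mod_cast le_top)
    show ‖iteratedFDeriv ℝ i ((χ : EE d → ℝ) ∘ (L n)) x‖ ≤ B i
    rw [h1]
    refine (ContinuousMultilinearMap.norm_compContinuousLinearMap_le _ _).trans ?_
    have h2 : ∏ _j : Fin i, ‖L n‖ ≤ 1 := by
      rw [Finset.prod_const]
      exact pow_le_one₀ (norm_nonneg _) (hLn n)
    calc _ ≤ B i * 1 := mul_le_mul (hB i _) h2 (Finset.prod_nonneg fun _ _ => norm_nonneg _) (hB0 i)
      _ = B i := mul_one _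
  have hΦs : ContDiff ℝ (⊤ : ℕ∞) (Φ : EE d → ℂ) := Φ.smooth ⊤
  refine ⟨fun n x => ψ n x • Φ x, fun x => (Module.finrank ℝ (EE d) : ℝ) *
    ∑ i ∈ Finset.range 3, ((2 : ℕ).choose i : ℝ) * B i * ‖iteratedFDeriv ℝ (2 - i) Φ x‖,
    ?_, ?_, ?_, ?_, ?_, ?_⟩
  · intro n
    refine ⟨(hψs n).smul hΦs, ?_⟩
    have hc : HasCompactSupport (ψ n) := by
      have he : IsClosedEmbedding (L n) := by
        have hu : ((n : ℝ) + 1)⁻¹ ≠ 0 := by positivity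
        exact (Homeomorph.smulOfNeZero _ hu).isClosedEmbedding
      exact hχc.comp_isClosedEmbedding he
    exact hc.smul_right
  · intro n x
    show ‖ψ n x • Φ x‖ ≤ ‖Φ x‖
    rw [norm_smul]
    have h1 : ‖ψ n x‖ ≤ 1 := by
      show ‖χ (L n x)‖ ≤ 1
      rw [Real.norm_of_nonneg χ.nonneg]
      exact χ.le_one
    exact mul_le_of_le_one_left (norm_nonneg _) h1
  · intro n x
    refine (schw_lap_le _ x).trans ?_
    apply mul_le_mul_of_nonneg_left _ (by positivity)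
    have h2 : (((2 : ℕ) : ℕ∞) : WithTop ℕ∞) ≤ ((⊤ : ℕ∞) : WithTop ℕ∞) := by
      exact_mod_cast (le_top : ((2 : ℕ) : ℕ∞) ≤ ⊤)
    refine (norm_iteratedFDeriv_smul_le (hψs n) hΦs x (n := 2) h2).trans ?_
    apply Finset.sum_le_sum
    intro i _
    apply mul_le_mul_of_nonneg_right _ (norm_nonneg _)
    exact mul_le_mul_of_nonneg_left (hψB n i x) (by positivity)
  · have hcj : ∀ j : ℕ, Continuous (fun x => ‖iteratedFDeriv ℝ j Φ x‖) := fun j =>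
      (hΦs.continuous_iteratedFDeriv (by exact_mod_cast le_top)).norm
    have hM : MemLp (fun x => (Module.finrank ℝ (EE d) : ℝ) *
        ∑ i ∈ Finset.range 3, ((2 : ℕ).choose i : ℝ) * B i * ‖iteratedFDeriv ℝ (2 - i) Φ x‖) 2
        (volume : Measure (EE d)) := by
      apply MemLp.const_mul
      apply memLp_finsetSum
      intro i _
      apply MemLp.const_mul
      rw [memLp_two_iff_integrable_sq (hcj _).aestronglyMeasurable]
      exact schw_sq_int Φ (2 - i)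
    exact hM.integrable_sq
  · have hcj : ∀ j : ℕ, Continuous (fun x => ‖iteratedFDeriv ℝ j Φ x‖) := fun j =>
      (hΦs.continuous_iteratedFDeriv (by exact_mod_cast le_top)).norm
    exact continuous_const.mul (continuous_finsetSum _ fun i _ => continuous_const.mul (hcj _))
  · intro x
    obtain ⟨N, hN⟩ := exists_nat_gt (‖x‖ + 1)
    filter_upwards [eventually_ge_atTop N] with n hn
    have hnear : (fun y => ψ n y • Φ y) =ᶠ[𝓝 x] Φ := by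
      filter_upwards [Metric.ball_mem_nhds x one_pos] with y hy
      have h1 : ‖y‖ ≤ ‖x‖ + 1 := by
        have h2 : ‖y - x‖ < 1 := by simpa [dist_eq_norm] using hy
        have h3 : ‖y‖ ≤ ‖y - x‖ + ‖x‖ := by
          have := norm_add_le (y - x) x
          simpa using this
        linarith
      have h4 : ψ n y = 1 := by
        show χ (L n y) = 1
        apply χ.one_of_mem_closedBall
        show L n y ∈ Metric.closedBall (0 : EE d) 1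
        rw [mem_closedBall_zero_iff, hLa, norm_smul, Real.norm_of_nonneg (by positivity),
          inv_mul_le_iff₀ (by positivity), mul_one]
        have : (N : ℝ) ≤ n := by exact_mod_cast hn
        linarith
      show ψ n y • Φ y = Φ y
      rw [h4, one_smul]
    refine ⟨hnear.eq_of_nhds, ?_⟩
    have := InnerProductSpace.laplacian_congr_nhds hnear
    rw [this.eq_of_nhds, SchwartzMap.laplacian_apply]

theorem schw_lap_cont {d : ℕ} (φ : EE d → ℂ) (hφ : ContDiff ℝ (⊤ : ℕ∞) φ) : Continuous (Δ φ) := by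
  have hrw := InnerProductSpace.laplacian_eq_iteratedFDeriv_stdOrthonormalBasis φ
  have h2 : (((2 : ℕ) : ℕ∞) : WithTop ℕ∞) ≤ ((⊤ : ℕ∞) : WithTop ℕ∞) := by
    exact_mod_cast (le_top : ((2 : ℕ) : ℕ∞) ≤ ⊤)
  have h1 : Continuous (iteratedFDeriv ℝ 2 φ) := hφ.continuous_iteratedFDeriv h2
  rw [hrw]
  refine continuous_finsetSum _ fun i _ => ?_
  exact (ContinuousMultilinearMap.apply ℝ (fun _ : Fin 2 => EE d) ℂ
      ![(stdOrthonormalBasis ℝ (EE d)) i, (stdOrthonormalBasis ℝ (EE d)) i]).continuous.comp h1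

theorem schw_weak (d : ℕ) (z : ℂ) (hz : 0 < z.im ∨ z.im < 0 ∨ z.re < 0) (V : EE d → ℂ)
    (hV : Measurable V) (p : ℝ) (hp : 1 ≤ p) (hVp : Integrable (fun x => ‖V x‖ ^ p)) (u : HH d)
    (hu : Integrable (fun x => ‖V x‖ * ‖(u : EE d → ℂ) x‖ ^ 2))
    (hw : ∀ φ : EE d → ℂ, IsTest φ →
      ∫ x, ((u : EE d → ℂ) x * (-(Δ φ) x) + V x * (u : EE d → ℂ) x * φ x) =
        z * (∫ x, (u : EE d → ℂ) x * φ x))
    (ψ : EE d → ℂ) (hψ : IsTest ψ) (q : HH d) (hq : (q : EE d → ℂ) =ᵐ[volume] ψ) :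
    Integrable (fun x => V x * (u : EE d → ℂ) x * (Rz d z q : EE d → ℂ) x) ∧
    Integrable (fun x => ‖V x‖ * ‖(Rz d z q : EE d → ℂ) x‖ ^ 2) ∧
    ∫ x, (u : EE d → ℂ) x * ψ x = -(∫ x, V x * (u : EE d → ℂ) x * (Rz d z q : EE d → ℂ) x) := by
  obtain ⟨Ψ, hΨ⟩ : ∃ Ψ : 𝓢(EE d, ℂ), ∀ x, Ψ x = ψ x :=
    ⟨hψ.2.toSchwartzMap hψ.1, fun _ => rfl⟩
  have hqΨ : q = Ψ.toLp 2 := by
    apply Lp.ext
    filter_upwards [hq, Ψ.coeFn_toLp 2] with x h1 h2
    rw [h1, h2, hΨ]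
  obtain ⟨Φ, hΦ1, hΦ2⟩ := schw_exists z hz Ψ
  have hR : (Rz d z q : EE d → ℂ) =ᵐ[volume] Φ := by
    rw [hqΨ, hΦ1]
    exact Φ.coeFn_toLp 2
  have hΦc : Continuous (Φ : EE d → ℂ) := Φ.continuous
  have hum : AEStronglyMeasurable (u : EE d → ℂ) volume := Lp.aestronglyMeasurable u
  have hVm : AEStronglyMeasurable V volume := hV.aestronglyMeasurable
  have hu2 : Integrable (fun x => ‖(u : EE d → ℂ) x‖ ^ 2) :=
    (memLp_two_iff_integrable_sq_norm hum).1 (Lp.memLp u)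
  have hΦ2i : Integrable (fun x => ‖Φ x‖ ^ 2) := by
    have h := schw_sq_int Φ 0
    simpa only [norm_iteratedFDeriv_zero] using h
  have hΔc : Continuous (Δ Φ : 𝓢(EE d, ℂ)) := (Δ Φ : 𝓢(EE d, ℂ)).continuous
  have hΔ2i : Integrable (fun x => ‖(Δ Φ : 𝓢(EE d, ℂ)) x‖ ^ 2) := by
    have h := schw_sq_int (Δ Φ) 0
    simpa only [norm_iteratedFDeriv_zero] using h
  obtain ⟨C, hC⟩ := Φ.decay 0 0
  have hCb : ∀ x, ‖Φ x‖ ≤ C := by
    intro x
    have h := hC.2 x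
    simpa using h
  have hVΦ : Integrable (fun x => ‖V x‖ * ‖Φ x‖ ^ 2) := by
    refine (hΦ2i.add (hVp.const_mul (C ^ 2))).mono'
      (hVm.norm.mul (hΦc.norm.pow 2).aestronglyMeasurable) ?_
    filter_upwards with x
    rw [Real.norm_of_nonneg (by positivity)]
    show ‖V x‖ * ‖Φ x‖ ^ 2 ≤ ‖Φ x‖ ^ 2 + C ^ 2 * ‖V x‖ ^ p
    have hC2 : ‖Φ x‖ ^ 2 ≤ C ^ 2 := pow_le_pow_left₀ (norm_nonneg _) (hCb x) 2
    have hVn : 0 ≤ ‖V x‖ ^ p := Real.rpow_nonneg (norm_nonneg _) _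
    rcases le_total ‖V x‖ 1 with h1 | h1
    · calc ‖V x‖ * ‖Φ x‖ ^ 2 ≤ 1 * ‖Φ x‖ ^ 2 := mul_le_mul_of_nonneg_right h1 (by positivity)
        _ = ‖Φ x‖ ^ 2 := one_mul _
        _ ≤ ‖Φ x‖ ^ 2 + C ^ 2 * ‖V x‖ ^ p := le_add_of_nonneg_right (by positivity)
    · have h2 : ‖V x‖ ≤ ‖V x‖ ^ p := by
        calc ‖V x‖ = ‖V x‖ ^ (1 : ℝ) := (Real.rpow_one _).symm
          _ ≤ ‖V x‖ ^ p := Real.rpow_le_rpow_of_exponent_le h1 hp
      calc ‖V x‖ * ‖Φ x‖ ^ 2 ≤ ‖V x‖ ^ p * C ^ 2 := mul_le_mul h2 hC2 (by positivity) hVn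
        _ = C ^ 2 * ‖V x‖ ^ p := mul_comm _ _
        _ ≤ ‖Φ x‖ ^ 2 + C ^ 2 * ‖V x‖ ^ p := le_add_of_nonneg_left (by positivity)
  have hab : ∀ a b : ℝ, a * b ≤ a ^ 2 + b ^ 2 := fun a b => by nlinarith [sq_nonneg (a - b), sq_nonneg (a + b)]
  have hVab : ∀ x, ‖V x * (u : EE d → ℂ) x * Φ x‖ ≤
      ‖V x‖ * ‖(u : EE d → ℂ) x‖ ^ 2 + ‖V x‖ * ‖Φ x‖ ^ 2 := by
    intro x
    rw [norm_mul, norm_mul, mul_assoc, ← mul_add]
    exact mul_le_mul_of_nonneg_left (hab _ _) (norm_nonneg _)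
  have hVuΦ : Integrable (fun x => V x * (u : EE d → ℂ) x * Φ x) :=
    (hu.add hVΦ).mono' ((hVm.mul hum).mul hΦc.aestronglyMeasurable)
      (Filter.Eventually.of_forall hVab)
  have huΦ : Integrable (fun x => (u : EE d → ℂ) x * Φ x) := by
    refine (hu2.add hΦ2i).mono' (hum.mul hΦc.aestronglyMeasurable) ?_
    filter_upwards with x
    rw [norm_mul]
    exact hab _ _
  have huΔ : Integrable (fun x => (u : EE d → ℂ) x * -((Δ Φ : 𝓢(EE d, ℂ)) x)) := by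
    refine (hu2.add hΔ2i).mono' (hum.mul hΔc.neg.aestronglyMeasurable) ?_
    filter_upwards with x
    rw [norm_mul, norm_neg]
    exact hab _ _
  obtain ⟨φ, G, hφt, hφn, hφΔ, hG2, hGc, hφe⟩ := schw_dom Φ
  have hG0 : ∀ x, 0 ≤ G x := fun x => (norm_nonneg _).trans (hφΔ 0 x)
  have hφc : ∀ n, Continuous (φ n) := fun n => (hφt n).1.continuous
  have hlim1 : Tendsto (fun n => ∫ x, ((u : EE d → ℂ) x * (-(Δ (φ n)) x) +
      V x * (u : EE d → ℂ) x * φ n x)) atTop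
      (𝓝 (∫ x, ((u : EE d → ℂ) x * -((Δ Φ : 𝓢(EE d, ℂ)) x) + V x * (u : EE d → ℂ) x * Φ x))) := by
    apply tendsto_integral_of_dominated_convergence
      (fun x => (‖(u : EE d → ℂ) x‖ ^ 2 + G x ^ 2) +
        (‖V x‖ * ‖(u : EE d → ℂ) x‖ ^ 2 + ‖V x‖ * ‖Φ x‖ ^ 2))
    · intro n
      exact (hum.mul (schw_lap_cont _ (hφt n).1).neg.aestronglyMeasurable).add
        ((hVm.mul hum).mul (hφc n).aestronglyMeasurable)
    · exact (hu2.add hG2).add (hu.add hVΦ)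
    · intro n
      filter_upwards with x
      refine (norm_add_le _ _).trans (add_le_add ?_ ?_)
      · rw [norm_mul, norm_neg]
        calc ‖(u : EE d → ℂ) x‖ * ‖(Δ (φ n)) x‖ ≤ ‖(u : EE d → ℂ) x‖ * G x :=
              mul_le_mul_of_nonneg_left (hφΔ n x) (norm_nonneg _)
          _ ≤ _ := hab _ _
      · refine le_trans ?_ (hVab x)
        rw [norm_mul, norm_mul (V x * (u : EE d → ℂ) x)]
        exact mul_le_mul_of_nonneg_left (hφn n x) (norm_nonneg _)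
    · filter_upwards with x
      apply Tendsto.congr' _ tendsto_const_nhds
      filter_upwards [hφe x] with n hn
      rw [hn.1, hn.2]
  have hlim2 : Tendsto (fun n => z * ∫ x, (u : EE d → ℂ) x * φ n x) atTop
      (𝓝 (z * ∫ x, (u : EE d → ℂ) x * Φ x)) := by
    apply Filter.Tendsto.const_mul
    apply tendsto_integral_of_dominated_convergence
      (fun x => ‖(u : EE d → ℂ) x‖ ^ 2 + ‖Φ x‖ ^ 2)
    · intro n
      exact hum.mul (hφc n).aestronglyMeasurable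
    · exact hu2.add hΦ2i
    · intro n
      filter_upwards with x
      rw [norm_mul]
      calc ‖(u : EE d → ℂ) x‖ * ‖φ n x‖ ≤ ‖(u : EE d → ℂ) x‖ * ‖Φ x‖ :=
              mul_le_mul_of_nonneg_left (hφn n x) (norm_nonneg _)
          _ ≤ _ := hab _ _
    · filter_upwards with x
      apply Tendsto.congr' _ tendsto_const_nhds
      filter_upwards [hφe x] with n hn
      rw [hn.1]
  have heq := tendsto_nhds_unique (hlim1.congr (fun n => hw (φ n) (hφt n))) hlim2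
  rw [integral_add huΔ hVuΦ] at heq
  have hRV : (fun x => V x * (u : EE d → ℂ) x * (Rz d z q : EE d → ℂ) x) =ᵐ[volume]
      fun x => V x * (u : EE d → ℂ) x * Φ x := by
    filter_upwards [hR] with x hx
    rw [hx]
  have hRV2 : (fun x => ‖V x‖ * ‖(Rz d z q : EE d → ℂ) x‖ ^ 2) =ᵐ[volume]
      fun x => ‖V x‖ * ‖Φ x‖ ^ 2 := by
    filter_upwards [hR] with x hx
    rw [hx]
  refine ⟨hVuΦ.congr hRV.symm, hVΦ.congr hRV2.symm, ?_⟩
  rw [integral_congr_ae hRV]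
  have h3 : ∫ x, (u : EE d → ℂ) x * ψ x = (∫ x, (u : EE d → ℂ) x * -((Δ Φ : 𝓢(EE d, ℂ)) x)) -
      z * ∫ x, (u : EE d → ℂ) x * Φ x := by
    rw [← integral_const_mul, ← integral_sub huΔ (huΦ.const_mul z)]
    congr 1
    funext x
    rw [← hΨ, ← hΦ2 x]
    ring
  rw [h3, ← heq]
  ring

end

end Pool.Agent.Helper41.KR
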