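import Pool.Agent.Helper41.KR.Defs
import Pool.Agent.Helper41.KR.K00
import Pool.Agent.Helper41.KR.K0R
import Pool.Agent.Helper41.KR.K11

open MeasureTheory Filter Topology ENNReal Complex
open scoped Laplacian FourierTransform InnerProductSpace

namespace Pool.Agent.Helper41.KR

noncomputable section

theorem ctr_norm_sq {d : ℕ} (f : HH d) : ‖f‖ ^ 2 = ∫ x, ‖(f : EE d → ℂ) x‖ ^ 2 := by
  have h1 : ‖f‖ ^ 2 = RCLike.re ⟪f, f⟫_ℂ := (inner_self_eq_norm_sq f).symm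
  rw [h1, L2.inner_def]
  have h2 : ∀ x, ⟪(f : EE d → ℂ) x, (f : EE d → ℂ) x⟫_ℂ = ((‖(f : EE d → ℂ) x‖ ^ 2 : ℝ) : ℂ) := by
    intro x
    rw [inner_self_eq_norm_sq_to_K]
    push_cast
    rfl
  simp_rw [h2]
  rw [integral_complex_ofReal]
  exact Complex.ofReal_re _

theorem ctr_sq_int {d : ℕ} (f : HH d) : Integrable (fun x => ‖(f : EE d → ℂ) x‖ ^ 2) :=
  (memLp_two_iff_integrable_sq_norm (Lp.aestronglyMeasurable f)).1 (Lp.memLp f)

/-- Cauchy-Schwarz -/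
theorem ctr_cs {d : ℕ} (V : EE d → ℂ) (hV : Measurable V) (u k : EE d → ℂ)
    (hum : AEStronglyMeasurable u volume) (hkm : AEStronglyMeasurable k volume)
    (hu : Integrable (fun x => ‖V x‖ * ‖u x‖ ^ 2)) (hk : Integrable (fun x => ‖V x‖ * ‖k x‖ ^ 2)) :
    Integrable (fun x => V x * u x * k x) ∧
    ‖∫ x, V x * u x * k x‖ ≤ Real.sqrt (∫ x, ‖V x‖ * ‖u x‖ ^ 2) *
      Real.sqrt (∫ x, ‖V x‖ * ‖k x‖ ^ 2) := by
  have hs : Measurable fun x => Real.sqrt ‖V x‖ := hV.norm.sqrt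
  have hfm : AEStronglyMeasurable (fun x => Real.sqrt ‖V x‖ * ‖u x‖) volume :=
    hs.aestronglyMeasurable.mul hum.norm
  have hgm : AEStronglyMeasurable (fun x => Real.sqrt ‖V x‖ * ‖k x‖) volume :=
    hs.aestronglyMeasurable.mul hkm.norm
  have hfsq : ∀ x, (Real.sqrt ‖V x‖ * ‖u x‖) ^ 2 = ‖V x‖ * ‖u x‖ ^ 2 := fun x => by
    rw [mul_pow, Real.sq_sqrt (norm_nonneg _)]
  have hgsq : ∀ x, (Real.sqrt ‖V x‖ * ‖k x‖) ^ 2 = ‖V x‖ * ‖k x‖ ^ 2 := fun x => by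
    rw [mul_pow, Real.sq_sqrt (norm_nonneg _)]
  have hf2 : MemLp (fun x => Real.sqrt ‖V x‖ * ‖u x‖) 2 volume := by
    rw [memLp_two_iff_integrable_sq hfm]
    simp_rw [hfsq]
    exact hu
  have hg2 : MemLp (fun x => Real.sqrt ‖V x‖ * ‖k x‖) 2 volume := by
    rw [memLp_two_iff_integrable_sq hgm]
    simp_rw [hgsq]
    exact hk
  have hprod : ∀ x, ‖V x * u x * k x‖ = (Real.sqrt ‖V x‖ * ‖u x‖) * (Real.sqrt ‖V x‖ * ‖k x‖) := by
    intro x
    rw [norm_mul, norm_mul]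
    have := Real.mul_self_sqrt (norm_nonneg (V x))
    calc ‖V x‖ * ‖u x‖ * ‖k x‖ = (Real.sqrt ‖V x‖ * Real.sqrt ‖V x‖) * ‖u x‖ * ‖k x‖ := by rw [this]
      _ = _ := by ring
  have hfg : Integrable (fun x => (Real.sqrt ‖V x‖ * ‖u x‖) * (Real.sqrt ‖V x‖ * ‖k x‖)) :=
    hf2.integrable_mul hg2
  have hint : Integrable (fun x => V x * u x * k x) := by
    refine Integrable.mono' hfg ((hV.aestronglyMeasurable.mul hum).mul hkm) ?_
    exact Eventually.of_forall fun x => (hprod x).le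
  refine ⟨hint, ?_⟩
  refine (norm_integral_le_integral_norm _).trans ?_
  simp_rw [hprod]
  have h2 : ENNReal.ofReal 2 = 2 := by norm_num
  have hH := integral_mul_le_Lp_mul_Lq_of_nonneg (μ := (volume : Measure (EE d)))
    (p := 2) (q := 2) Real.HolderConjugate.two_two
    (f := fun x => Real.sqrt ‖V x‖ * ‖u x‖) (g := fun x => Real.sqrt ‖V x‖ * ‖k x‖)
    (Eventually.of_forall fun x => by positivity) (Eventually.of_forall fun x => by positivity)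
    (by rw [h2]; exact hf2) (by rw [h2]; exact hg2)
  refine hH.trans (le_of_eq ?_)
  simp_rw [Real.rpow_two, hfsq, hgsq, Real.sqrt_eq_rpow]

/-- monotone convergence -/
theorem ctr_mc {d : ℕ} (V : EE d → ℂ) (hV : Measurable V) (k : EE d → ℂ)
    (hkm : AEStronglyMeasurable k volume) (K : ℝ) (hK : 0 ≤ K)
    (h : ∀ n : ℕ, Integrable (fun x => (wn V n x) ^ 2 * ‖k x‖ ^ 2) ∧
      ∫ x, (wn V n x) ^ 2 * ‖k x‖ ^ 2 ≤ K) :
    Integrable (fun x => ‖V x‖ * ‖k x‖ ^ 2) ∧ ∫ x, ‖V x‖ * ‖k x‖ ^ 2 ≤ K := by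
  have hm : AEStronglyMeasurable (fun x => ‖V x‖ * ‖k x‖ ^ 2) volume :=
    hV.aestronglyMeasurable.norm.mul (hkm.norm.pow 2)
  have hlim : ∀ x, Tendsto (fun n : ℕ => ENNReal.ofReal ((wn V n x) ^ 2 * ‖k x‖ ^ 2)) atTop
      (𝓝 (ENNReal.ofReal (‖V x‖ * ‖k x‖ ^ 2))) := by
    intro x
    refine tendsto_const_nhds.congr' ?_
    obtain ⟨n0, hn0⟩ := exists_nat_ge (max ‖x‖ ‖V x‖)
    filter_upwards [eventually_ge_atTop n0] with n hn
    have h1 : (n0 : ℝ) ≤ n := by exact_mod_cast hn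
    have h2 : ‖x‖ ≤ n ∧ ‖V x‖ ≤ n :=
      ⟨((le_max_left _ _).trans hn0).trans h1, ((le_max_right _ _).trans hn0).trans h1⟩
    have h3 : wn V n x = Real.sqrt ‖V x‖ := by
      unfold wn
      rw [Set.indicator_of_mem]
      exact h2
    rw [h3, Real.sq_sqrt (norm_nonneg _)]
  have hF : ∫⁻ x, ENNReal.ofReal (‖V x‖ * ‖k x‖ ^ 2) ≤ ENNReal.ofReal K := by
    have h1 : ∀ x, ENNReal.ofReal (‖V x‖ * ‖k x‖ ^ 2) =
        liminf (fun n : ℕ => ENNReal.ofReal ((wn V n x) ^ 2 * ‖k x‖ ^ 2)) atTop :=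
      fun x => (hlim x).liminf_eq.symm
    simp_rw [h1]
    refine (lintegral_liminf_le' fun n => ?_).trans ?_
    · exact (h n).1.aestronglyMeasurable.aemeasurable.ennreal_ofReal
    · refine liminf_le_of_le (by isBoundedDefault) fun b hb => ?_
      obtain ⟨n, hn⟩ := hb.exists
      refine hn.trans ?_
      rw [← ofReal_integral_eq_lintegral_ofReal (h n).1
        (Eventually.of_forall fun x => by positivity)]
      exact ENNReal.ofReal_le_ofReal (h n).2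
  have hnn : 0 ≤ᵐ[volume] fun x => ‖V x‖ * ‖k x‖ ^ 2 := Eventually.of_forall fun x => by positivity
  have hint : Integrable (fun x => ‖V x‖ * ‖k x‖ ^ 2) := by
    rw [← lintegral_ofReal_ne_top_iff_integrable hm hnn]
    exact ne_top_of_le_ne_top ENNReal.ofReal_ne_top hF
  refine ⟨hint, ?_⟩
  rw [← ofReal_integral_eq_lintegral_ofReal hint hnn] at hF
  exact (ENNReal.ofReal_le_ofReal_iff hK).1 hF

theorem ctr_wm_sq {d : ℕ} (W : EE d → ℝ) (hW : Wt W) (f : HH d) :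
    Integrable (fun x => (W x) ^ 2 * ‖(f : EE d → ℂ) x‖ ^ 2) ∧
    ∫ x, (W x) ^ 2 * ‖(f : EE d → ℂ) x‖ ^ 2 = ‖wm W f‖ ^ 2 := by
  have h1 : (fun x => ‖(wm W f : EE d → ℂ) x‖ ^ 2) =ᵐ[volume]
      fun x => (W x) ^ 2 * ‖(f : EE d → ℂ) x‖ ^ 2 := by
    filter_upwards [wm_ae W hW f] with x hx
    rw [hx, norm_mul, mul_pow, Complex.norm_real, Real.norm_eq_abs, sq_abs]
  refine ⟨(ctr_sq_int (wm W f)).congr h1, ?_⟩
  rw [ctr_norm_sq]
  exact (integral_congr_ae h1).symm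

theorem ctr_wm_symm {d : ℕ} (W : EE d → ℝ) (hW : Wt W) (f g : HH d) :
    ⟪wm W f, g⟫_ℂ = ⟪f, wm W g⟫_ℂ := by
  obtain ⟨hm, h0, ⟨B, hB⟩, -⟩ := hW
  unfold wm
  rw [mulOp_inner (fun x => (W x : ℂ)) (Complex.measurable_ofReal.comp hm) B (fun x => by
    rw [Complex.norm_real, Real.norm_eq_abs, abs_of_nonneg (h0 x)]
    exact hB x)]
  simp only [Complex.conj_ofReal]

/-- bound from the bilinear bound -/
theorem ctr_bound {d : ℕ} (W : EE d → ℝ) (hW : Wt W) (k : HH d) (C a : ℝ) (hC : 0 ≤ C) (ha : 0 ≤ a)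
    (h : ∀ g : HH d, ‖⟪wm W g, k⟫_ℂ‖ ≤ C * a * ‖g‖) : ‖wm W k‖ ≤ C * a := by
  have h1 := h (wm W k)
  rw [ctr_wm_symm W hW, inner_self_eq_norm_sq_to_K] at h1
  have h2 : ‖((‖wm W k‖ : ℝ) : ℂ) ^ 2‖ = ‖wm W k‖ ^ 2 := by
    rw [norm_pow, Complex.norm_real, norm_norm]
  have h3 : ‖wm W k‖ ^ 2 ≤ C * a * ‖wm W k‖ := by
    rw [← h2]
    exact h1
  rcases (norm_nonneg (wm W k)).eq_or_lt with h4 | h4
  · rw [← h4]
    positivity
  · rw [sq] at h3
    exact le_of_mul_le_mul_right h3 h4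

theorem ctr_key {d : ℕ} (V : EE d → ℂ) (hV : Measurable V) (k : HH d) (K : ℝ)
    (h : ∀ n : ℕ, ‖wm (wn V n) k‖ ≤ K) :
    Integrable (fun x => ‖V x‖ * ‖(k : EE d → ℂ) x‖ ^ 2) ∧
    ∫ x, ‖V x‖ * ‖(k : EE d → ℂ) x‖ ^ 2 ≤ K ^ 2 := by
  refine ctr_mc V hV k (Lp.aestronglyMeasurable k) (K ^ 2) (sq_nonneg K) fun n => ?_
  obtain ⟨h1, h2⟩ := ctr_wm_sq (wn V n) (wn_wt V hV n) k
  refine ⟨h1, ?_⟩
  rw [h2]
  exact pow_le_pow_left₀ (norm_nonneg _) (h n) 2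

theorem ctr_key2 {d : ℕ} (V : EE d → ℂ) (hV : Measurable V) (u : HH d)
    (hu : Integrable (fun x => ‖V x‖ * ‖(u : EE d → ℂ) x‖ ^ 2)) (k : HH d) (K : ℝ) (hK : 0 ≤ K)
    (h : ∀ n : ℕ, ‖wm (wn V n) k‖ ≤ K) :
    Integrable (fun x => V x * (u : EE d → ℂ) x * (k : EE d → ℂ) x) ∧
    ‖∫ x, V x * (u : EE d → ℂ) x * (k : EE d → ℂ) x‖ ≤
      Real.sqrt (∫ x, ‖V x‖ * ‖(u : EE d → ℂ) x‖ ^ 2) * K := by
  obtain ⟨h1, h2⟩ := ctr_key V hV k K h
  obtain ⟨h3, h4⟩ := ctr_cs V hV u k (Lp.aestronglyMeasurable u) (Lp.aestronglyMeasurable k) hu h1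
  refine ⟨h3, h4.trans ?_⟩
  refine mul_le_mul_of_nonneg_left ?_ (Real.sqrt_nonneg _)
  rw [Real.sqrt_le_left hK]
  exact h2

theorem ctr_conj_memLp {d : ℕ} (u : HH d) :
    MemLp (fun x => (starRingEnd ℂ) ((u : EE d → ℂ) x)) 2 (volume : Measure (EE d)) := by
  refine MemLp.of_le (Lp.memLp u)
    (Complex.continuous_conj.comp_aestronglyMeasurable (Lp.aestronglyMeasurable u)) ?_
  exact Eventually.of_forall fun x => by rw [RCLike.norm_conj]

/-- the conjugate -/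
def ctrBar {d : ℕ} (u : HH d) : HH d := (ctr_conj_memLp u).toLp _

theorem ctrBar_ae {d : ℕ} (u : HH d) :
    (ctrBar u : EE d → ℂ) =ᵐ[volume] fun x => (starRingEnd ℂ) ((u : EE d → ℂ) x) :=
  MemLp.coeFn_toLp _

theorem ctrBar_inner {d : ℕ} (u f : HH d) :
    ⟪ctrBar u, f⟫_ℂ = ∫ x, (u : EE d → ℂ) x * (f : EE d → ℂ) x := by
  rw [L2.inner_def]
  refine integral_congr_ae ?_
  filter_upwards [ctrBar_ae u] with x hx
  rw [RCLike.inner_apply, hx, Complex.conj_conj]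
  ring

theorem ctr_inner {d : ℕ} (l f : HH d) :
    ⟪l, f⟫_ℂ = ∫ x, (f : EE d → ℂ) x * (starRingEnd ℂ) ((l : EE d → ℂ) x) := by
  rw [L2.inner_def]
  refine integral_congr_ae ?_
  filter_upwards with x
  rw [RCLike.inner_apply]

/-- the functional `f ↦ ∫ V u (R f)` -/
def ctrL {d : ℕ} (V : EE d → ℂ) (u : HH d) (R : HH d →L[ℂ] HH d)
    (h : ∀ f, Integrable (fun x => V x * (u : EE d → ℂ) x * (R f : EE d → ℂ) x)) : HH d →ₗ[ℂ] ℂ where
  toFun f := ∫ x, V x * (u : EE d → ℂ) x * (R f : EE d → ℂ) x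
  map_add' f g := by
    rw [← integral_add (h f) (h g)]
    refine integral_congr_ae ?_
    have h1 : (R (f + g) : EE d → ℂ) =ᵐ[volume] (R f : EE d → ℂ) + (R g : EE d → ℂ) := by
      rw [map_add]
      exact Lp.coeFn_add _ _
    filter_upwards [h1] with x hx
    rw [hx, Pi.add_apply]
    ring
  map_smul' c f := by
    rw [RingHom.id_apply, smul_eq_mul, ← integral_const_mul]
    refine integral_congr_ae ?_
    have h1 : (R (c • f) : EE d → ℂ) =ᵐ[volume] c • (R f : EE d → ℂ) := by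
      rw [map_smul]
      exact Lp.coeFn_smul _ _
    filter_upwards [h1] with x hx
    rw [hx, Pi.smul_apply, smul_eq_mul]
    ring

theorem ctr_test {d : ℕ} (g : EE d → ℝ) (hg : ContDiff ℝ (⊤ : ℕ∞) g) (hgc : HasCompactSupport g) :
    IsTest (fun x => (g x : ℂ)) ∧ MemLp (fun x => (g x : ℂ)) 2 (volume : Measure (EE d)) := by
  have h1 : ContDiff ℝ (⊤ : ℕ∞) (fun x => (g x : ℂ)) := Complex.ofRealCLM.contDiff.comp hg
  have h2 : HasCompactSupport (fun x => (g x : ℂ)) := hgc.comp_left Complex.ofReal_zero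
  exact ⟨⟨h1, h2⟩, h1.continuous.memLp_of_hasCompactSupport h2⟩

theorem ctr_proj_eq {d : ℕ} (R : ℝ) (ψ : HH d)
    (hψ : ∀ᵐ x, x ∉ Metric.ball (0 : EE d) R → (ψ : EE d → ℂ) x = 0) :
    proj (Metric.closedBall 0 R) ψ = ψ := by
  apply Lp.ext
  filter_upwards [proj_ae (Metric.closedBall (0 : EE d) R) measurableSet_closedBall ψ, hψ]
    with x h1 h2
  rw [h1]
  by_cases hx : x ∈ Metric.closedBall (0 : EE d) R
  · rw [Set.indicator_of_mem hx]
  · rw [Set.indicator_of_notMem hx]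
    exact (h2 fun h => hx (Metric.ball_subset_closedBall h)).symm

theorem ctr_dual (d : ℕ) (z : ℂ) (hz : 0 < z.im ∨ z.im < 0 ∨ z.re < 0) (V : EE d → ℂ)
    (hV : Measurable V) (p : ℝ) (hp : 1 ≤ p) (hVp : Integrable (fun x => ‖V x‖ ^ p))
    (H2 : ∀ r : ℕ, ∃ C : ℝ, ∀ n : ℕ, ∀ f g : HH d,
      ‖⟪wm (wn V n) g, Rz d z (proj (Metric.closedBall 0 r) f)⟫_ℂ‖ ≤ C * ‖f‖ * ‖g‖)
    (u : HH d) (hu : Integrable (fun x => ‖V x‖ * ‖(u : EE d → ℂ) x‖ ^ 2))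
    (hw : ∀ φ : EE d → ℂ, IsTest φ →
      ∫ x, ((u : EE d → ℂ) x * (-(Δ φ) x) + V x * (u : EE d → ℂ) x * φ x) =
        z * (∫ x, (u : EE d → ℂ) x * φ x)) (R : ℕ) (ψ : HH d)
    (hψ : ∀ᵐ x, x ∉ Metric.ball (0 : EE d) R → (ψ : EE d → ℂ) x = 0) :
    ⟪ctrBar u, ψ⟫_ℂ = -(∫ x, V x * (u : EE d → ℂ) x * (Rz d z ψ : EE d → ℂ) x) := by
  obtain ⟨C, hC⟩ := H2 R
  set P : HH d →L[ℂ] HH d := proj (Metric.closedBall 0 (R : ℝ)) with hP
  have hb : ∀ f : HH d, ∀ n : ℕ, ‖wm (wn V n) (((Rz d z) ∘L P) f)‖ ≤ |C| * ‖f‖ := by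
    intro f n
    refine ctr_bound (wn V n) (wn_wt V hV n) _ |C| ‖f‖ (abs_nonneg _) (norm_nonneg _) fun g => ?_
    refine (hC n f g).trans ?_
    exact mul_le_mul_of_nonneg_right
      (mul_le_mul_of_nonneg_right (le_abs_self C) (norm_nonneg _)) (norm_nonneg _)
  have hk := fun f => ctr_key2 V hV u hu (((Rz d z) ∘L P) f) (|C| * ‖f‖) (by positivity) (hb f)
  set L2 : HH d →L[ℂ] ℂ := (ctrL V u ((Rz d z) ∘L P) fun f => (hk f).1).mkContinuous
    (Real.sqrt (∫ x, ‖V x‖ * ‖(u : EE d → ℂ) x‖ ^ 2) * |C|) (fun f => by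
      rw [mul_assoc]
      exact (hk f).2) with hL2
  have hL2a : ∀ f, L2 f = ∫ x, V x * (u : EE d → ℂ) x * (Rz d z (P f) : EE d → ℂ) x := fun f => rfl
  set Λ : HH d →L[ℂ] ℂ := (innerSL ℂ (ctrBar u)) ∘L P + L2 with hΛ
  have hΛa : ∀ f, Λ f = ⟪ctrBar u, P f⟫_ℂ +
      ∫ x, V x * (u : EE d → ℂ) x * (Rz d z (P f) : EE d → ℂ) x := fun f => rfl
  set l : HH d := (InnerProductSpace.toDual ℂ (HH d)).symm Λ with hl
  have hla : ∀ f, ⟪l, f⟫_ℂ = Λ f := fun f => InnerProductSpace.toDual_symm_apply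
  have hloc : LocallyIntegrable (fun x => (starRingEnd ℂ) ((l : EE d → ℂ) x))
      (volume : Measure (EE d)) := (ctr_conj_memLp l).locallyIntegrable (by norm_num)
  have hz0 : ∀ᵐ x ∂(volume : Measure (EE d)), x ∈ Metric.ball (0 : EE d) R →
      (starRingEnd ℂ) ((l : EE d → ℂ) x) = 0 := by
    refine Metric.isOpen_ball.ae_eq_zero_of_integral_contDiff_smul_eq_zero
      (hloc.locallyIntegrableOn _) ?_
    intro g hg hgc hgs
    obtain ⟨ht, hm⟩ := ctr_test g hg hgc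
    set q : HH d := hm.toLp _ with hq
    have hqa : (q : EE d → ℂ) =ᵐ[volume] fun x => (g x : ℂ) := MemLp.coeFn_toLp _
    have hPq : P q = q := by
      refine ctr_proj_eq (R : ℝ) q ?_
      filter_upwards [hqa] with x hx hxb
      rw [hx]
      have : g x = 0 := by
        by_contra hne
        exact hxb (hgs (subset_tsupport g hne))
      rw [this, Complex.ofReal_zero]
    obtain ⟨-, -, hs⟩ := schw_weak d z hz V hV p hp hVp u hu hw _ ht q hqa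
    have h1 : Λ q = 0 := by
      rw [hΛa, hPq, ctrBar_inner]
      have h2 : ∫ x, (u : EE d → ℂ) x * (q : EE d → ℂ) x =
          ∫ x, (u : EE d → ℂ) x * (g x : ℂ) := by
        refine integral_congr_ae ?_
        filter_upwards [hqa] with x hx
        rw [hx]
      rw [h2, hs]
      ring
    rw [← hla, ctr_inner] at h1
    rw [← h1]
    refine integral_congr_ae ?_
    filter_upwards [hqa] with x hx
    rw [hx, Complex.real_smul]
  have hPψ : P ψ = ψ := ctr_proj_eq (R : ℝ) ψ hψ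
  have h1 : Λ ψ = 0 := by
    rw [← hla, ctr_inner]
    have h2 : (fun x => (ψ : EE d → ℂ) x * (starRingEnd ℂ) ((l : EE d → ℂ) x)) =ᵐ[volume] 0 := by
      filter_upwards [hz0, hψ] with x h3 h4
      by_cases hx : x ∈ Metric.ball (0 : EE d) R
      · rw [h3 hx, mul_zero]
        rfl
      · rw [h4 hx, zero_mul]
        rfl
    rw [integral_congr_ae h2]
    simp
  rw [hΛa, hPψ] at h1
  exact eq_neg_of_add_eq_zero_left h1

theorem contraction (d : ℕ) (z : ℂ) (hz : 0 < z.im ∨ z.im < 0 ∨ z.re < 0) (V : EE d → ℂ)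
    (hV : Measurable V) (p : ℝ) (hp : 1 ≤ p) (hVp : Integrable (fun x => ‖V x‖ ^ p))
    (θ : ℝ) (hθ : θ < 1)
    (H1 : ∀ n m : ℕ, ∀ f g : HH d, ‖⟪wm (wn V n) g, Rz d z (wm (wn V m) f)⟫_ℂ‖ ≤ θ * ‖f‖ * ‖g‖)
    (H2 : ∀ r : ℕ, ∃ C : ℝ, ∀ n : ℕ, ∀ f g : HH d,
      ‖⟪wm (wn V n) g, Rz d z (proj (Metric.closedBall 0 r) f)⟫_ℂ‖ ≤ C * ‖f‖ * ‖g‖)
    (u : HH d) (hu : Integrable (fun x => ‖V x‖ * ‖(u : EE d → ℂ) x‖ ^ 2))
    (hw : ∀ φ : EE d → ℂ, IsTest φ →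
      ∫ x, ((u : EE d → ℂ) x * (-(Δ φ) x) + V x * (u : EE d → ℂ) x * φ x) =
        z * (∫ x, (u : EE d → ℂ) x * φ x)) : u = 0 := by
  set θ' : ℝ := max θ 0 with hθ'
  have hθ0 : 0 ≤ θ' := le_max_right _ _
  have hθ1 : θ' < 1 := max_lt hθ one_pos
  set A : ℝ := ∫ x, ‖V x‖ * ‖(u : EE d → ℂ) x‖ ^ 2 with hA
  have hA0 : 0 ≤ A := integral_nonneg fun x => by positivity
  -- the main estimate
  have hmain : ∀ m : ℕ, ‖wm (wn V m) (ctrBar u)‖ ≤ Real.sqrt A * θ' := by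
    intro m
    set h : HH d := wm (wn V m) (ctrBar u) with hh
    set ψ : HH d := wm (wn V m) h with hψdef
    have hψ : ∀ᵐ x, x ∉ Metric.ball (0 : EE d) ((m + 1 : ℕ) : ℝ) → (ψ : EE d → ℂ) x = 0 := by
      filter_upwards [wm_ae (wn V m) (wn_wt V hV m) h] with x hx hxb
      rw [hx]
      have h1 : wn V m x = 0 := by
        unfold wn
        rw [Set.indicator_of_notMem]
        rintro ⟨h2, -⟩
        apply hxb
        rw [mem_ball_zero_iff]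
        push_cast
        linarith
      rw [h1, Complex.ofReal_zero, zero_mul]
    have h1 := ctr_dual d z hz V hV p hp hVp H2 u hu hw (m + 1) ψ hψ
    have hb : ∀ n : ℕ, ‖wm (wn V n) (Rz d z ψ)‖ ≤ θ' * ‖h‖ := by
      intro n
      refine ctr_bound (wn V n) (wn_wt V hV n) _ θ' ‖h‖ hθ0 (norm_nonneg _) fun g => ?_
      refine (H1 n m h g).trans ?_
      exact mul_le_mul_of_nonneg_right
        (mul_le_mul_of_nonneg_right (le_max_left θ 0) (norm_nonneg _)) (norm_nonneg _)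
    obtain ⟨-, h2⟩ := ctr_key2 V hV u hu (Rz d z ψ) (θ' * ‖h‖) (by positivity) hb
    have h3 : ⟪ctrBar u, ψ⟫_ℂ = ((‖h‖ : ℝ) : ℂ) ^ 2 := by
      rw [hψdef, ← ctr_wm_symm (wn V m) (wn_wt V hV m), ← hh, inner_self_eq_norm_sq_to_K]
      rfl
    have h4 : ‖h‖ ^ 2 ≤ Real.sqrt A * (θ' * ‖h‖) := by
      have h5 : ‖⟪ctrBar u, ψ⟫_ℂ‖ = ‖h‖ ^ 2 := by
        rw [h3, norm_pow, Complex.norm_real, norm_norm]
      rw [← h5, h1, norm_neg]
      exact h2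
    rcases (norm_nonneg h).eq_or_lt with h5 | h5
    · rw [← h5]
      positivity
    · have h6 : ‖h‖ * ‖h‖ ≤ (Real.sqrt A * θ') * ‖h‖ := by
        rw [← sq]
        linarith [h4]
      exact le_of_mul_le_mul_right h6 h5
  -- A = 0
  have hAz : A = 0 := by
    obtain ⟨-, h1⟩ := ctr_key V hV (ctrBar u) (Real.sqrt A * θ') hmain
    have h2 : ∫ x, ‖V x‖ * ‖(ctrBar u : EE d → ℂ) x‖ ^ 2 = A := by
      refine integral_congr_ae ?_
      filter_upwards [ctrBar_ae u] with x hx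
      rw [hx, RCLike.norm_conj]
    rw [h2, mul_pow, Real.sq_sqrt hA0] at h1
    by_contra hne
    have hpos : 0 < A := lt_of_le_of_ne hA0 (Ne.symm hne)
    have h3 : θ' ^ 2 < 1 := by nlinarith
    nlinarith
  have hVu : ∀ᵐ x, V x * (u : EE d → ℂ) x = 0 := by
    have h1 := (integral_eq_zero_iff_of_nonneg (fun x => by positivity) hu).1 hAz
    filter_upwards [h1] with x hx
    have hx' : ‖V x‖ * ‖(u : EE d → ℂ) x‖ ^ 2 = 0 := hx
    rcases mul_eq_zero.1 hx' with h2 | h2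
    · rw [norm_eq_zero.1 h2, zero_mul]
    · rw [norm_eq_zero.1 (pow_eq_zero_iff (two_ne_zero) |>.1 h2), mul_zero]
  have hu0 : ∀ᵐ x, (u : EE d → ℂ) x = 0 := by
    refine ae_eq_zero_of_integral_contDiff_smul_eq_zero
      ((Lp.memLp u).locallyIntegrable (by norm_num)) ?_
    intro g hg hgc
    obtain ⟨ht, hm⟩ := ctr_test g hg hgc
    have hqa : (hm.toLp _ : EE d → ℂ) =ᵐ[volume] fun x => (g x : ℂ) := MemLp.coeFn_toLp _
    obtain ⟨-, -, hs⟩ := schw_weak d z hz V hV p hp hVp u hu hw _ ht (hm.toLp _) hqa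
    have h1 : ∫ x, V x * (u : EE d → ℂ) x * (Rz d z (hm.toLp _) : EE d → ℂ) x = 0 := by
      have h2 : (fun x => V x * (u : EE d → ℂ) x * (Rz d z (hm.toLp _) : EE d → ℂ) x) =ᵐ[volume]
          0 := by
        filter_upwards [hVu] with x hx
        rw [hx, zero_mul]
        rfl
      rw [integral_congr_ae h2]
      simp
    rw [h1, neg_zero] at hs
    rw [← hs]
    refine integral_congr_ae (Eventually.of_forall fun x => ?_)
    show g x • (u : EE d → ℂ) x = (u : EE d → ℂ) x * (g x : ℂ)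
    rw [Complex.real_smul, mul_comm]
  exact (Lp.eq_zero_iff_ae_eq_zero).2 hu0

end

end Pool.Agent.Helper41.KR
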