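import Pool.Agent.Helper41.KR.Defs
import Pool.Agent.Helper41.KR.C01
import Pool.Agent.Helper41.KR.C02
import Pool.Agent.Helper41.KR.C03
import Pool.Agent.Helper41.KR.K12

open MeasureTheory Filter Topology ENNReal Complex
open scoped Laplacian FourierTransform InnerProductSpace

namespace Pool.Agent.Helper41.KR

noncomputable section

theorem no_eig (d : ℕ) (hd : 1 ≤ d) (γ : ℝ) (hγ : 0 < γ) (hγ' : γ ≤ 1 / 2) (h1 : d = 1 → γ = 1 / 2)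
    (V : EE d → ℂ) (hV : Measurable V)
    (hVp : Integrable (fun x => ‖V x‖ ^ (γ + (d : ℝ) / 2)))
    (hI : 0 < ∫ x, ‖V x‖ ^ (γ + (d : ℝ) / 2)) :
    ∃ ħ₀ : ℝ, 0 < ħ₀ ∧ ∀ (ħ : ℝ) (E : ℂ), 0 < ħ → ħ < ħ₀ → ¬ (0 ≤ E.re ∧ E.im = 0) →
      ħ ^ (-(d : ℝ)) * (∫ x, ‖V x‖ ^ (γ + (d : ℝ) / 2)) ≤ ‖E‖ ^ γ →
      ∀ u : HH d, Integrable (fun x => ‖V x‖ * ‖(u : EE d → ℂ) x‖ ^ 2) →
        (∀ φ : EE d → ℂ, IsTest φ →
          ∫ x, ((u : EE d → ℂ) x * (-((ħ : ℂ) ^ 2) * (Δ φ) x) + V x * (u : EE d → ℂ) x * φ x) =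
            E * (∫ x, (u : EE d → ℂ) x * φ x)) → u = 0 := by
  obtain ⟨ħ₀, h0, hb⟩ := bs_small d hd γ hγ hγ' h1 V hV hVp hI
  refine ⟨ħ₀, h0, ?_⟩
  intro ħ E hħ hħ0 hE hlow u hu hw
  have hE0 : E ≠ 0 := by
    rintro rfl
    exact hE ⟨by simp, by simp⟩
  obtain ⟨θ, hθ, H1, H2⟩ := hb ħ E hħ hħ0 hE hlow
  obtain ⟨w, hwu, hwi, hww⟩ := scale_weak d V hV ħ hħ E hE0 u hu hw
  apply hwu
  have hEn : 0 < ‖E‖ := norm_pos_iff.mpr hE0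
  have hk : 0 < Real.sqrt ‖E‖ / ħ := div_pos (Real.sqrt_pos.mpr hEn) hħ
  have hd' : (1 : ℝ) ≤ (d : ℝ) := by exact_mod_cast hd
  have hp : 0 < γ + (d : ℝ) / 2 := by linarith
  have hp1 : 1 ≤ γ + (d : ℝ) / 2 := by
    rcases hd.lt_or_eq with h | h
    · have : (2 : ℝ) ≤ (d : ℝ) := by exact_mod_cast h
      linarith
    · have h2 := h1 h.symm
      rw [h2]; linarith
  obtain ⟨m1, m2, -⟩ := dil_ok d V hV _ ‖E‖ hk hEn _ hp hVp Set.univ MeasurableSet.univ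
  have him : (E / ((‖E‖ : ℝ) : ℂ)).im = E.im / ‖E‖ := Complex.div_ofReal_im _ _
  have hre : (E / ((‖E‖ : ℝ) : ℂ)).re = E.re / ‖E‖ := Complex.div_ofReal_re _ _
  have hz : 0 < (E / ((‖E‖ : ℝ) : ℂ)).im ∨ (E / ((‖E‖ : ℝ) : ℂ)).im < 0 ∨
      (E / ((‖E‖ : ℝ) : ℂ)).re < 0 := by
    rw [him, hre]
    rcases lt_trichotomy 0 E.im with h | h | h
    · exact Or.inl (div_pos h hEn)
    · right; right
      have : E.re < 0 := by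
        by_contra hc
        push Not at hc
        exact hE ⟨hc, h.symm⟩
      exact div_neg_of_neg_of_pos this hEn
    · exact Or.inr (Or.inl (div_neg_of_neg_of_pos h hEn))
  exact contraction d (E / ((‖E‖ : ℝ) : ℂ)) hz _ m1 _ hp1 m2 θ hθ H1 H2 w hwi hww

end

end Pool.Agent.Helper41.KR
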