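import Mathlib

/-! Uniform resolvent bounds for the Laplacian. -/

open MeasureTheory Filter Topology ENNReal Complex
open scoped Laplacian FourierTransform InnerProductSpace

namespace Pool.Agent.Helper41.KR

noncomputable section

/-- Euclidean space of dimension `d`. -/
abbrev EE (d : ℕ) := EuclideanSpace ℝ (Fin d)

/-- The Hilbert space `L²(ℝ^d; ℂ)`. -/
abbrev HH (d : ℕ) := Lp ℂ 2 (volume : Measure (EE d))

/-- Test functions. -/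
def IsTest {d : ℕ} (φ : EE d → ℂ) : Prop := ContDiff ℝ (⊤ : ℕ∞) φ ∧ HasCompactSupport φ

open Classical in
/-- The operator of multiplication by `m` (zero if it is not a bounded operator). -/
def mulOp {d : ℕ} (m : EE d → ℂ) : HH d →L[ℂ] HH d :=
  if h : ∃ A : HH d →L[ℂ] HH d, ∀ f : HH d, (A f : EE d → ℂ) =ᵐ[volume] fun x => m x * f x
  then h.choose else 0

/-- The projection onto functions supported in `S`. -/
def proj {d : ℕ} (S : Set (EE d)) : HH d →L[ℂ] HH d := mulOp (S.indicator fun _ => (1 : ℂ))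

/-- The symbol of `(-Δ - z)^{-1}`. -/
def sym {d : ℕ} (z : ℂ) (ξ : EE d) : ℂ := (((4 * Real.pi ^ 2 * ‖ξ‖ ^ 2 : ℝ) : ℂ) - z)⁻¹

/-- The operator `(-Δ - z)^{-1}`. -/
def Rz (d : ℕ) (z : ℂ) : HH d →L[ℂ] HH d :=
  ((Lp.fourierTransformₗᵢ (EE d) ℂ).symm.toContinuousLinearEquiv.toContinuousLinearMap) ∘L
    (mulOp (sym z)) ∘L
      ((Lp.fourierTransformₗᵢ (EE d) ℂ).toContinuousLinearEquiv.toContinuousLinearMap)

/-- The form `∫ conj(ĝ) f̂ (1/(i(4π²|ξ|² - z)))^ζ`. -/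
def FF (d : ℕ) (z ζ : ℂ) (f g : HH d) : ℂ :=
  ∫ ξ : EE d, (starRingEnd ℂ) ((𝓕 g : HH d) ξ) * (𝓕 f : HH d) ξ *
    ((I * (((4 * Real.pi ^ 2 * ‖ξ‖ ^ 2 : ℝ) : ℂ) - z))⁻¹) ^ ζ

/-- Bounded measurable nonnegative weights with bounded support. -/
def Wt {d : ℕ} (W : EE d → ℝ) : Prop :=
  Measurable W ∧ (∀ x, 0 ≤ W x) ∧ (∃ B : ℝ, ∀ x, W x ≤ B) ∧ (∃ r : ℝ, ∀ x, r < ‖x‖ → W x = 0)

/-- multiplication by a real weight -/
def wm {d : ℕ} (W : EE d → ℝ) : HH d →L[ℂ] HH d := mulOp (fun x => (W x : ℂ))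

/-- the incomplete Gamma function `∫_0^t u^N e^{-u} du / N!` -/
def rho (N : ℕ) (t : ℝ) : ℝ := ∫ u in (0 : ℝ)..t, u ^ N * Real.exp (-u) / (N.factorial : ℝ)

/-- truncated square root of `|V|` -/
def wn {d : ℕ} (V : EE d → ℂ) (n : ℕ) (x : EE d) : ℝ :=
  ({x : EE d | ‖x‖ ≤ n ∧ ‖V x‖ ≤ n}).indicator (fun x => Real.sqrt ‖V x‖) x

/-- The Fourier multiplier with symbol `m`. -/
def fm {d : ℕ} (m : EE d → ℂ) : HH d →L[ℂ] HH d :=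
  ((Lp.fourierTransformₗᵢ (EE d) ℂ).symm.toContinuousLinearEquiv.toContinuousLinearMap) ∘L
    (mulOp m) ∘L
      ((Lp.fourierTransformₗᵢ (EE d) ℂ).toContinuousLinearEquiv.toContinuousLinearMap)

/-- The symbol of `(1 - Δ)^{-1/2}`. -/
def tsym {d : ℕ} (ξ : EE d) : ℂ := ((Real.sqrt (1 + 4 * Real.pi ^ 2 * ‖ξ‖ ^ 2))⁻¹ : ℝ)

/-- The symbol `(X + 1)/(X - z)`, `X = 4π²|ξ|²`. -/
def ssym {d : ℕ} (z : ℂ) (ξ : EE d) : ℂ :=
  ((1 + 4 * Real.pi ^ 2 * ‖ξ‖ ^ 2 : ℝ) : ℂ) * (((4 * Real.pi ^ 2 * ‖ξ‖ ^ 2 : ℝ) : ℂ) - z)⁻¹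

/-- Bounded measurable potentials with bounded support. -/
def BV {d : ℕ} (V : EE d → ℂ) : Prop :=
  Measurable V ∧ (∃ B : ℝ, ∀ x, ‖V x‖ ≤ B) ∧ (∃ r : ℝ, ∀ x, r < ‖x‖ → V x = 0)

/-- The operator `1 + g V (-Δ - z)^{-1}`. -/
def AA (d : ℕ) (g : ℝ) (V : EE d → ℂ) (z : ℂ) : HH d →L[ℂ] HH d :=
  1 + (g : ℂ) • (mulOp V ∘L Rz d z)

end

end Pool.Agent.Helper41.KR
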